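import Mathlib
set_option autoImplicit false
open Finset

/-! Counting and linear-algebra lemmas for antichains of bounded diameter. -/

namespace Pool.Agent.H173R2.AntiDiam

/-- number of sets of size `a` between `S` and `B`. -/
theorem card_between {n : ℕ} (S B : Finset (Fin n)) (a : ℕ) (hSB : S ⊆ B) (ha : S.card ≤ a) :
    ((univ : Finset (Finset (Fin n))).filter (fun X => X.card = a ∧ S ⊆ X ∧ X ⊆ B)).card =
      (B.card - S.card).choose (a - S.card) := by
  classical
  have h1 : ((univ : Finset (Finset (Fin n))).filter (fun X => X.card = a ∧ S ⊆ X ∧ X ⊆ B)) =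
      (powersetCard (a - S.card) (B \ S)).image (fun T => S ∪ T) := by
    ext X
    simp only [mem_filter, mem_univ, true_and, mem_image, mem_powersetCard]
    constructor
    · rintro ⟨h1, h2, h3⟩
      refine ⟨X \ S, ⟨sdiff_subset_sdiff h3 subset_rfl, ?_⟩, union_sdiff_of_subset h2⟩
      rw [card_sdiff_of_subset h2, h1]
    · rintro ⟨T, ⟨h1, h2⟩, rfl⟩
      have hd : Disjoint S T := by
        have := disjoint_sdiff (s := S) (t := B)
        exact disjoint_of_subset_right h1 this
      refine ⟨?_, subset_union_left, union_subset hSB (h1.trans sdiff_subset)⟩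
      rw [card_union_of_disjoint hd, h2]; omega
  rw [h1, card_image_of_injOn, card_powersetCard, card_sdiff_of_subset hSB]
  intro T hT T' hT' h
  rw [mem_coe, mem_powersetCard] at hT hT'
  simp only at h
  have hd : Disjoint S T := disjoint_of_subset_right hT.1 disjoint_sdiff
  have hd' : Disjoint S T' := disjoint_of_subset_right hT'.1 disjoint_sdiff
  have e1 : (S ∪ T) \ S = T := by
    rw [union_sdiff_cancel_left hd]
  have e2 : (S ∪ T') \ S = T' := by
    rw [union_sdiff_cancel_left hd']
  rw [← e1, ← e2, h]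

/-- If `g` lives on level `a` and its sums over supersets of `r`-sets vanish, the sums over
supersets of all sets of size at most `r` vanish. -/
theorem up_zero {n : ℕ} (r a : ℕ) (hra : r ≤ a) (g : Finset (Fin n) → ℚ)
    (hg : ∀ X, X.card ≠ a → g X = 0)
    (h0 : ∀ S : Finset (Fin n), S.card = r → ∑ X with S ⊆ X, g X = 0)
    (J : Finset (Fin n)) (hJ : J.card ≤ r) : ∑ X with J ⊆ X, g X = 0 := by
  classical
  have h1 : ∑ S : Finset (Fin n) with S.card = r ∧ J ⊆ S, ∑ X with S ⊆ X, g X = 0 := by
    apply sum_eq_zero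
    intro S hS
    rw [mem_filter] at hS
    exact h0 S hS.2.1
  have h2 : ∑ S : Finset (Fin n) with S.card = r ∧ J ⊆ S, ∑ X with S ⊆ X, g X =
      ∑ X : Finset (Fin n) with J ⊆ X, ((a - J.card).choose (r - J.card) : ℚ) * g X := by
    rw [sum_comm' (t' := (univ : Finset (Finset (Fin n))).filter (fun X => J ⊆ X))
      (s' := fun X => (univ : Finset (Finset (Fin n))).filter
        (fun S => S.card = r ∧ J ⊆ S ∧ S ⊆ X))]
    · apply sum_congr rfl
      intro X hX
      rw [mem_filter] at hX
      by_cases hc : X.card = a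
      · rw [sum_const, nsmul_eq_mul, card_between J X r hX.2 hJ, hc]
      · rw [hg X hc]; simp
    · intro S X
      simp only [mem_filter, mem_univ, true_and]
      constructor
      · rintro ⟨⟨h1, h2⟩, h3⟩
        exact ⟨⟨h1, h2, h3⟩, h2.trans h3⟩
      · rintro ⟨⟨h1, h2, h3⟩, _⟩
        exact ⟨⟨h1, h2⟩, h3⟩
  rw [h2, ← mul_sum] at h1
  rcases mul_eq_zero.1 h1 with h | h
  · exfalso
    have : 0 < (a - J.card).choose (r - J.card) := Nat.choose_pos (by omega)
    rw [Nat.cast_eq_zero] at h
    omega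
  · exact h

/-- alternating sum `∑_{j ≤ r} (-1)^j C(y,j)`. -/
def P (r y : ℕ) : ℚ := ∑ j ∈ range (r + 1), (-1) ^ j * (y.choose j : ℚ)

theorem P_zero (r : ℕ) : P r 0 = 1 := by
  unfold P
  rw [sum_range_succ']
  simp

theorem P_pos (r y : ℕ) (h1 : 1 ≤ y) (h2 : y ≤ r) : P r y = 0 := by
  unfold P
  have h3 : ∑ j ∈ range (y + 1), (-1 : ℚ) ^ j * (y.choose j : ℚ) = 0 := by
    have := Int.alternating_sum_range_choose_of_ne (n := y) (by omega)
    have h4 : ((∑ m ∈ range (y + 1), ((-1) ^ m * y.choose m : ℤ) : ℤ) : ℚ) = 0 := by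
      rw [this]; simp
    push_cast at h4
    exact h4
  rw [← h3]
  symm
  apply sum_subset
  · intro j hj
    rw [mem_range] at *
    omega
  · intro j _ hj2
    rw [mem_range] at hj2
    rw [Nat.choose_eq_zero_of_lt (by omega)]
    simp

/-- the key orthogonality -/
theorem key {n : ℕ} (r a : ℕ) (hra : r ≤ a) (g : Finset (Fin n) → ℚ)
    (hg : ∀ X, X.card ≠ a → g X = 0)
    (h0 : ∀ S : Finset (Fin n), S.card = r → ∑ X with S ⊆ X, g X = 0)
    (B : Finset (Fin n)) : ∑ X, g X * P r (X \ B).card = 0 := by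
  classical
  have h1 : ∀ X : Finset (Fin n), g X * P r (X \ B).card =
      ∑ J : Finset (Fin n) with (J.card ≤ r ∧ J ⊆ Bᶜ) ∧ J ⊆ X, (-1 : ℚ) ^ J.card * g X := by
    intro X
    have h2 : (univ : Finset (Finset (Fin n))).filter
        (fun J => (J.card ≤ r ∧ J ⊆ Bᶜ) ∧ J ⊆ X) =
        (range (r + 1)).biUnion (fun j => powersetCard j (X \ B)) := by
      ext J
      simp only [mem_filter, mem_univ, true_and, mem_biUnion, mem_range, mem_powersetCard]
      constructor
      · rintro ⟨⟨h1, h2⟩, h3⟩
        refine ⟨J.card, by omega, ?_, rfl⟩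
        intro x hx
        rw [mem_sdiff]
        exact ⟨h3 hx, mem_compl.1 (h2 hx)⟩
      · rintro ⟨j, h1, h2, rfl⟩
        refine ⟨⟨by omega, ?_⟩, h2.trans sdiff_subset⟩
        intro x hx
        rw [mem_compl]
        exact (mem_sdiff.1 (h2 hx)).2
    rw [h2, sum_biUnion]
    · unfold P
      rw [mul_sum]
      apply sum_congr rfl
      intro j _
      have h3 : ∑ J ∈ powersetCard j (X \ B), (-1 : ℚ) ^ J.card * g X =
          ∑ J ∈ powersetCard j (X \ B), (-1 : ℚ) ^ j * g X := by
        apply sum_congr rfl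
        intro J hJ
        rw [(mem_powersetCard.1 hJ).2]
      rw [h3, sum_const, card_powersetCard, nsmul_eq_mul]
      ring
    · intro i _ j _ hij
      exact pairwise_disjoint_powersetCard _ hij
  simp_rw [h1]
  rw [sum_comm' (t' := (univ : Finset (Finset (Fin n))).filter (fun J => J.card ≤ r ∧ J ⊆ Bᶜ))
      (s' := fun J => (univ : Finset (Finset (Fin n))).filter (fun X => J ⊆ X))]
  · apply sum_eq_zero
    intro J hJ
    rw [mem_filter] at hJ
    rw [← mul_sum, up_zero r a hra g hg h0 J hJ.2.1, mul_zero]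
  · intro X J
    simp only [mem_filter, mem_univ, true_and]
    tauto

/-- uniform case -/
theorem uniform {n : ℕ} (r a : ℕ) (hra : r ≤ a) (G : Finset (Finset (Fin n)))
    (hG : ∀ A ∈ G, ∀ B ∈ G, A.card = a → B.card = a → (A \ B).card ≤ r)
    (g : Finset (Fin n) → ℚ) (hg : ∀ X, X.card ≠ a → g X = 0) (hgG : ∀ X, X ∉ G → g X = 0)
    (h0 : ∀ S : Finset (Fin n), S.card = r → ∑ X with S ⊆ X, g X = 0) : ∀ X, g X = 0 := by
  classical
  intro B
  by_cases hB : B ∈ G
  · by_cases hBa : B.card = a
    · have h1 := key r a hra g hg h0 B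
      rw [sum_eq_single B] at h1
      · simpa [P_zero] using h1
      · intro X _ hX
        by_cases hXG : X ∈ G
        · by_cases hXa : X.card = a
          · rw [P_pos r _ ?_ (hG X hXG B hB hXa hBa), mul_zero]
            rw [Nat.one_le_iff_ne_zero, Ne, card_eq_zero, sdiff_eq_empty_iff_subset]
            intro hs
            exact hX (eq_of_subset_of_card_le hs (by omega))
          · rw [hg X hXa, zero_mul]
        · rw [hgG X hXG, zero_mul]
      · intro h; exact absurd (mem_univ _) h
    · exact hg B hBa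
  · exact hgG B hB

end Pool.Agent.H173R2.AntiDiam
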