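import Pool.Agent.H173R2.AntiDiamA
set_option autoImplicit false
open Finset

/-! Two-size lemma, pushing and assembly for antichains of bounded diameter. -/

namespace Pool.Agent.H173R2.AntiDiam

/-- double counting between two levels, above a fixed set. -/
theorem updown {n : ℕ} (S : Finset (Fin n)) (a b : ℕ) (hS : S.card ≤ a)
    (h : Finset (Fin n) → ℚ) :
    ∑ X : Finset (Fin n) with (X.card = a ∧ S ⊆ X), ∑ B : Finset (Fin n) with
        (B.card = b ∧ X ⊆ B), h B =
      ((b - S.card).choose (a - S.card) : ℚ) *
        ∑ B : Finset (Fin n) with (B.card = b ∧ S ⊆ B), h B := by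
  classical
  rw [sum_comm' (t' := (univ : Finset (Finset (Fin n))).filter (fun B => B.card = b ∧ S ⊆ B))
      (s' := fun B => (univ : Finset (Finset (Fin n))).filter
        (fun X => X.card = a ∧ S ⊆ X ∧ X ⊆ B))]
  · rw [mul_sum]
    apply sum_congr rfl
    intro B hB
    rw [mem_filter] at hB
    rw [sum_const, card_between S B a hB.2.2 hS, nsmul_eq_mul, hB.2.1]
  · intro X B
    simp only [mem_filter, mem_univ, true_and]
    constructor
    · rintro ⟨⟨h1, h2⟩, h3, h4⟩
      exact ⟨⟨h1, h2, h4⟩, h3, h2.trans h4⟩
    · rintro ⟨⟨h1, h2, h3⟩, h4, h5⟩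
      exact ⟨⟨h1, h2⟩, h4, h3⟩

/-- members at two sizes: the `r`-inclusion vectors are independent -/
theorem two_size {n : ℕ} (r a b : ℕ) (hra : r ≤ a) (hab : a < b) (G : Finset (Finset (Fin n)))
    (hanti : ∀ A ∈ G, ∀ B ∈ G, A ⊆ B → A = B)
    (hmd : ∀ A ∈ G, ∀ B ∈ G, A.card ≤ B.card → (A \ B).card ≤ r)
    (hsz : ∀ A ∈ G, A.card = a ∨ A.card = b)
    (c : Finset (Fin n) → ℚ) (hcG : ∀ X, X ∉ G → c X = 0)
    (h0 : ∀ S : Finset (Fin n), S.card = r → ∑ X with S ⊆ X, c X = 0) : ∀ X, c X = 0 := by
  classical
  set γ : ℚ := ((b - r).choose (a - r) : ℚ) with hγ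
  have hγ0 : γ ≠ 0 := by
    rw [hγ, Nat.cast_ne_zero]
    exact (Nat.choose_pos (by omega)).ne'
  set u : Finset (Fin n) → ℚ := fun X => if X.card = a then
    ∑ B : Finset (Fin n) with (B.card = b ∧ X ⊆ B), c B else 0 with hu
  set g : Finset (Fin n) → ℚ := fun X => (if X.card = a then c X else 0) + γ⁻¹ * u X with hg
  have hga : ∀ X, X.card ≠ a → g X = 0 := by
    intro X hX
    simp [hg, hu, hX]
  -- sums of c split
  have hsplit : ∀ S : Finset (Fin n), ∑ X : Finset (Fin n) with S ⊆ X, c X =
      ∑ X : Finset (Fin n) with (X.card = a ∧ S ⊆ X), c X +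
      ∑ X : Finset (Fin n) with (X.card = b ∧ S ⊆ X), c X := by
    intro S
    rw [← sum_union]
    · symm
      apply sum_subset
      · intro X hX
        simp only [mem_union, mem_filter, mem_univ, true_and] at hX ⊢
        tauto
      · intro X hX hX2
        apply hcG
        intro hXG
        apply hX2
        simp only [mem_union, mem_filter, mem_univ, true_and] at hX ⊢
        rcases hsz X hXG with h | h
        · exact Or.inl ⟨h, hX⟩
        · exact Or.inr ⟨h, hX⟩
    · rw [disjoint_left]
      intro X hX hX2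
      simp only [mem_filter, mem_univ, true_and] at hX hX2
      omega
  have hg0 : ∀ S : Finset (Fin n), S.card = r → ∑ X with S ⊆ X, g X = 0 := by
    intro S hS
    have e1 : ∑ X : Finset (Fin n) with S ⊆ X, g X =
        ∑ X : Finset (Fin n) with (X.card = a ∧ S ⊆ X),
          (c X + γ⁻¹ * ∑ B : Finset (Fin n) with (B.card = b ∧ X ⊆ B), c B) := by
      symm
      have e2 : ∀ X ∈ (univ : Finset (Finset (Fin n))).filter (fun X => X.card = a ∧ S ⊆ X),
          (c X + γ⁻¹ * ∑ B : Finset (Fin n) with (B.card = b ∧ X ⊆ B), c B) = g X := by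
        intro X hX
        rw [mem_filter] at hX
        simp [hg, hu, hX.2.1]
      rw [sum_congr rfl e2]
      apply sum_subset
      · intro X hX
        simp only [mem_filter, mem_univ, true_and] at hX ⊢
        exact hX.2
      · intro X hX hX2
        apply hga
        intro hXa
        apply hX2
        simp only [mem_filter, mem_univ, true_and] at hX ⊢
        exact ⟨hXa, hX⟩
    rw [e1, sum_add_distrib, ← mul_sum, updown S a b (by omega) c, hS, ← mul_assoc, ← hγ,
      inv_mul_cancel₀ hγ0, one_mul, ← hsplit S]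
    exact h0 S hS
  -- the key identity at members of size b
  have hB : ∀ B ∈ G, B.card = b → ∑ X : Finset (Fin n) with X ⊆ B, u X = 0 := by
    intro B hBG hBb
    have h1 := key r a hra g hga hg0 B
    have h2 : ∀ X : Finset (Fin n), g X * P r (X \ B).card = γ⁻¹ * (if X ⊆ B then u X else 0) := by
      intro X
      by_cases hXa : X.card = a
      · have t1 : (if X.card = a then c X else 0) * P r (X \ B).card = 0 := by
          rw [if_pos hXa]
          by_cases hXG : X ∈ G
          · rw [P_pos r _ ?_ (hmd X hXG B hBG (by omega)), mul_zero]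
            rw [Nat.one_le_iff_ne_zero, Ne, card_eq_zero, sdiff_eq_empty_iff_subset]
            intro hs
            have := hanti X hXG B hBG hs
            rw [this] at hXa
            omega
          · rw [hcG X hXG, zero_mul]
        have t2 : u X * P r (X \ B).card = if X ⊆ B then u X else 0 := by
          by_cases hXB : X ⊆ B
          · rw [if_pos hXB, sdiff_eq_empty_iff_subset.2 hXB, card_empty, P_zero, mul_one]
          · rw [if_neg hXB]
            simp only [hu, if_pos hXa]
            rw [sum_mul]
            apply sum_eq_zero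
            intro B' hB'
            rw [mem_filter] at hB'
            by_cases hB'G : B' ∈ G
            · rw [P_pos r _, mul_zero]
              · rw [Nat.one_le_iff_ne_zero, Ne, card_eq_zero, sdiff_eq_empty_iff_subset]
                exact hXB
              · exact (card_le_card (sdiff_subset_sdiff hB'.2.2 subset_rfl)).trans
                  (hmd B' hB'G B hBG (by omega))
            · rw [hcG B' hB'G, zero_mul]
        rw [← t2]
        have : g X * P r (X \ B).card = (if X.card = a then c X else 0) * P r (X \ B).card +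
            γ⁻¹ * (u X * P r (X \ B).card) := by
          simp only [hg]
          ring
        rw [this, t1, zero_add]
      · rw [hga X hXa]
        simp [hu, hXa]
    simp_rw [h2] at h1
    rw [← mul_sum, mul_eq_zero] at h1
    rcases h1 with h | h
    · exact absurd h (inv_ne_zero hγ0)
    · rw [sum_filter]
      exact h
  -- sum of squares
  have hsq : ∑ X : Finset (Fin n), u X * u X = 0 := by
    have h1 : ∑ X : Finset (Fin n), u X * u X =
        ∑ B : Finset (Fin n) with B.card = b, c B * ∑ X : Finset (Fin n) with X ⊆ B, u X := by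
      have h2 : ∀ X : Finset (Fin n), u X * u X =
          ∑ B : Finset (Fin n) with (B.card = b ∧ X ⊆ B), c B * u X := by
        intro X
        by_cases hXa : X.card = a
        · conv_lhs => simp only [hu, if_pos hXa]
          rw [sum_mul]
          apply sum_congr rfl
          intro B _
          simp only [hu, if_pos hXa]
        · have : u X = 0 := by simp [hu, hXa]
          simp [this]
      simp_rw [h2]
      rw [sum_comm' (t' := (univ : Finset (Finset (Fin n))).filter (fun B => B.card = b))
        (s' := fun B => (univ : Finset (Finset (Fin n))).filter (fun X => X ⊆ B))]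
      · apply sum_congr rfl
        intro B _
        rw [mul_sum]
      · intro X B
        simp only [mem_filter, mem_univ, true_and]
        tauto
    rw [h1]
    apply sum_eq_zero
    intro B hBb
    rw [mem_filter] at hBb
    by_cases hBG : B ∈ G
    · rw [hB B hBG hBb.2, mul_zero]
    · rw [hcG B hBG, zero_mul]
  have hu0 : ∀ X, u X = 0 := by
    intro X
    have := (sum_eq_zero_iff_of_nonneg (fun X _ => mul_self_nonneg (u X))).1 hsq X (mem_univ X)
    exact mul_self_eq_zero.1 this
  -- level a
  have hga' : ∀ X, g X = 0 := by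
    apply uniform r a hra G _ g hga _ hg0
    · intro A hA B hB h1 h2
      exact hmd A hA B hB (by omega)
    · intro X hX
      simp only [hg, hu0 X, hcG X hX]
      simp
  have hca : ∀ X, X.card = a → c X = 0 := by
    intro X hX
    have := hga' X
    simp only [hg, hu0 X, if_pos hX] at this
    simpa using this
  apply uniform r b (by omega) G _ c _ hcG h0
  · intro A hA B hB h1 h2
    exact hmd A hA B hB (by omega)
  · intro X hX
    by_cases hXG : X ∈ G
    · rcases hsz X hXG with h | h
      · exact hca X h
      · exact absurd h hX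
    · exact hcG X hXG

/-- injectivity of the `r`-inclusion map on functions supported on `G` bounds `|G|` -/
theorem card_le_of_inj {n : ℕ} (r : ℕ) (G : Finset (Finset (Fin n)))
    (hinj : ∀ c : Finset (Fin n) → ℚ, (∀ X, X ∉ G → c X = 0) →
      (∀ S : Finset (Fin n), S.card = r → ∑ X with S ⊆ X, c X = 0) → ∀ X, c X = 0) :
    ∃ T : Finset (Finset (Fin n)), (∀ S ∈ T, S.card = r ∧ ∃ X ∈ G, S ⊆ X) ∧
      G.card ≤ T.card := by
  classical
  refine ⟨(univ : Finset (Finset (Fin n))).filter (fun S => S.card = r ∧ ∃ X ∈ G, S ⊆ X),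
    fun R hR => (mem_filter.1 hR).2, ?_⟩
  set T := (univ : Finset (Finset (Fin n))).filter (fun S => S.card = r ∧ ∃ X ∈ G, S ⊆ X) with hT
  let L : (G → ℚ) →ₗ[ℚ] (T → ℚ) :=
    { toFun := fun c S => ∑ X : G, if (S : Finset (Fin n)) ⊆ X then c X else 0
      map_add' := by
        intro c d
        funext S
        simp only [Pi.add_apply]
        rw [← sum_add_distrib]
        apply sum_congr rfl
        intro X _
        split_ifs <;> simp
      map_smul' := by
        intro q c
        funext S
        simp only [Pi.smul_apply, smul_eq_mul, RingHom.id_apply]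
        rw [mul_sum]
        apply sum_congr rfl
        intro X _
        split_ifs <;> simp }
  have hL : Function.Injective L := by
    rw [← LinearMap.ker_eq_bot, LinearMap.ker_eq_bot']
    intro c hc
    have key2 : ∀ S : Finset (Fin n), S.card = r → ∑ X : Finset (Fin n) with S ⊆ X,
        (if h : X ∈ G then c ⟨X, h⟩ else 0) = 0 := by
      intro S hS
      have e1 : ∑ X : Finset (Fin n) with S ⊆ X, (if h : X ∈ G then c ⟨X, h⟩ else 0) =
          ∑ X : G, if S ⊆ (X : Finset (Fin n)) then c X else 0 := by
        rw [sum_filter]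
        rw [← sum_subset (subset_univ G)]
        · rw [← sum_coe_sort G]
          apply sum_congr rfl
          intro X _
          simp
        · intro X _ hX
          simp [hX]
      rw [e1]
      by_cases hST : S ∈ T
      · have := congrFun hc ⟨S, hST⟩
        exact this
      · apply sum_eq_zero
        intro X _
        rw [if_neg]
        intro hSX
        apply hST
        rw [hT, mem_filter]
        exact ⟨mem_univ _, hS, X, X.2, hSX⟩
    have h3 := hinj (fun X => if h : X ∈ G then c ⟨X, h⟩ else 0)
      (by intro X hX; simp [hX]) key2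
    funext X
    have := h3 X
    simpa using this
  have h4 := LinearMap.finrank_le_finrank_of_injective hL
  rw [Module.finrank_pi, Module.finrank_pi, Fintype.card_coe, Fintype.card_coe] at h4
  exact h4

theorem choose_mono_half {n i r : ℕ} (hi : i ≤ r) (hn : 2 * r ≤ n) :
    n.choose i ≤ n.choose r := by
  induction r, hi using Nat.le_induction with
  | base => exact le_rfl
  | succ m hm ih =>
    refine (ih (by omega)).trans ?_
    exact Nat.choose_le_succ_of_lt_half_left (by omega)

/-- pushing small members up to level `r` -/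
theorem push_up {n : ℕ} (r : ℕ) (hn : 2 * r ≤ n) (S : Finset (Finset (Fin n)))
    (hanti : ∀ A ∈ S, ∀ B ∈ S, A ⊆ B → A = B) (hS : ∀ A ∈ S, A.card ≤ r) :
    ∃ U : Finset (Finset (Fin n)), (∀ R ∈ U, R.card = r ∧ ∃ A ∈ S, A ⊆ R) ∧
      S.card ≤ U.card := by
  classical
  refine ⟨(univ : Finset (Finset (Fin n))).filter (fun R => R.card = r ∧ ∃ A ∈ S, A ⊆ R),
    fun R hR => (mem_filter.1 hR).2, ?_⟩
  set U := (univ : Finset (Finset (Fin n))).filter (fun R => R.card = r ∧ ∃ A ∈ S, A ⊆ R) with hU
  set W := (univ : Finset (Finset (Fin n))).filter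
    (fun R => R.card = r ∧ ¬ ∃ A ∈ S, A ⊆ R) with hW
  have hdisj : Disjoint S W := by
    rw [disjoint_left]
    intro A hA hAW
    rw [hW, mem_filter] at hAW
    exact hAW.2.2 ⟨A, hA, subset_rfl⟩
  have hUW : U.card + W.card = n.choose r := by
    rw [← card_union_of_disjoint]
    · have : U ∪ W = powersetCard r (univ : Finset (Fin n)) := by
        ext R
        rw [mem_powersetCard, mem_union, hU, hW, mem_filter, mem_filter]
        by_cases hex : ∃ A ∈ S, A ⊆ R <;> simp [hex]
      rw [this, card_powersetCard, card_univ, Fintype.card_fin]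
    · rw [disjoint_left]
      intro R hR hR2
      rw [hU, mem_filter] at hR
      rw [hW, mem_filter] at hR2
      exact hR2.2.2 hR.2.2
  have hA : IsAntichain (· ⊆ ·) (SetLike.coe (S ∪ W)) := by
    intro A hA B hB hne hAB
    rw [mem_coe, mem_union] at hA hB
    rcases hA with hA | hA
    · rcases hB with hB | hB
      · exact hne (hanti A hA B hB hAB)
      · rw [hW, mem_filter] at hB
        exact hB.2.2 ⟨A, hA, hAB⟩
    · rw [hW, mem_filter] at hA
      rcases hB with hB | hB
      · exact hne (eq_of_subset_of_card_le hAB (by rw [hA.2.1]; exact hS B hB))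
      · rw [hW, mem_filter] at hB
        exact hne (eq_of_subset_of_card_le hAB (by rw [hA.2.1, hB.2.1]))
  have h1 := Finset.lubell_yamamoto_meshalkin_inequality_sum_inv_choose (𝕜 := ℚ) hA
  rw [sum_union hdisj, Fintype.card_fin] at h1
  have hC : (0 : ℚ) < (n.choose r : ℚ) := by
    exact_mod_cast Nat.choose_pos (by omega)
  have h2 : ∑ s ∈ W, ((n.choose s.card : ℕ) : ℚ)⁻¹ = W.card * ((n.choose r : ℕ) : ℚ)⁻¹ := by
    rw [← nsmul_eq_mul, ← sum_const]
    apply sum_congr rfl
    intro s hs
    rw [hW, mem_filter] at hs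
    rw [hs.2.1]
  have h3 : (S.card : ℚ) * ((n.choose r : ℕ) : ℚ)⁻¹ ≤ ∑ s ∈ S, ((n.choose s.card : ℕ) : ℚ)⁻¹ := by
    rw [← nsmul_eq_mul, ← sum_const]
    apply sum_le_sum
    intro s hs
    have h4 : (n.choose s.card : ℚ) ≤ (n.choose r : ℚ) := by
      have : n.choose s.card ≤ n.choose r := by
        exact choose_mono_half (hS s hs) hn
      exact_mod_cast this
    have h5 : (0 : ℚ) < (n.choose s.card : ℚ) := by
      have := hS s hs
      exact_mod_cast Nat.choose_pos (by omega)
    exact inv_anti₀ h5 h4
  rw [h2] at h1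
  have h6 : (S.card : ℚ) * ((n.choose r : ℕ) : ℚ)⁻¹ + W.card * ((n.choose r : ℕ) : ℚ)⁻¹ ≤ 1 := by
    linarith
  rw [← add_mul, ← div_eq_mul_inv, div_le_one hC] at h6
  have h7 : S.card + W.card ≤ n.choose r := by exact_mod_cast h6
  omega

/-- pushing large members down to level `n - r` -/
theorem push_down {n : ℕ} (r : ℕ) (hn : 2 * r ≤ n) (S : Finset (Finset (Fin n)))
    (hanti : ∀ A ∈ S, ∀ B ∈ S, A ⊆ B → A = B) (hS : ∀ A ∈ S, n - r ≤ A.card) :
    ∃ D : Finset (Finset (Fin n)), (∀ R ∈ D, R.card = n - r ∧ ∃ A ∈ S, R ⊆ A) ∧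
      S.card ≤ D.card := by
  classical
  obtain ⟨U, hU, h1⟩ := push_up r hn (S.image (fun A => Aᶜ)) (by
    intro A hA B hB hAB
    rw [mem_image] at hA hB
    obtain ⟨A', hA', rfl⟩ := hA
    obtain ⟨B', hB', rfl⟩ := hB
    rw [hanti B' hB' A' hA' (compl_subset_compl.1 hAB)]) (by
    intro A hA
    rw [mem_image] at hA
    obtain ⟨A', hA', rfl⟩ := hA
    have := hS A' hA'
    rw [card_compl, Fintype.card_fin]
    omega)
  rw [card_image_of_injective _ compl_injective] at h1
  refine ⟨U.image (fun A => Aᶜ), ?_, ?_⟩
  · intro R hR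
    rw [mem_image] at hR
    obtain ⟨T, hT, rfl⟩ := hR
    obtain ⟨h2, A, hA, h3⟩ := hU T hT
    rw [mem_image] at hA
    obtain ⟨A', hA', rfl⟩ := hA
    refine ⟨by rw [card_compl, Fintype.card_fin, h2], A', hA', ?_⟩
    rw [← compl_subset_compl, compl_compl]
    exact h3
  · rw [card_image_of_injective _ compl_injective]
    exact h1

/-- assembly: replace the part above level `r` by a family `G` -/
theorem assemble {n : ℕ} (r : ℕ) (hn : 2 * r ≤ n) (F G : Finset (Finset (Fin n)))
    (hanti : ∀ A ∈ F, ∀ B ∈ F, A ⊆ B → A = B)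
    (hGF : ∀ X ∈ G, ∃ A ∈ F, r < A.card ∧ X ⊆ A)
    (hcard : (F.filter (fun A => r < A.card)).card ≤ G.card)
    (hinj : ∀ c : Finset (Fin n) → ℚ, (∀ X, X ∉ G → c X = 0) →
      (∀ S : Finset (Fin n), S.card = r → ∑ X with S ⊆ X, c X = 0) → ∀ X, c X = 0) :
    F.card ≤ n.choose r := by
  classical
  obtain ⟨T, hT, h1⟩ := card_le_of_inj r G hinj
  obtain ⟨U, hU, h2⟩ := push_up r hn (F.filter (fun A => A.card ≤ r)) (by
    intro A hA B hB
    rw [mem_filter] at hA hB
    exact hanti A hA.1 B hB.1) (by
    intro A hA
    rw [mem_filter] at hA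
    exact hA.2)
  have h3 : F.card = (F.filter (fun A => A.card ≤ r)).card +
      (F.filter (fun A => r < A.card)).card := by
    rw [← card_filter_add_card_filter_not (fun A => A.card ≤ r)]
    congr 2
    ext A
    simp
  have h4 : U.card + T.card ≤ n.choose r := by
    rw [← card_union_of_disjoint]
    · refine (card_le_card (t := powersetCard r (univ : Finset (Fin n))) ?_).trans ?_
      · intro R hR
        rw [mem_powersetCard]
        rw [mem_union] at hR
        refine ⟨subset_univ _, ?_⟩
        rcases hR with hR | hR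
        · exact (hU R hR).1
        · exact (hT R hR).1
      · rw [card_powersetCard, card_univ, Fintype.card_fin]
    · rw [disjoint_left]
      intro R hR hR2
      obtain ⟨hRr, A, hA, hAR⟩ := hU R hR
      obtain ⟨-, X, hX, hRX⟩ := hT R hR2
      rw [mem_filter] at hA
      obtain ⟨B, hB, hBr, hXB⟩ := hGF X hX
      have := hanti A hA.1 B hB (hAR.trans (hRX.trans hXB))
      rw [this] at hA
      omega
  omega

end Pool.Agent.H173R2.AntiDiam
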