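import Pool.Agent.H173R2.AntiDiamB
set_option autoImplicit false
open Finset

/-! Three-size lemma (`n = 2r+3`) for antichains of bounded diameter. -/

namespace Pool.Agent.H173R2.AntiDiam

/-- `K h B = ∑_{B' ⊇ Bᶜ, |B'| = b} h B'` -/
def K {n : ℕ} (b : ℕ) (h : Finset (Fin n) → ℚ) (B : Finset (Fin n)) : ℚ :=
  ∑ B' : Finset (Fin n) with (B'.card = b ∧ Bᶜ ⊆ B'), h B'

theorem compl_sub_comm {n : ℕ} (A B : Finset (Fin n)) : Aᶜ ⊆ B ↔ Bᶜ ⊆ A := by
  constructor
  · intro h
    rw [← compl_subset_compl, compl_compl] at h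
    exact h
  · intro h
    rw [← compl_subset_compl, compl_compl] at h
    exact h

theorem K_symm {n : ℕ} (b : ℕ) (h k : Finset (Fin n) → ℚ) :
    ∑ B : Finset (Fin n) with B.card = b, h B * K b k B =
    ∑ B : Finset (Fin n) with B.card = b, K b h B * k B := by
  classical
  unfold K
  simp_rw [mul_sum, sum_mul]
  rw [sum_comm' (t' := (univ : Finset (Finset (Fin n))).filter (fun B => B.card = b))
    (s' := fun B => (univ : Finset (Finset (Fin n))).filter (fun B' => B'.card = b ∧ Bᶜ ⊆ B'))]
  intro B B'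
  simp only [mem_filter, mem_univ, true_and]
  rw [compl_sub_comm B B']
  tauto

theorem sqsum {α β : Type*} (S : Finset α) (L : Finset β) (ρ : α → β → Prop)
    [∀ a b, Decidable (ρ a b)] (h : β → ℚ) :
    ∑ B ∈ S, (∑ B1 ∈ L with ρ B B1, h B1) * (∑ B1 ∈ L with ρ B B1, h B1) =
      ∑ B1 ∈ L, ∑ B2 ∈ L, h B1 * h B2 * ((S.filter (fun B => ρ B B1 ∧ ρ B B2)).card : ℚ) := by
  simp_rw [sum_filter, sum_mul_sum]
  rw [sum_comm]
  apply sum_congr rfl
  intro B1 _
  rw [sum_comm]
  apply sum_congr rfl
  intro B2 _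
  have h1 : ∀ B ∈ S, (if ρ B B1 then h B1 else 0) * (if ρ B B2 then h B2 else 0) =
      if (ρ B B1 ∧ ρ B B2) then h B1 * h B2 else 0 := by
    intro B _
    by_cases h1 : ρ B B1 <;> by_cases h2 : ρ B B2 <;> simp [h1, h2]
  rw [sum_congr rfl h1, ← sum_filter, sum_const, nsmul_eq_mul]
  ring

theorem count_low {n r : ℕ} (hn : n = 2 * r + 3) (B1 B2 : Finset (Fin n)) :
    (((univ : Finset (Finset (Fin n))).filter (fun B => B.card = r + 2)).filter
      (fun B => Bᶜ ⊆ B1 ∧ Bᶜ ⊆ B2)).card = (B1 ∩ B2).card.choose (r + 1) := by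
  classical
  rw [← card_powersetCard]
  refine card_bij' (fun B _ => Bᶜ) (fun B _ => Bᶜ) ?_ ?_ ?_ ?_
  · intro B hB
    simp only [mem_filter, mem_univ, true_and] at hB
    rw [mem_powersetCard]
    refine ⟨subset_inter hB.2.1 hB.2.2, ?_⟩
    rw [card_compl, Fintype.card_fin, hB.1]
    omega
  · intro X hX
    rw [mem_powersetCard] at hX
    simp only [mem_filter, mem_univ, true_and, compl_compl]
    refine ⟨?_, hX.1.trans inter_subset_left, hX.1.trans inter_subset_right⟩
    rw [card_compl, Fintype.card_fin, hX.2]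
    omega
  · intro B _
    exact compl_compl B
  · intro B _
    exact compl_compl B

theorem count_high {n r : ℕ} (B1 B2 : Finset (Fin n)) :
    (((univ : Finset (Finset (Fin n))).filter (fun B => B.card = r + 3)).filter
      (fun B => B1 ⊆ B ∧ B2 ⊆ B)).card =
      if (B1 ∪ B2).card ≤ r + 3 then
        (n - (B1 ∪ B2).card).choose (r + 3 - (B1 ∪ B2).card) else 0 := by
  classical
  split_ifs with h
  · have := card_between (B1 ∪ B2) (univ : Finset (Fin n)) (r + 3) (subset_univ _) h
    rw [card_univ, Fintype.card_fin] at this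
    rw [← this, filter_filter]
    congr 1
    ext X
    simp only [mem_filter, mem_univ, true_and, subset_univ, and_true, union_subset_iff]
  · rw [card_eq_zero, filter_eq_empty_iff]
    intro B hB h2
    rw [mem_filter] at hB
    apply h
    rw [← hB.2]
    exact card_le_card (union_subset h2.1 h2.2)

theorem count_id {n r : ℕ} (hn : n = 2 * r + 3) (B1 B2 : Finset (Fin n))
    (h1 : B1.card = r + 2) (h2 : B2.card = r + 2) :
    (B1 ∩ B2).card.choose (r + 1) = (if (B1 ∪ B2).card ≤ r + 3 then
        (n - (B1 ∪ B2).card).choose (r + 3 - (B1 ∪ B2).card) else 0) +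
      (if B1 = B2 then 1 else 0) := by
  classical
  have hc := card_union_add_card_inter B1 B2
  by_cases he : B1 = B2
  · subst he
    rw [union_self, inter_self, h1, if_pos (by omega), if_pos rfl]
    have e1 : r + 3 - (r + 2) = 1 := by omega
    rw [e1, Nat.choose_one_right, Nat.choose_succ_self_right]
    omega
  · rw [if_neg he]
    have hlt : (B1 ∩ B2).card < r + 2 := by
      by_contra hcon
      push Not at hcon
      have e1 : B1 ∩ B2 = B1 := eq_of_subset_of_card_le inter_subset_left (by omega)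
      have e2 : B1 ∩ B2 = B2 := eq_of_subset_of_card_le inter_subset_right (by omega)
      exact he (e1.symm.trans e2)
    by_cases hi : (B1 ∩ B2).card = r + 1
    · have hu : (B1 ∪ B2).card = r + 3 := by omega
      rw [hi, hu, if_pos le_rfl]
      simp
    · have hu : ¬ (B1 ∪ B2).card ≤ r + 3 := by omega
      rw [if_neg hu, Nat.choose_eq_zero_of_lt (by omega)]

theorem psd {n r : ℕ} (hn : n = 2 * r + 3) (h : Finset (Fin n) → ℚ) :
    ∑ B : Finset (Fin n) with B.card = r + 2, h B * h B ≤
      ∑ B : Finset (Fin n) with B.card = r + 2, K (r + 2) h B * K (r + 2) h B := by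
  classical
  have e1 : ∑ B : Finset (Fin n) with B.card = r + 2, K (r + 2) h B * K (r + 2) h B =
      ∑ B : Finset (Fin n) with B.card = r + 2,
        (∑ B1 ∈ (univ : Finset (Finset (Fin n))).filter (fun B => B.card = r + 2)
          with Bᶜ ⊆ B1, h B1) *
        (∑ B1 ∈ (univ : Finset (Finset (Fin n))).filter (fun B => B.card = r + 2)
          with Bᶜ ⊆ B1, h B1) := by
    unfold K
    simp_rw [filter_filter]
  have e2 := sqsum ((univ : Finset (Finset (Fin n))).filter (fun B => B.card = r + 2))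
    ((univ : Finset (Finset (Fin n))).filter (fun B => B.card = r + 2))
    (fun B B1 => Bᶜ ⊆ B1) h
  have e3 := sqsum ((univ : Finset (Finset (Fin n))).filter (fun B => B.card = r + 3))
    ((univ : Finset (Finset (Fin n))).filter (fun B => B.card = r + 2))
    (fun B B1 => B1 ⊆ B) h
  have e4 : ∑ B1 ∈ (univ : Finset (Finset (Fin n))).filter (fun B => B.card = r + 2),
      ∑ B2 ∈ (univ : Finset (Finset (Fin n))).filter (fun B => B.card = r + 2),
        h B1 * h B2 * ((((univ : Finset (Finset (Fin n))).filter (fun B => B.card = r + 2)).filter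
          (fun B => Bᶜ ⊆ B1 ∧ Bᶜ ⊆ B2)).card : ℚ) =
      ∑ B1 ∈ (univ : Finset (Finset (Fin n))).filter (fun B => B.card = r + 2),
      ∑ B2 ∈ (univ : Finset (Finset (Fin n))).filter (fun B => B.card = r + 2),
        h B1 * h B2 * ((((univ : Finset (Finset (Fin n))).filter (fun B => B.card = r + 3)).filter
          (fun B => B1 ⊆ B ∧ B2 ⊆ B)).card : ℚ) +
      ∑ B : Finset (Fin n) with B.card = r + 2, h B * h B := by
    rw [← sum_add_distrib]
    apply sum_congr rfl
    intro B1 hB1
    have e5 : h B1 * h B1 = ∑ B2 ∈ (univ : Finset (Finset (Fin n))).filter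
        (fun B => B.card = r + 2), if B1 = B2 then h B1 * h B2 else 0 := by
      rw [sum_ite_eq, if_pos hB1]
    rw [e5, ← sum_add_distrib]
    apply sum_congr rfl
    intro B2 hB2
    rw [mem_filter] at hB1 hB2
    rw [count_low hn, count_high, count_id hn B1 B2 hB1.2 hB2.2, Nat.cast_add, mul_add]
    congr 1
    by_cases he : B1 = B2
    · simp [he]
    · simp [he]
  rw [e1, e2, e4, ← e3]
  have : 0 ≤ ∑ B ∈ (univ : Finset (Finset (Fin n))).filter (fun B => B.card = r + 3),
      (∑ B1 ∈ (univ : Finset (Finset (Fin n))).filter (fun B => B.card = r + 2)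
        with B1 ⊆ B, h B1) *
      (∑ B1 ∈ (univ : Finset (Finset (Fin n))).filter (fun B => B.card = r + 2)
        with B1 ⊆ B, h B1) := sum_nonneg (fun B _ => mul_self_nonneg _)
  linarith

theorem P_top (r : ℕ) : P r (r + 1) = (-1) ^ r := by
  unfold P
  have h3 : ∑ j ∈ range (r + 1 + 1), (-1 : ℚ) ^ j * ((r + 1).choose j : ℚ) = 0 := by
    have := Int.alternating_sum_range_choose_of_ne (n := r + 1) (by omega)
    have h4 : ((∑ m ∈ range (r + 1 + 1), ((-1) ^ m * (r + 1).choose m : ℤ) : ℤ) : ℚ) = 0 := by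
      rw [this]; simp
    push_cast at h4
    exact h4
  rw [sum_range_succ] at h3
  rw [Nat.choose_self] at h3
  have : ∑ j ∈ range (r + 1), (-1 : ℚ) ^ j * ((r + 1).choose j : ℚ) = - (-1) ^ (r + 1) := by
    push_cast at h3
    linarith
  rw [this, pow_succ]
  ring

end Pool.Agent.H173R2.AntiDiam
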