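import Pool.Agent.H173R2.AntiDiamC
set_option autoImplicit false
open Finset

/-! Three-size lemma (`n = 2r+3`) for antichains of bounded diameter. -/

namespace Pool.Agent.H173R2.AntiDiam

theorem K_add {n : ℕ} (b : ℕ) (h k : Finset (Fin n) → ℚ) (q : ℚ) (B : Finset (Fin n)) :
    K b (fun X => h X + q * k X) B = K b h B + q * K b k B := by
  unfold K
  rw [sum_add_distrib, mul_sum]

/-- sum over `(r+1)`-sets inside `B` of `K h Xᶜ` -/
theorem sum_K_compl {n r : ℕ} (hn : n = 2 * r + 3) (φ : Finset (Fin n) → ℚ) (B : Finset (Fin n)) :
    ∑ X : Finset (Fin n) with (X.card = r + 1 ∧ X ⊆ B), φ Xᶜ = K (r + 2) φ B := by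
  classical
  unfold K
  refine sum_nbij' (fun X => Xᶜ) (fun X => Xᶜ) ?_ ?_ ?_ ?_ ?_
  · intro X hX
    simp only [mem_filter, mem_univ, true_and] at hX ⊢
    refine ⟨?_, compl_subset_compl.2 hX.2⟩
    rw [card_compl, Fintype.card_fin, hX.1]; omega
  · intro X hX
    simp only [mem_filter, mem_univ, true_and] at hX ⊢
    refine ⟨?_, (compl_sub_comm _ _).1 hX.2⟩
    rw [card_compl, Fintype.card_fin, hX.1]; omega
  · intro X _
    exact compl_compl X
  · intro X _
    exact compl_compl X
  · intro X _
    rfl

theorem sum_compl_level {n r : ℕ} (hn : n = 2 * r + 3) (φ : Finset (Fin n) → ℚ) :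
    ∑ X : Finset (Fin n) with (X.card = r + 1), φ Xᶜ =
      ∑ B : Finset (Fin n) with (B.card = r + 2), φ B := by
  classical
  refine sum_nbij' (fun X => Xᶜ) (fun X => Xᶜ) ?_ ?_ ?_ ?_ ?_
  · intro X hX
    simp only [mem_filter, mem_univ, true_and] at hX ⊢
    rw [card_compl, Fintype.card_fin, hX]; omega
  · intro X hX
    simp only [mem_filter, mem_univ, true_and] at hX ⊢
    rw [card_compl, Fintype.card_fin, hX]; omega
  · intro X _
    exact compl_compl X
  · intro X _
    exact compl_compl X
  · intro X _
    rfl

/-- members at the three sizes `r+1, r+2, r+3` on `2r+3` points -/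
theorem three_size {n r : ℕ} (hn : n = 2 * r + 3) (G : Finset (Finset (Fin n)))
    (hanti : ∀ A ∈ G, ∀ B ∈ G, A ⊆ B → A = B)
    (hmd : ∀ A ∈ G, ∀ B ∈ G, A.card ≤ B.card → (A \ B).card ≤ r)
    (hsz : ∀ A ∈ G, A.card = r + 1 ∨ A.card = r + 2 ∨ A.card = r + 3)
    (c : Finset (Fin n) → ℚ) (hcG : ∀ X, X ∉ G → c X = 0)
    (h0 : ∀ S : Finset (Fin n), S.card = r → ∑ X with S ⊆ X, c X = 0) : ∀ X, c X = 0 := by
  classical
  set f : Finset (Fin n) → ℚ := fun X => if X.card = r + 2 then c X else 0 with hf
  set v : Finset (Fin n) → ℚ := fun B =>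
    ∑ D : Finset (Fin n) with (D.card = r + 3 ∧ B ⊆ D), c D with hv
  set w : Finset (Fin n) → ℚ := fun B => f B + (1 / 3) * v B with hw
  set ε : ℚ := (-1) ^ r with hε
  have hεε : ε * ε = 1 := by
    rw [hε, ← pow_add, ← two_mul, pow_mul]
    norm_num
  set g : Finset (Fin n) → ℚ := fun X => if X.card = r + 1 then
    c X + (1 / 2) * K (r + 2) w Xᶜ else 0 with hg
  have hga : ∀ X, X.card ≠ r + 1 → g X = 0 := by
    intro X hX
    simp [hg, hX]
  -- sums of c split
  have hsplit : ∀ S : Finset (Fin n), ∑ X : Finset (Fin n) with S ⊆ X, c X =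
      ∑ X : Finset (Fin n) with (X.card = r + 1 ∧ S ⊆ X), c X +
      ∑ X : Finset (Fin n) with (X.card = r + 2 ∧ S ⊆ X), c X +
      ∑ X : Finset (Fin n) with (X.card = r + 3 ∧ S ⊆ X), c X := by
    intro S
    rw [← sum_union, ← sum_union]
    · symm
      apply sum_subset
      · intro X hX
        simp only [mem_union, mem_filter, mem_univ, true_and] at hX ⊢
        tauto
      · intro X hX hX2
        apply hcG
        intro hXG
        apply hX2
        simp only [mem_union, mem_filter, mem_univ, true_and] at hX ⊢
        rcases hsz X hXG with h | h | h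
        · exact Or.inl (Or.inl ⟨h, hX⟩)
        · exact Or.inl (Or.inr ⟨h, hX⟩)
        · exact Or.inr ⟨h, hX⟩
    · rw [disjoint_left]
      intro X hX hX2
      simp only [mem_union, mem_filter, mem_univ, true_and] at hX hX2
      omega
    · rw [disjoint_left]
      intro X hX hX2
      simp only [mem_filter, mem_univ, true_and] at hX hX2
      omega
  have hg0 : ∀ S : Finset (Fin n), S.card = r → ∑ X with S ⊆ X, g X = 0 := by
    intro S hS
    have e1 : ∑ X : Finset (Fin n) with S ⊆ X, g X =
        ∑ X : Finset (Fin n) with (X.card = r + 1 ∧ S ⊆ X),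
          (c X + (1 / 2) * ∑ B : Finset (Fin n) with (B.card = r + 2 ∧ X ⊆ B), w B) := by
      symm
      have e2 : ∀ X ∈ (univ : Finset (Finset (Fin n))).filter (fun X => X.card = r + 1 ∧ S ⊆ X),
          (c X + (1 / 2) * ∑ B : Finset (Fin n) with (B.card = r + 2 ∧ X ⊆ B), w B) = g X := by
        intro X hX
        rw [mem_filter] at hX
        simp only [hg, if_pos hX.2.1, K, compl_compl]
      rw [sum_congr rfl e2]
      apply sum_subset
      · intro X hX
        simp only [mem_filter, mem_univ, true_and] at hX ⊢
        exact hX.2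
      · intro X hX hX2
        apply hga
        intro hXa
        apply hX2
        simp only [mem_filter, mem_univ, true_and] at hX ⊢
        exact ⟨hXa, hX⟩
    have e3 : ∑ B : Finset (Fin n) with (B.card = r + 2 ∧ S ⊆ B), w B =
        ∑ X : Finset (Fin n) with (X.card = r + 2 ∧ S ⊆ X), c X +
        ∑ X : Finset (Fin n) with (X.card = r + 3 ∧ S ⊆ X), c X := by
      have e4 := updown S (r + 2) (r + 3) (by omega) c
      have e5 : ((r + 3 - S.card).choose (r + 2 - S.card) : ℚ) = 3 := by
        have t1 : r + 3 - S.card = 3 := by omega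
        have t2 : r + 2 - S.card = 2 := by omega
        rw [t1, t2]
        norm_num [Nat.choose]
      rw [e5] at e4
      simp only [hw]
      rw [sum_add_distrib, ← mul_sum]
      simp only [hv]
      rw [e4]
      have e6 : ∑ x : Finset (Fin n) with (x.card = r + 2 ∧ S ⊆ x), f x =
          ∑ X : Finset (Fin n) with (X.card = r + 2 ∧ S ⊆ X), c X := by
        apply sum_congr rfl
        intro X hX
        rw [mem_filter] at hX
        simp only [hf, if_pos hX.2.1]
      rw [e6]
      ring
    have e7 := updown S (r + 1) (r + 2) (by omega) w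
    have e8 : ((r + 2 - S.card).choose (r + 1 - S.card) : ℚ) = 2 := by
      have t1 : r + 2 - S.card = 2 := by omega
      have t2 : r + 1 - S.card = 1 := by omega
      rw [t1, t2]
      norm_num [Nat.choose]
    rw [e8] at e7
    rw [e1, sum_add_distrib, ← mul_sum, e7, e3]
    have := h0 S hS
    rw [hsplit S] at this
    linarith
  -- (★) for sets of size r+2
  have star : ∀ B : Finset (Fin n), B.card = r + 2 →
      ∑ X : Finset (Fin n) with X ⊆ B, g X + ε * g Bᶜ = 0 := by
    intro B hB
    have h1 := key r (r + 1) (by omega) g hga hg0 B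
    have h2 : ∀ X : Finset (Fin n), g X * P r (X \ B).card =
        (if X ⊆ B then g X else 0) + (if X = Bᶜ then ε * g X else 0) := by
      intro X
      by_cases hXa : X.card = r + 1
      · by_cases hXB : X ⊆ B
        · have hne : X ≠ Bᶜ := by
            rintro rfl
            have hdis : Bᶜ = ∅ := by
              rw [← disjoint_self_iff_empty]
              exact disjoint_of_subset_left hXB disjoint_compl_right
            rw [hdis, card_empty] at hXa
            omega
          rw [if_pos hXB, if_neg hne, sdiff_eq_empty_iff_subset.2 hXB, card_empty, P_zero]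
          ring
        · rw [if_neg hXB]
          by_cases hX2 : (X \ B).card ≤ r
          · have hne : X ≠ Bᶜ := by
              rintro rfl
              have : Bᶜ \ B = Bᶜ := by
                rw [Finset.sdiff_eq_self_iff_disjoint]
                exact disjoint_compl_left
              rw [this] at hX2
              omega
            rw [if_neg hne, P_pos r _ _ hX2]
            · ring
            · rw [Nat.one_le_iff_ne_zero, Ne, card_eq_zero, sdiff_eq_empty_iff_subset]
              exact hXB
          · have hle : (X \ B).card ≤ X.card := card_le_card sdiff_subset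
            have heq : X \ B = X := eq_of_subset_of_card_le sdiff_subset (by omega)
            have hsub : X ⊆ Bᶜ := by
              rw [← heq]
              intro x hx
              rw [mem_compl]
              exact (mem_sdiff.1 hx).2
            have heq2 : X = Bᶜ := by
              apply eq_of_subset_of_card_le hsub
              rw [card_compl, Fintype.card_fin]
              omega
            rw [if_pos heq2, heq, hXa, P_top]
            ring
      · rw [hga X hXa]
        simp
    simp_rw [h2] at h1
    rw [sum_add_distrib, sum_ite_eq', if_pos (mem_univ _), ← sum_filter] at h1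
    exact h1
  -- (★) for sets of size r+3
  have star3 : ∀ D : Finset (Fin n), D.card = r + 3 →
      ∑ X : Finset (Fin n) with X ⊆ D, g X = 0 := by
    intro D hD
    have h1 := key r (r + 1) (by omega) g hga hg0 D
    have h2 : ∀ X : Finset (Fin n), g X * P r (X \ D).card = if X ⊆ D then g X else 0 := by
      intro X
      by_cases hXB : X ⊆ D
      · rw [if_pos hXB, sdiff_eq_empty_iff_subset.2 hXB, card_empty, P_zero]
        ring
      · rw [if_neg hXB, P_pos r _, mul_zero]
        · rw [Nat.one_le_iff_ne_zero, Ne, card_eq_zero, sdiff_eq_empty_iff_subset]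
          exact hXB
        · have h3 : X \ D ⊆ Dᶜ := by
            intro x hx
            rw [mem_compl]
            exact (mem_sdiff.1 hx).2
          have h4 := card_le_card h3
          rw [card_compl, Fintype.card_fin] at h4
          omega
    simp_rw [h2] at h1
    rw [← sum_filter] at h1
    exact h1
  -- sums of g inside a member
  have inside : ∀ B ∈ G, r + 2 ≤ B.card →
      ∑ X : Finset (Fin n) with X ⊆ B, g X = (1 / 2) * K (r + 2) (K (r + 2) w) B := by
    intro B hB hBc
    rw [← sum_K_compl hn (K (r + 2) w) B, mul_sum]
    symm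
    have e2 : ∀ X ∈ (univ : Finset (Finset (Fin n))).filter (fun X => X.card = r + 1 ∧ X ⊆ B),
        (1 / 2) * K (r + 2) w Xᶜ = g X := by
      intro X hX
      rw [mem_filter] at hX
      have hc0 : c X = 0 := by
        apply hcG
        intro hXG
        have := hanti X hXG B hB hX.2.2
        rw [this] at hX
        omega
      simp only [hg, if_pos hX.2.1, hc0, zero_add]
    rw [sum_congr rfl e2]
    apply sum_subset
    · intro X hX
      simp only [mem_filter, mem_univ, true_and] at hX ⊢
      exact hX.2
    · intro X hX hX2
      apply hga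
      intro hXa
      apply hX2
      simp only [mem_filter, mem_univ, true_and] at hX ⊢
      exact ⟨hXa, hX⟩
  have hi : ∀ B ∈ G, B.card = r + 2 →
      K (r + 2) (K (r + 2) w) B + ε * K (r + 2) w B = 0 := by
    intro B hB hBc
    have h1 := star B hBc
    rw [inside B hB (by omega)] at h1
    have hBcc : Bᶜ.card = r + 1 := by
      rw [card_compl, Fintype.card_fin]; omega
    have hc0 : c Bᶜ = 0 := by
      apply hcG
      intro hBG
      have h2 := hmd Bᶜ hBG B hB (by omega)
      have h3 : Bᶜ \ B = Bᶜ := by
        rw [Finset.sdiff_eq_self_iff_disjoint]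
        exact disjoint_compl_left
      rw [h3] at h2
      omega
    have h4 : g Bᶜ = (1 / 2) * K (r + 2) w B := by
      simp only [hg, if_pos hBcc, hc0, compl_compl, zero_add]
    rw [h4] at h1
    linarith
  have hii : ∀ D ∈ G, D.card = r + 3 → K (r + 2) (K (r + 2) w) D = 0 := by
    intro D hD hDc
    have h1 := star3 D hDc
    rw [inside D hD (by omega)] at h1
    linarith
  -- identity (1)
  have id1 : ∑ B : Finset (Fin n) with B.card = r + 2, K (r + 2) f B * K (r + 2) w B +
      ε * ∑ B : Finset (Fin n) with B.card = r + 2, f B * K (r + 2) w B = 0 := by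
    rw [← K_symm, mul_sum, ← sum_add_distrib]
    apply sum_eq_zero
    intro B hB
    rw [mem_filter] at hB
    by_cases hBG : B ∈ G
    · have := hi B hBG hB.2
      calc f B * K (r + 2) (K (r + 2) w) B + ε * (f B * K (r + 2) w B)
          = f B * (K (r + 2) (K (r + 2) w) B + ε * K (r + 2) w B) := by ring
        _ = 0 := by rw [this, mul_zero]
    · have : f B = 0 := by simp only [hf, hcG B hBG]; simp
      rw [this]; ring
  -- identity (2)
  have hKv : ∀ X : Finset (Fin n), X.card = r + 1 → K (r + 2) v Xᶜ =
      2 * ∑ D : Finset (Fin n) with (D.card = r + 3 ∧ X ⊆ D), c D := by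
    intro X hX
    have e4 := updown X (r + 2) (r + 3) (by omega) c
    have e5 : ((r + 3 - X.card).choose (r + 2 - X.card) : ℚ) = 2 := by
      have t1 : r + 3 - X.card = 2 := by omega
      have t2 : r + 2 - X.card = 1 := by omega
      rw [t1, t2]
      norm_num [Nat.choose]
    rw [e5] at e4
    rw [← e4]
    simp only [K, compl_compl, hv]
  have id2 : ∑ B : Finset (Fin n) with B.card = r + 2, K (r + 2) v B * K (r + 2) w B = 0 := by
    rw [← sum_compl_level hn (fun B => K (r + 2) v B * K (r + 2) w B)]
    have e1 : ∑ X : Finset (Fin n) with X.card = r + 1, K (r + 2) v Xᶜ * K (r + 2) w Xᶜ =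
        ∑ D : Finset (Fin n) with D.card = r + 3, 2 * c D * K (r + 2) (K (r + 2) w) D := by
      have e2 : ∀ X ∈ (univ : Finset (Finset (Fin n))).filter (fun X => X.card = r + 1),
          K (r + 2) v Xᶜ * K (r + 2) w Xᶜ =
          ∑ D : Finset (Fin n) with (D.card = r + 3 ∧ X ⊆ D), 2 * c D * K (r + 2) w Xᶜ := by
        intro X hX
        rw [mem_filter] at hX
        rw [hKv X hX.2, mul_sum, sum_mul]
      rw [sum_congr rfl e2]
      have e3 : ∀ D ∈ (univ : Finset (Finset (Fin n))).filter (fun D => D.card = r + 3),
          2 * c D * K (r + 2) (K (r + 2) w) D =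
          ∑ X : Finset (Fin n) with (X.card = r + 1 ∧ X ⊆ D), 2 * c D * K (r + 2) w Xᶜ := by
        intro D hD
        rw [← sum_K_compl hn (K (r + 2) w) D, mul_sum]
      rw [sum_congr rfl e3]
      rw [sum_comm' (t' := (univ : Finset (Finset (Fin n))).filter (fun D => D.card = r + 3))
        (s' := fun D => (univ : Finset (Finset (Fin n))).filter
          (fun X => X.card = r + 1 ∧ X ⊆ D))]
      intro X D
      simp only [mem_filter, mem_univ, true_and]
      tauto
    rw [e1]
    apply sum_eq_zero
    intro D hD
    rw [mem_filter] at hD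
    by_cases hDG : D ∈ G
    · rw [hii D hDG hD.2, mul_zero]
    · rw [hcG D hDG]; ring
  -- identity (3)
  have id3 : ∑ B : Finset (Fin n) with B.card = r + 2, f B * v B = 0 := by
    apply sum_eq_zero
    intro B hB
    rw [mem_filter] at hB
    by_cases hBG : B ∈ G
    · have : v B = 0 := by
        simp only [hv]
        apply sum_eq_zero
        intro D hD
        rw [mem_filter] at hD
        apply hcG
        intro hDG
        have := hanti B hBG D hDG hD.2.2
        rw [this] at hB
        omega
      rw [this, mul_zero]
    · have : f B = 0 := by simp only [hf, hcG B hBG]; simp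
      rw [this, zero_mul]
  -- expand K w
  have hKw : ∀ B, K (r + 2) w B = K (r + 2) f B + (1 / 3) * K (r + 2) v B := by
    intro B
    exact K_add (r + 2) f v (1 / 3) B
  have hpsd := psd hn w
  have total : ∑ B : Finset (Fin n) with B.card = r + 2,
      ((ε * K (r + 2) w B + f B) * (ε * K (r + 2) w B + f B) + (1 / 9) * (v B * v B)) ≤ 0 := by
    have e1 : ∑ B : Finset (Fin n) with B.card = r + 2,
        ((ε * K (r + 2) w B + f B) * (ε * K (r + 2) w B + f B) + (1 / 9) * (v B * v B)) =
        ∑ B : Finset (Fin n) with B.card = r + 2, w B * w B -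
        ∑ B : Finset (Fin n) with B.card = r + 2, K (r + 2) w B * K (r + 2) w B +
        2 * (∑ B : Finset (Fin n) with B.card = r + 2, K (r + 2) f B * K (r + 2) w B +
          ε * ∑ B : Finset (Fin n) with B.card = r + 2, f B * K (r + 2) w B) +
        (2 / 3) * ∑ B : Finset (Fin n) with B.card = r + 2, K (r + 2) v B * K (r + 2) w B -
        (2 / 3) * ∑ B : Finset (Fin n) with B.card = r + 2, f B * v B := by
      simp only [mul_add, mul_sum]
      rw [← sum_sub_distrib, ← sum_add_distrib, ← sum_add_distrib, ← sum_add_distrib,
        ← sum_sub_distrib]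
      apply sum_congr rfl
      intro B _
      have hwB : w B = f B + (1 / 3) * v B := rfl
      have h1 := hKw B
      have h2 : K (r + 2) f B = K (r + 2) w B - (1 / 3) * K (r + 2) v B := by linarith
      rw [h2, hwB]
      linear_combination (K (r + 2) w B * K (r + 2) w B) * hεε
    rw [e1, id1, id2, id3]
    linarith
  have hzero : ∀ B : Finset (Fin n), B.card = r + 2 →
      (ε * K (r + 2) w B + f B = 0 ∧ v B = 0) := by
    intro B hB
    have h1 : ∑ B : Finset (Fin n) with B.card = r + 2,
        ((ε * K (r + 2) w B + f B) * (ε * K (r + 2) w B + f B) + (1 / 9) * (v B * v B)) = 0 := by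
      apply le_antisymm total
      apply sum_nonneg
      intro B _
      have := mul_self_nonneg (ε * K (r + 2) w B + f B)
      have := mul_self_nonneg (v B)
      linarith
    have h2 := (sum_eq_zero_iff_of_nonneg (by
      intro B _
      have := mul_self_nonneg (ε * K (r + 2) w B + f B)
      have := mul_self_nonneg (v B)
      linarith)).1 h1 B (by simp [hB])
    have h3 := mul_self_nonneg (ε * K (r + 2) w B + f B)
    have h4 := mul_self_nonneg (v B)
    constructor
    · apply mul_self_eq_zero.1
      linarith
    · apply mul_self_eq_zero.1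
      linarith
  have hf0 : ∀ B : Finset (Fin n), B.card = r + 2 → f B = 0 := by
    intro B hB
    by_cases hBG : B ∈ G
    · have h1 := (hzero B hB).1
      have h2 : K (r + 2) w B = 0 := by
        unfold K
        apply sum_eq_zero
        intro B' hB'
        rw [mem_filter] at hB'
        have hvB' := (hzero B' hB'.2.1).2
        have hfB' : f B' = 0 := by
          by_cases hB'G : B' ∈ G
          · exfalso
            have h3 := hmd B' hB'G B hBG (by omega)
            have h4 : Bᶜ ⊆ B' \ B := by
              intro x hx
              rw [mem_sdiff]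
              exact ⟨hB'.2.2 hx, mem_compl.1 hx⟩
            have h5 := card_le_card h4
            rw [card_compl, Fintype.card_fin] at h5
            omega
          · simp only [hf, hcG B' hB'G]; simp
        simp only [hw, hfB', hvB']
        ring
      rw [h2] at h1
      linarith
    · simp only [hf, hcG B hBG]; simp
  have hw0 : ∀ B : Finset (Fin n), B.card = r + 2 → w B = 0 := by
    intro B hB
    simp only [hw, hf0 B hB, (hzero B hB).2]
    ring
  have hgc : ∀ X : Finset (Fin n), X.card = r + 1 → g X = c X := by
    intro X hX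
    have h1 : K (r + 2) w Xᶜ = 0 := by
      unfold K
      apply sum_eq_zero
      intro B hB
      rw [mem_filter] at hB
      exact hw0 B hB.2.1
    simp only [hg, if_pos hX, h1]
    ring
  have hg00 : ∀ X, g X = 0 := by
    apply uniform r (r + 1) (by omega) G _ g hga _ hg0
    · intro A hA B hB h1 h2
      exact hmd A hA B hB (by omega)
    · intro X hX
      by_cases hXa : X.card = r + 1
      · rw [hgc X hXa, hcG X hX]
      · exact hga X hXa
  apply uniform r (r + 3) (by omega) G _ c _ hcG h0
  · intro A hA B hB h1 h2
    exact hmd A hA B hB (by omega)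
  · intro X hX
    by_cases hXG : X ∈ G
    · rcases hsz X hXG with h | h | h
      · rw [← hgc X h]
        exact hg00 X
      · have := hf0 X h
        simpa only [hf, if_pos h] using this
      · exact absurd h hX
    · exact hcG X hXG

end Pool.Agent.H173R2.AntiDiam
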