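import Pool.Agent.H173R2.AntiDiamD
set_option autoImplicit false
open Finset

/-! Final assembly for antichains of bounded diameter. -/

namespace Pool.Agent.H173R2.AntiDiam

theorem card_sdiff_flip {n : ℕ} (A B : Finset (Fin n)) :
    (A \ B).card + B.card = (B \ A).card + A.card := by
  have h1 := card_sdiff_add_card A B
  have h2 := card_sdiff_add_card B A
  rw [union_comm] at h2
  omega

theorem md_of_min {n : ℕ} (r : ℕ) (F : Finset (Finset (Fin n)))
    (hmd : ∀ A ∈ F, ∀ B ∈ F, min (A \ B).card (B \ A).card ≤ r) :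
    ∀ A ∈ F, ∀ B ∈ F, A.card ≤ B.card → (A \ B).card ≤ r := by
  intro A hA B hB hAB
  have h1 := hmd A hA B hB
  have h2 := card_sdiff_flip A B
  omega

theorem min_of_diam {n : ℕ} (k : ℕ) (A B : Finset (Fin n))
    (h : (symmDiff A B).card ≤ n - k ∨ min (A \ B).card (B \ A).card ≤ (n - k) / 2) :
    min (A \ B).card (B \ A).card ≤ (n - k) / 2 := by
  rcases h with h | h
  · have h1 : (symmDiff A B).card = (A \ B).card + (B \ A).card := by
      rw [symmDiff_def, sup_eq_union, card_union_of_disjoint]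
      rw [disjoint_left]
      intro x hx hx2
      rw [mem_sdiff] at hx hx2
      exact hx.2 hx2.1
    omega
  · exact h

theorem choose_flip (n k : ℕ) (hkn : k ≤ n) :
    n.choose ((n + k + 1) / 2) = n.choose ((n - k) / 2) := by
  apply Nat.choose_symm_of_eq_add
  omega

/-- the family obtained by pushing the members of size at least `n - r` down to level `n - r` -/
theorem pushed {n : ℕ} (r : ℕ) (hn : 2 * r + 1 ≤ n) (F : Finset (Finset (Fin n)))
    (hanti : ∀ A ∈ F, ∀ B ∈ F, A ⊆ B → A = B)
    (hmd : ∀ A ∈ F, ∀ B ∈ F, A.card ≤ B.card → (A \ B).card ≤ r) :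
    ∃ G : Finset (Finset (Fin n)), (∀ X ∈ G, ∃ A ∈ F, r < A.card ∧ X ⊆ A) ∧
      (F.filter (fun A => r < A.card)).card ≤ G.card ∧
      (∀ A ∈ G, ∀ B ∈ G, A ⊆ B → A = B) ∧
      (∀ A ∈ G, ∀ B ∈ G, A.card ≤ B.card → (A \ B).card ≤ r) ∧
      (∀ X ∈ G, (X ∈ F ∧ r < X.card ∧ X.card < n - r) ∨ X.card = n - r) := by
  classical
  obtain ⟨D, hD, hDc⟩ := push_down r (by omega) (F.filter (fun A => n - r ≤ A.card)) (by
    intro A hA B hB
    rw [mem_filter] at hA hB
    exact hanti A hA.1 B hB.1) (by
    intro A hA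
    rw [mem_filter] at hA
    exact hA.2)
  have hDF : ∀ X ∈ D, X.card = n - r ∧ ∃ A ∈ F, n - r ≤ A.card ∧ X ⊆ A := by
    intro X hX
    obtain ⟨h1, A, hA, h2⟩ := hD X hX
    rw [mem_filter] at hA
    exact ⟨h1, A, hA.1, hA.2, h2⟩
  have hM : ∀ X, X ∈ F.filter (fun A => r < A.card ∧ A.card < n - r) ↔
      (X ∈ F ∧ r < X.card ∧ X.card < n - r) := by
    intro X
    rw [mem_filter]
  refine ⟨F.filter (fun A => r < A.card ∧ A.card < n - r) ∪ D, ?_, ?_, ?_, ?_, ?_⟩
  · intro X hX
    rw [mem_union, hM] at hX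
    rcases hX with hX | hX
    · exact ⟨X, hX.1, hX.2.1, subset_rfl⟩
    · obtain ⟨h1, A, hA, h2, h3⟩ := hDF X hX
      exact ⟨A, hA, by omega, h3⟩
  · rw [card_union_of_disjoint]
    · have h1 : F.filter (fun A => r < A.card) =
          F.filter (fun A => r < A.card ∧ A.card < n - r) ∪ F.filter (fun A => n - r ≤ A.card) := by
        ext A
        simp only [mem_union, mem_filter]
        constructor
        · rintro ⟨h1, h2⟩
          by_cases h3 : A.card < n - r
          · exact Or.inl ⟨h1, h2, h3⟩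
          · exact Or.inr ⟨h1, by omega⟩
        · rintro (⟨h1, h2, h3⟩ | ⟨h1, h2⟩)
          · exact ⟨h1, h2⟩
          · exact ⟨h1, by omega⟩
      rw [h1]
      refine (card_union_le _ _).trans ?_
      omega
    · rw [disjoint_left]
      intro X hX hX2
      rw [hM] at hX
      have := (hDF X hX2).1
      omega
  · intro A hA B hB hAB
    rw [mem_union, hM] at hA hB
    rcases hA with hA | hA
    · rcases hB with hB | hB
      · exact hanti A hA.1 B hB.1 hAB
      · obtain ⟨h1, C, hC, h2, h3⟩ := hDF B hB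
        have := hanti A hA.1 C hC (hAB.trans h3)
        rw [← this] at h2
        omega
    · have h1 := (hDF A hA).1
      have h2 := card_le_card hAB
      rcases hB with hB | hB
      · omega
      · have h3 := (hDF B hB).1
        exact eq_of_subset_of_card_le hAB (by omega)
  · intro A hA B hB hAB
    rw [mem_union, hM] at hA hB
    have hkey : B.card = n - r → (A \ B).card ≤ r := by
      intro h1
      have h3 : A \ B ⊆ Bᶜ := by
        intro x hx
        rw [mem_compl]
        exact (mem_sdiff.1 hx).2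
      have h4 := card_le_card h3
      rw [card_compl, Fintype.card_fin] at h4
      omega
    rcases hB with hB | hB
    · rcases hA with hA | hA
      · exact hmd A hA.1 B hB.1 hAB
      · have := (hDF A hA).1
        omega
    · exact hkey (hDF B hB).1
  · intro X hX
    rw [mem_union, hM] at hX
    rcases hX with hX | hX
    · exact Or.inl hX
    · exact Or.inr (hDF X hX).1

/-- two sizes, in any order, for members of size greater than `r` -/
theorem two_size' {n : ℕ} (r a b : ℕ) (G : Finset (Finset (Fin n)))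
    (hanti : ∀ A ∈ G, ∀ B ∈ G, A ⊆ B → A = B)
    (hmd : ∀ A ∈ G, ∀ B ∈ G, A.card ≤ B.card → (A \ B).card ≤ r)
    (hr : ∀ A ∈ G, r < A.card)
    (hsz : ∀ A ∈ G, A.card = a ∨ A.card = b)
    (c : Finset (Fin n) → ℚ) (hcG : ∀ X, X ∉ G → c X = 0)
    (h0 : ∀ S : Finset (Fin n), S.card = r → ∑ X with S ⊆ X, c X = 0) : ∀ X, c X = 0 := by
  rcases le_total a b with hab | hab
  · apply two_size r (max a r) (max b (max a r + 1)) (by omega) (by omega) G hanti hmd _ c hcG h0
    intro A hA
    have h1 := hr A hA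
    have h2 := hsz A hA
    omega
  · apply two_size r (max b r) (max a (max b r + 1)) (by omega) (by omega) G hanti hmd _ c hcG h0
    intro A hA
    have h1 := hr A hA
    have h2 := hsz A hA
    omega

/-- at most two sizes above level `r` -/
theorem two_above {n : ℕ} (r a b : ℕ) (hn : 2 * r + 1 ≤ n) (F : Finset (Finset (Fin n)))
    (hanti : ∀ A ∈ F, ∀ B ∈ F, A ⊆ B → A = B)
    (hmd : ∀ A ∈ F, ∀ B ∈ F, A.card ≤ B.card → (A \ B).card ≤ r)
    (hsz : ∀ A ∈ F, A.card ≤ r ∨ A.card = a ∨ A.card = b) :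
    F.card ≤ n.choose r := by
  classical
  apply assemble r (by omega) F (F.filter (fun A => r < A.card)) hanti
  · intro X hX
    rw [mem_filter] at hX
    exact ⟨X, hX.1, hX.2, subset_rfl⟩
  · exact le_rfl
  · intro c hc h0
    apply two_size' r a b (F.filter (fun A => r < A.card)) _ _ _ _ c hc h0
    · intro A hA B hB
      rw [mem_filter] at hA hB
      exact hanti A hA.1 B hB.1
    · intro A hA B hB
      rw [mem_filter] at hA hB
      exact hmd A hA.1 B hB.1
    · intro A hA
      exact (mem_filter.1 hA).2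
    · intro A hA
      rw [mem_filter] at hA
      have := hsz A hA.1
      omega

/-- at most one size strictly between `r` and `n - r` -/
theorem one_middle {n : ℕ} (r s : ℕ) (hn : 2 * r + 1 ≤ n) (F : Finset (Finset (Fin n)))
    (hanti : ∀ A ∈ F, ∀ B ∈ F, A ⊆ B → A = B)
    (hmd : ∀ A ∈ F, ∀ B ∈ F, A.card ≤ B.card → (A \ B).card ≤ r)
    (hsz : ∀ A ∈ F, A.card ≤ r ∨ A.card = s ∨ n - r ≤ A.card) :
    F.card ≤ n.choose r := by
  classical
  obtain ⟨G, h1, h2, h3, h4, h5⟩ := pushed r hn F hanti hmd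
  apply assemble r (by omega) F G hanti h1 h2
  intro c hc h0
  apply two_size' r s (n - r) G h3 h4 _ _ c hc h0
  · intro A hA
    have := h5 A hA
    omega
  · intro A hA
    rcases h5 A hA with h | h
    · have := hsz A h.1
      omega
    · exact Or.inr h

/-- complement version of `two_above` -/
theorem two_below {n : ℕ} (r a b : ℕ) (hn : 2 * r + 1 ≤ n) (F : Finset (Finset (Fin n)))
    (hanti : ∀ A ∈ F, ∀ B ∈ F, A ⊆ B → A = B)
    (hmd : ∀ A ∈ F, ∀ B ∈ F, A.card ≤ B.card → (A \ B).card ≤ r)
    (hsz : ∀ A ∈ F, n - r ≤ A.card ∨ A.card = a ∨ A.card = b) :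
    F.card ≤ n.choose r := by
  classical
  rw [← card_image_of_injective F (compl_injective (α := Finset (Fin n)))]
  have hle : ∀ A : Finset (Fin n), A.card ≤ n := by
    intro A
    have := card_le_univ A
    rwa [Fintype.card_fin] at this
  apply two_above r (n - a) (n - b) hn
  · intro A hA B hB hAB
    rw [mem_image] at hA hB
    obtain ⟨A', hA', rfl⟩ := hA
    obtain ⟨B', hB', rfl⟩ := hB
    rw [hanti B' hB' A' hA' (compl_subset_compl.1 hAB)]
  · intro A hA B hB hAB
    rw [mem_image] at hA hB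
    obtain ⟨A', hA', rfl⟩ := hA
    obtain ⟨B', hB', rfl⟩ := hB
    rw [card_compl, card_compl, Fintype.card_fin] at hAB
    have h1 := hle A'
    have h2 := hle B'
    have h3 := hmd B' hB' A' hA' (by omega)
    have h4 : A'ᶜ \ B'ᶜ = B' \ A' := by
      ext x
      simp only [mem_sdiff, mem_compl, not_not]
      tauto
    rw [h4]
    exact h3
  · intro A hA
    rw [mem_image] at hA
    obtain ⟨A', hA', rfl⟩ := hA
    rw [card_compl, Fintype.card_fin]
    have := hsz A' hA'
    have h1 := hle A'
    omega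

/-- ground sets of size at most `2r+3` -/
theorem small_gap {n : ℕ} (r : ℕ) (hn : 2 * r + 1 ≤ n) (hn3 : n ≤ 2 * r + 3)
    (F : Finset (Finset (Fin n)))
    (hanti : ∀ A ∈ F, ∀ B ∈ F, A ⊆ B → A = B)
    (hmd : ∀ A ∈ F, ∀ B ∈ F, A.card ≤ B.card → (A \ B).card ≤ r) :
    F.card ≤ n.choose r := by
  classical
  by_cases h : n = 2 * r + 3
  · obtain ⟨G, h1, h2, h3, h4, h5⟩ := pushed r hn F hanti hmd
    apply assemble r (by omega) F G hanti h1 h2
    intro c hc h0
    apply three_size h G h3 h4 _ c hc h0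
    intro A hA
    have := h5 A hA
    omega
  · apply one_middle r (r + 1) hn F hanti hmd
    intro A _
    omega

end Pool.Agent.H173R2.AntiDiam
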