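import Mathlib

/-!
# Algebra for the Hoffman-Wielandt inequality in the Schatten 4-norm

`rt X` is the real part of the trace, `sq X = rt (Xᴴ X)` the square of the Hilbert-Schmidt norm.
-/

set_option autoImplicit false

namespace Pool.Agent.H173R2.HW

open Matrix

variable {n : ℕ}

/-- real part of the trace -/
noncomputable def rt (X : Matrix (Fin n) (Fin n) ℂ) : ℝ := (trace X).re

/-- square of the Hilbert-Schmidt norm -/
noncomputable def sq (X : Matrix (Fin n) (Fin n) ℂ) : ℝ := rt (Xᴴ * X)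

lemma rt_add (X Y : Matrix (Fin n) (Fin n) ℂ) : rt (X + Y) = rt X + rt Y := by
  simp [rt]

lemma rt_sub (X Y : Matrix (Fin n) (Fin n) ℂ) : rt (X - Y) = rt X - rt Y := by
  simp [rt]

lemma rt_neg (X : Matrix (Fin n) (Fin n) ℂ) : rt (-X) = - rt X := by
  simp [rt]

lemma rt_zero : rt (0 : Matrix (Fin n) (Fin n) ℂ) = 0 := by
  simp [rt]

lemma rt_smul (r : ℝ) (X : Matrix (Fin n) (Fin n) ℂ) : rt (r • X) = r * rt X := by
  simp [rt, trace_smul]

lemma rt_mul_comm (X Y : Matrix (Fin n) (Fin n) ℂ) : rt (X * Y) = rt (Y * X) := by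
  simp only [rt]
  rw [trace_mul_comm]

lemma rt_conj (X : Matrix (Fin n) (Fin n) ℂ) : rt Xᴴ = rt X := by
  simp [rt, trace_conjTranspose]

lemma sq_eq (X : Matrix (Fin n) (Fin n) ℂ) : sq X = ∑ i, ∑ j, ‖X i j‖ ^ 2 := by
  rw [Finset.sum_comm]
  simp only [sq, rt, trace, diag, mul_apply, conjTranspose_apply, Complex.re_sum]
  refine Finset.sum_congr rfl fun i _ => Finset.sum_congr rfl fun j _ => ?_
  rw [← Complex.normSq_eq_norm_sq, RCLike.star_def, ← Complex.normSq_eq_conj_mul_self,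
    Complex.ofReal_re]

lemma sq_nonneg' (X : Matrix (Fin n) (Fin n) ℂ) : 0 ≤ sq X := by
  rw [sq_eq]
  exact Finset.sum_nonneg fun i _ => Finset.sum_nonneg fun j _ => sq_nonneg _

lemma sq_neg (X : Matrix (Fin n) (Fin n) ℂ) : sq (-X) = sq X := by
  simp [sq]

/-- Hermitian times anti-Hermitian has trace with real part zero -/
lemma rt_anti_herm {X Y : Matrix (Fin n) (Fin n) ℂ} (hX : Xᴴ = -X) (hY : Yᴴ = Y) :
    rt (X * Y) = 0 := by
  have h : rt (X * Y) = - rt (X * Y) := by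
    calc rt (X * Y) = rt (X * Y)ᴴ := (rt_conj _).symm
      _ = rt (-(Y * X)) := by rw [conjTranspose_mul, hX, hY, Matrix.mul_neg]
      _ = - rt (X * Y) := by rw [rt_neg, rt_mul_comm]
  linarith

lemma sq_add (X Y : Matrix (Fin n) (Fin n) ℂ) : sq (X + Y) = sq X + sq Y + 2 * rt (Xᴴ * Y) := by
  have h : rt (Yᴴ * X) = rt (Xᴴ * Y) := by
    rw [← rt_conj, conjTranspose_mul, conjTranspose_conjTranspose]
  simp only [sq, conjTranspose_add, Matrix.add_mul, Matrix.mul_add, rt_add]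
  rw [h]
  ring

lemma sq_sub (X Y : Matrix (Fin n) (Fin n) ℂ) : sq (X - Y) = sq X + sq Y - 2 * rt (Xᴴ * Y) := by
  rw [sub_eq_add_neg, sq_add, sq_neg, Matrix.mul_neg, rt_neg]
  ring

lemma sq_smul (r : ℝ) (X : Matrix (Fin n) (Fin n) ℂ) : sq (r • X) = r ^ 2 * sq X := by
  simp only [sq, conjTranspose_smul, Matrix.smul_mul, Matrix.mul_smul, rt_smul]
  simp
  ring

lemma sq_conj (X : Matrix (Fin n) (Fin n) ℂ) : sq Xᴴ = sq X := by
  rw [sq, sq, conjTranspose_conjTranspose, rt_mul_comm]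

/-- arithmetic-geometric mean -/
lemma rt_le (X Y : Matrix (Fin n) (Fin n) ℂ) : 4 * rt (Xᴴ * Y) ≤ 4 * sq X + sq Y := by
  have h := sq_nonneg' ((2 : ℝ) • X - Y)
  rw [sq_sub, sq_smul, conjTranspose_smul, Matrix.smul_mul, rt_smul] at h
  simp only [star_trivial] at h
  linarith

/-! ### The inequality at a critical point -/

section crit

variable (A B : Matrix (Fin n) (Fin n) ℂ)

/-- `[Aᴴ, B]` -/
def Cc : Matrix (Fin n) (Fin n) ℂ := Aᴴ * B - B * Aᴴ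
/-- twice the anti-Hermitian part of `[Aᴴ, B]` -/
def G2 : Matrix (Fin n) (Fin n) ℂ := Cc A B - (Cc A B)ᴴ
/-- twice the Hermitian part of `[Aᴴ, B]` -/
def H2 : Matrix (Fin n) (Fin n) ℂ := Cc A B + (Cc A B)ᴴ
/-- `S Sᴴ + Sᴴ S` -/
def Z2 : Matrix (Fin n) (Fin n) ℂ := (A - B) * (A - B)ᴴ + (A - B)ᴴ * (A - B)
/-- `[A, B]` -/
def Nn : Matrix (Fin n) (Fin n) ℂ := A * B - B * A
/-- `Aᴴ S - S Bᴴ` -/
def Ll : Matrix (Fin n) (Fin n) ℂ := Aᴴ * (A - B) - (A - B) * Bᴴ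

lemma G2_anti : (G2 A B)ᴴ = - G2 A B := by
  simp [G2]

lemma H2_herm : (H2 A B)ᴴ = H2 A B := by
  simp [H2, add_comm]

lemma Z2_herm : (Z2 A B)ᴴ = Z2 A B := by
  simp [Z2]

variable {A B}

lemma comm_eq (hA : Aᴴ * A = A * Aᴴ) (hB : Bᴴ * B = B * Bᴴ) :
    (A - B) * (A - B)ᴴ - (A - B)ᴴ * (A - B) = H2 A B := by
  simp only [H2, Cc, conjTranspose_sub, conjTranspose_mul, conjTranspose_conjTranspose,
    Matrix.sub_mul, Matrix.mul_sub, hA, hB]
  abel

lemma two_SS (hA : Aᴴ * A = A * Aᴴ) (hB : Bᴴ * B = B * Bᴴ) :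
    (2 : ℝ) • ((A - B) * (A - B)ᴴ) = Z2 A B + H2 A B := by
  rw [← comm_eq hA hB, Z2, two_smul]
  abel

lemma two_SS' (hA : Aᴴ * A = A * Aᴴ) (hB : Bᴴ * B = B * Bᴴ) :
    (2 : ℝ) • ((A - B)ᴴ * (A - B)) = Z2 A B - H2 A B := by
  rw [← comm_eq hA hB, Z2, two_smul]
  abel

lemma two_L (hA : Aᴴ * A = A * Aᴴ) (hB : Bᴴ * B = B * Bᴴ) :
    (2 : ℝ) • Ll A B = Z2 A B - G2 A B := by
  simp only [Ll, Z2, G2, Cc, conjTranspose_sub, conjTranspose_mul, conjTranspose_conjTranspose,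
    Matrix.sub_mul, Matrix.mul_sub, hA, hB, two_smul]
  abel

/-- the energy identity -/
lemma energy (hA : Aᴴ * A = A * Aᴴ) (hB : Bᴴ * B = B * Bᴴ) :
    4 * sq ((A - B)ᴴ * (A - B)) - 4 * sq (Ll A B) = sq (H2 A B) - sq (G2 A B) := by
  have h1 : 4 * sq (Ll A B) = sq (Z2 A B) + sq (G2 A B) := by
    have h := congrArg sq (two_L hA hB)
    rw [sq_smul, sq_sub, Z2_herm, rt_mul_comm, rt_anti_herm (G2_anti A B) (Z2_herm A B)] at h
    linarith
  have h2 := congrArg sq (two_SS hA hB)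
  have h3 := congrArg sq (two_SS' hA hB)
  rw [sq_smul, sq_add, Z2_herm] at h2
  rw [sq_smul, sq_sub, Z2_herm] at h3
  have h4 : sq ((A - B) * (A - B)ᴴ) = sq ((A - B)ᴴ * (A - B)) := by
    simp only [sq, conjTranspose_mul, conjTranspose_conjTranspose]
    rw [Matrix.mul_assoc, rt_mul_comm]
    simp only [Matrix.mul_assoc]
  rw [h4] at h2
  linarith

lemma sq_N (hA : Aᴴ * A = A * Aᴴ) : sq (Nn A B) = sq (Cc A B) := by
  have e1 : sq (Nn A B) = rt (Bᴴ * Aᴴ * (A * B)) + rt (Aᴴ * Bᴴ * (B * A))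
      - rt (Bᴴ * Aᴴ * (B * A)) - rt (Aᴴ * Bᴴ * (A * B)) := by
    simp only [sq, Nn, conjTranspose_sub, conjTranspose_mul, Matrix.sub_mul, Matrix.mul_sub,
      rt_sub]
    ring
  have e2 : sq (Cc A B) = rt (Bᴴ * A * (Aᴴ * B)) + rt (A * Bᴴ * (B * Aᴴ))
      - rt (Bᴴ * A * (B * Aᴴ)) - rt (A * Bᴴ * (Aᴴ * B)) := by
    simp only [sq, Cc, conjTranspose_sub, conjTranspose_mul, conjTranspose_conjTranspose,
      Matrix.sub_mul, Matrix.mul_sub, rt_sub]
    ring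
  have a1 : Bᴴ * Aᴴ * (A * B) = Bᴴ * A * (Aᴴ * B) := by
    rw [Matrix.mul_assoc, ← Matrix.mul_assoc Aᴴ, hA]
    simp only [Matrix.mul_assoc]
  have a2 : rt (Aᴴ * Bᴴ * (B * A)) = rt (A * Bᴴ * (B * Aᴴ)) := by
    have : rt (Aᴴ * Bᴴ * (B * A)) = rt (Bᴴ * B * (A * Aᴴ)) := by
      rw [Matrix.mul_assoc, rt_mul_comm]
      simp only [Matrix.mul_assoc]
    rw [this, ← hA]
    have : rt (A * Bᴴ * (B * Aᴴ)) = rt (Bᴴ * B * (Aᴴ * A)) := by
      rw [Matrix.mul_assoc, rt_mul_comm]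
      simp only [Matrix.mul_assoc]
    rw [this]
  have a3 : rt (Bᴴ * Aᴴ * (B * A)) = rt (A * Bᴴ * (Aᴴ * B)) := by
    have : Bᴴ * Aᴴ * (B * A) = (Bᴴ * (Aᴴ * B)) * A := by simp only [Matrix.mul_assoc]
    rw [this, rt_mul_comm]
    simp only [Matrix.mul_assoc]
  have a4 : rt (Aᴴ * Bᴴ * (A * B)) = rt (Bᴴ * A * (B * Aᴴ)) := by
    rw [Matrix.mul_assoc, rt_mul_comm]
    simp only [Matrix.mul_assoc]
  rw [e1, e2, a1, a2, a3, a4]
  ring

/-- The key estimate at a critical point. -/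
theorem crit_le (hA : Aᴴ * A = A * Aᴴ) (hB : Bᴴ * B = B * Bᴴ) {ε : ℝ} (hε : 0 ≤ ε)
    (Y : Matrix (Fin n) (Fin n) ℂ) (hY : Yᴴ = -Y)
    (hYG : (Z2 A B + ε • 1) * Y + Y * (Z2 A B + ε • 1) = G2 A B)
    (hcrit : rt (Y * (B * ((A - B)ᴴ * (A - B) * (A - B)ᴴ + ε • (A - B)ᴴ) -
      ((A - B)ᴴ * (A - B) * (A - B)ᴴ + ε • (A - B)ᴴ) * B)) = 0) :
    sq (Ll A B) ≤ sq ((A - B)ᴴ * (A - B)) := by
  set S := A - B with hS
  set Z := Z2 A B with hZ
  set G := G2 A B with hG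
  set H := H2 A B with hH
  set N := Nn A B with hN
  set C := Cc A B with hC
  have hZh : Zᴴ = Z := Z2_herm A B
  have hGa : Gᴴ = -G := G2_anti A B
  have hHh : Hᴴ = H := H2_herm A B
  -- commutators
  have c1 : B * Sᴴ - Sᴴ * B = -C := by
    simp only [hS, hC, Cc, conjTranspose_sub, Matrix.sub_mul, Matrix.mul_sub, hB]
    abel
  have c2 : B * S - S * B = -N := by
    simp only [hS, hN, Nn, Matrix.sub_mul, Matrix.mul_sub]
    abel
  have c3 : B * (Sᴴ * S * Sᴴ + ε • Sᴴ) - (Sᴴ * S * Sᴴ + ε • Sᴴ) * B =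
      -(C * (S * Sᴴ) + Sᴴ * N * Sᴴ + (Sᴴ * S) * C + ε • C) := by
    have e : B * (Sᴴ * S * Sᴴ + ε • Sᴴ) - (Sᴴ * S * Sᴴ + ε • Sᴴ) * B =
        (B * Sᴴ - Sᴴ * B) * (S * Sᴴ) + Sᴴ * (B * S - S * B) * Sᴴ + (Sᴴ * S) * (B * Sᴴ - Sᴴ * B)
          + ε • (B * Sᴴ - Sᴴ * B) := by
      simp only [Matrix.mul_add, Matrix.add_mul, Matrix.mul_sub, Matrix.sub_mul, Matrix.mul_smul,
        Matrix.smul_mul, smul_sub, Matrix.mul_assoc]
      abel
    rw [e, c1, c2]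
    simp only [Matrix.neg_mul, Matrix.mul_neg, smul_neg]
    abel
  have t1 := two_SS hA hB
  have t2 := two_SS' hA hB
  rw [← hS, ← hZ, ← hH] at t1 t2
  have hC2 : (2 : ℝ) • C = H + G := by
    rw [hH, hG, H2, G2, ← hC, two_smul]
    abel
  -- four times the critical expression
  have c4 : (4 : ℝ) • (C * (S * Sᴴ) + Sᴴ * N * Sᴴ + (Sᴴ * S) * C + ε • C) =
      (G * (Z + ε • 1) + (Z + ε • 1) * G) + (4 : ℝ) • (Sᴴ * N * Sᴴ) +
        ((H * Z + Z * H) + (G * H - H * G) + (2 * ε) • H) := by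
    have e1 : (4 : ℝ) • (C * (S * Sᴴ)) = (H + G) * (Z + H) := by
      rw [← hC2, ← t1, Matrix.smul_mul, Matrix.mul_smul, smul_smul]
      norm_num
    have e2 : (4 : ℝ) • ((Sᴴ * S) * C) = (Z - H) * (H + G) := by
      rw [← hC2, ← t2, Matrix.smul_mul, Matrix.mul_smul, smul_smul]
      norm_num
    have e3 : (4 : ℝ) • (ε • C) = (2 * ε) • (H + G) := by
      rw [← hC2, smul_smul, smul_smul]
      congr 1
      ring
    rw [smul_add, smul_add, smul_add, e1, e2, e3]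
    simp only [Matrix.mul_add, Matrix.add_mul, Matrix.sub_mul, Matrix.mul_smul,
      Matrix.smul_mul, Matrix.mul_one, Matrix.one_mul, smul_add, two_mul, add_smul]
    abel
  have c5 : ((H * Z + Z * H) + (G * H - H * G) + (2 * ε) • H)ᴴ =
      (H * Z + Z * H) + (G * H - H * G) + (2 * ε) • H := by
    simp only [conjTranspose_add, conjTranspose_sub, conjTranspose_mul, conjTranspose_smul, hHh,
      hZh, hGa, star_trivial, Matrix.mul_neg, Matrix.neg_mul]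
    abel
  have c6 : rt (Y * (G * (Z + ε • 1) + (Z + ε • 1) * G)) = - (4 * rt (Y * (Sᴴ * N * Sᴴ))) := by
    have h0 : rt (Y * ((4 : ℝ) • (C * (S * Sᴴ) + Sᴴ * N * Sᴴ + (Sᴴ * S) * C + ε • C))) = 0 := by
      rw [Matrix.mul_smul, rt_smul]
      rw [c3, Matrix.mul_neg, rt_neg] at hcrit
      have : rt (Y * (C * (S * Sᴴ) + Sᴴ * N * Sᴴ + (Sᴴ * S) * C + ε • C)) = 0 := by linarith
      rw [this, mul_zero]
    rw [c4, Matrix.mul_add, Matrix.mul_add, rt_add, rt_add, rt_anti_herm hY c5, Matrix.mul_smul,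
      rt_smul] at h0
    linarith
  have c7 : rt (Y * (G * (Z + ε • 1) + (Z + ε • 1) * G)) = - sq G := by
    have e : ∀ V : Matrix (Fin n) (Fin n) ℂ, rt (Y * (G * V + V * G)) =
        rt ((V * Y + Y * V) * G) := by
      intro V
      rw [Matrix.mul_add, Matrix.add_mul, rt_add, rt_add]
      congr 1
      · rw [← Matrix.mul_assoc, rt_mul_comm, Matrix.mul_assoc]
      · rw [Matrix.mul_assoc]
    rw [e, hYG, sq, hGa, Matrix.neg_mul, rt_neg, neg_neg]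
  have c8 : sq G = 4 * rt ((-(S * Y * S))ᴴ * N) := by
    have e : rt (Y * (Sᴴ * N * Sᴴ)) = rt ((-(S * Y * S))ᴴ * N) := by
      rw [conjTranspose_neg, conjTranspose_mul, conjTranspose_mul, hY]
      have : -(Sᴴ * (-Y * Sᴴ)) = Sᴴ * Y * Sᴴ := by
        simp only [Matrix.neg_mul, Matrix.mul_neg, neg_neg, Matrix.mul_assoc]
      rw [this]
      have e2 : Y * (Sᴴ * N * Sᴴ) = (Y * Sᴴ * N) * Sᴴ := by simp only [Matrix.mul_assoc]
      rw [e2, rt_mul_comm]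
      simp only [Matrix.mul_assoc]
    rw [← e]
    linarith
  have c9 : sq G ≤ 4 * sq (S * Y * S) + sq N := by
    rw [c8]
    have := rt_le (-(S * Y * S)) N
    rw [sq_neg] at this
    exact this
  -- positivity
  have p1 : sq (Sᴴ * Y * S) = - rt (Y * (S * Sᴴ) * Y * (S * Sᴴ)) := by
    rw [sq, conjTranspose_mul, conjTranspose_mul, hY, conjTranspose_conjTranspose]
    have e : Sᴴ * (-Y * S) * (Sᴴ * Y * S) = -(Sᴴ * (Y * S * Sᴴ * Y * S)) := by
      simp only [Matrix.neg_mul, Matrix.mul_neg, Matrix.mul_assoc]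
    rw [e, rt_neg, rt_mul_comm]
    simp only [Matrix.mul_assoc]
  have p2 : sq (S * Y * Sᴴ) = - rt (Y * (Sᴴ * S) * Y * (Sᴴ * S)) := by
    rw [sq, conjTranspose_mul, conjTranspose_mul, hY, conjTranspose_conjTranspose]
    have e : S * (-Y * Sᴴ) * (S * Y * Sᴴ) = -(S * (Y * Sᴴ * S * Y * Sᴴ)) := by
      simp only [Matrix.neg_mul, Matrix.mul_neg, Matrix.mul_assoc]
    rw [e, rt_neg, rt_mul_comm]
    simp only [Matrix.mul_assoc]
  have p3 : sq (S * Y * S) = - rt (Y * (Sᴴ * S) * Y * (S * Sᴴ)) := by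
    rw [sq, conjTranspose_mul, conjTranspose_mul, hY]
    have e : Sᴴ * (-Y * Sᴴ) * (S * Y * S) = -(Sᴴ * (Y * Sᴴ * S * Y * S)) := by
      simp only [Matrix.neg_mul, Matrix.mul_neg, Matrix.mul_assoc]
    rw [e, rt_neg, rt_mul_comm]
    simp only [Matrix.mul_assoc]
  have p4 : rt (Y * (S * Sᴴ) * Y * (Sᴴ * S)) = rt (Y * (Sᴴ * S) * Y * (S * Sᴴ)) := by
    have e : Y * (S * Sᴴ) * Y * (Sᴴ * S) = (Y * (S * Sᴴ)) * (Y * (Sᴴ * S)) := by
      simp only [Matrix.mul_assoc]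
    rw [e, rt_mul_comm]
    simp only [Matrix.mul_assoc]
  have hZS : Z = S * Sᴴ + Sᴴ * S := rfl
  have p5 : - rt (Y * Z * Y * Z) = sq (Sᴴ * Y * S) + sq (S * Y * Sᴴ) + 2 * sq (S * Y * S) := by
    rw [hZS]
    simp only [Matrix.mul_add, Matrix.add_mul, rt_add]
    linarith
  have p6 : - rt (Y * Y * Z) = sq (Y * S) + sq (Y * Sᴴ) := by
    have e1 : sq (Y * S) = - rt (Y * Y * (S * Sᴴ)) := by
      rw [sq, conjTranspose_mul, hY]
      have e : Sᴴ * -Y * (Y * S) = -(Sᴴ * (Y * Y * S)) := by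
        simp only [Matrix.neg_mul, Matrix.mul_neg, Matrix.mul_assoc]
      rw [e, rt_neg, rt_mul_comm]
      simp only [Matrix.mul_assoc]
    have e2 : sq (Y * Sᴴ) = - rt (Y * Y * (Sᴴ * S)) := by
      rw [sq, conjTranspose_mul, hY, conjTranspose_conjTranspose]
      have e : S * -Y * (Y * Sᴴ) = -(S * (Y * Y * Sᴴ)) := by
        simp only [Matrix.neg_mul, Matrix.mul_neg, Matrix.mul_assoc]
      rw [e, rt_neg, rt_mul_comm]
      simp only [Matrix.mul_assoc]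
    rw [e1, e2, hZS, Matrix.mul_add, rt_add]
    ring
  set W := Z + ε • (1 : Matrix (Fin n) (Fin n) ℂ) with hW
  have hWh : Wᴴ = W := by
    rw [hW, conjTranspose_add, hZh, conjTranspose_smul, conjTranspose_one, star_trivial]
  have p7 : - rt (Y * Z * Y * Z) ≤ - rt (Y * W * Y * W) := by
    have e : Y * W * Y * W = Y * Z * Y * Z + ε • (Y * Y * Z + Y * Z * Y) + (ε ^ 2) • (Y * Y) := by
      rw [hW]
      simp only [Matrix.mul_add, Matrix.add_mul, Matrix.mul_smul, Matrix.smul_mul, Matrix.mul_one,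
        smul_add, smul_smul, pow_two]
      abel
    have e1 : rt (Y * Z * Y) = rt (Y * Y * Z) := by
      rw [rt_mul_comm, Matrix.mul_assoc]
    have e2 : rt (Y * Y) = - sq Y := by
      rw [sq, hY, Matrix.neg_mul, rt_neg, neg_neg]
    rw [e, rt_add, rt_add, rt_smul, rt_smul, rt_add, e1, e2]
    have h1 := sq_nonneg' (Y * S)
    have h2 := sq_nonneg' (Y * Sᴴ)
    have h3 := sq_nonneg' Y
    have h4 : 0 ≤ ε * (sq (Y * S) + sq (Y * Sᴴ)) := mul_nonneg hε (add_nonneg h1 h2)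
    have h5 : 0 ≤ ε ^ 2 * sq Y := mul_nonneg (sq_nonneg ε) h3
    nlinarith
  have p8 : - (4 * rt (Y * W * Y * W)) ≤ sq G := by
    have h1 : sq G = sq (W * Y) + sq (Y * W) + 2 * rt ((W * Y)ᴴ * (Y * W)) := by
      rw [← hYG, sq_add]
    have h2 := sq_nonneg' (W * Y - Y * W)
    rw [sq_sub] at h2
    have h3 : rt ((W * Y)ᴴ * (Y * W)) = - rt (Y * W * Y * W) := by
      rw [conjTranspose_mul, hY, hWh]
      have e : -Y * W * (Y * W) = -(Y * W * Y * W) := by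
        simp only [Matrix.neg_mul, Matrix.mul_assoc]
      rw [e, rt_neg]
    linarith
  have hG8 : 8 * sq (S * Y * S) ≤ sq G := by
    have h1 := sq_nonneg' (Sᴴ * Y * S)
    have h2 := sq_nonneg' (S * Y * Sᴴ)
    nlinarith
  have hNC : sq N = sq C := sq_N hA
  have hHG : 4 * sq C = sq H + sq G := by
    have h := congrArg sq hC2
    rw [sq_smul, sq_add, hHh, rt_mul_comm, rt_anti_herm hGa hHh] at h
    linarith
  have hen := energy hA hB
  rw [← hS, ← hH, ← hG] at hen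
  linarith

end crit

end Pool.Agent.H173R2.HW
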