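import Pool.Agent.H173R2.HWA

set_option autoImplicit false

namespace Pool.Agent.H173R2.HW

open Matrix NormedSpace

variable {n : ℕ}

/-- the functional `‖S‖₄⁴ + 2 ε ‖S‖₂²` -/
noncomputable def Fn (ε : ℝ) (S : Matrix (Fin n) (Fin n) ℂ) : ℝ := sq (Sᴴ * S) + 2 * ε * sq S

lemma eq_zero_of_sq {X : Matrix (Fin n) (Fin n) ℂ} (h : sq X ≤ 0) : X = 0 := by
  have h0 : sq X = 0 := le_antisymm h (sq_nonneg' X)
  rw [sq_eq] at h0
  ext i j
  have h1 := (Finset.sum_eq_zero_iff_of_nonneg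
    (fun i _ => Finset.sum_nonneg fun j _ => sq_nonneg _)).1 h0 i (Finset.mem_univ i)
  have h2 := (Finset.sum_eq_zero_iff_of_nonneg (fun j _ => sq_nonneg _)).1 h1 j (Finset.mem_univ j)
  have h3 : ‖X i j‖ = 0 := by
    have := pow_eq_zero_iff (two_ne_zero) |>.1 h2
    exact this
  simpa using h3

lemma lyap (A B : Matrix (Fin n) (Fin n) ℂ) {ε : ℝ} (hε : 0 < ε) :
    ∃ Y : Matrix (Fin n) (Fin n) ℂ, Yᴴ = -Y ∧
      (Z2 A B + ε • 1) * Y + Y * (Z2 A B + ε • 1) = G2 A B := by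
  set S := A - B with hS
  set W := Z2 A B + ε • (1 : Matrix (Fin n) (Fin n) ℂ) with hW
  have hWh : Wᴴ = W := by
    rw [hW, conjTranspose_add, Z2_herm, conjTranspose_smul, conjTranspose_one, star_trivial]
  let Φ : Matrix (Fin n) (Fin n) ℂ →ₗ[ℂ] Matrix (Fin n) (Fin n) ℂ :=
    LinearMap.mulLeft ℂ W + LinearMap.mulRight ℂ W
  have hΦ : ∀ X, Φ X = W * X + X * W := fun X => by simp [Φ]
  have hinj : Function.Injective Φ := by
    rw [injective_iff_map_eq_zero]
    intro X hX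
    rw [hΦ] at hX
    have h0 : rt (Xᴴ * (W * X + X * W)) = 0 := by rw [hX, Matrix.mul_zero, rt_zero]
    have e1 : Xᴴ * (W * X + X * W) = Xᴴ * (S * Sᴴ) * X + Xᴴ * (Sᴴ * S) * X + Xᴴ * X * (S * Sᴴ)
        + Xᴴ * X * (Sᴴ * S) + (2 * ε) • (Xᴴ * X) := by
      rw [hW, Z2, ← hS]
      simp only [Matrix.mul_add, Matrix.add_mul, Matrix.mul_smul, Matrix.smul_mul, Matrix.mul_one,
        Matrix.one_mul, Matrix.mul_assoc, two_mul, add_smul]
      abel
    have a1 : rt (Xᴴ * (S * Sᴴ) * X) = sq (Sᴴ * X) := by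
      rw [sq, conjTranspose_mul, conjTranspose_conjTranspose]
      simp only [Matrix.mul_assoc]
    have a2 : rt (Xᴴ * (Sᴴ * S) * X) = sq (S * X) := by
      rw [sq, conjTranspose_mul]
      simp only [Matrix.mul_assoc]
    have a3 : rt (Xᴴ * X * (S * Sᴴ)) = sq (X * S) := by
      rw [sq, conjTranspose_mul]
      have : Sᴴ * Xᴴ * (X * S) = Sᴴ * (Xᴴ * X * S) := by simp only [Matrix.mul_assoc]
      rw [this, rt_mul_comm Sᴴ]
      simp only [Matrix.mul_assoc]
    have a4 : rt (Xᴴ * X * (Sᴴ * S)) = sq (X * Sᴴ) := by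
      rw [sq, conjTranspose_mul, conjTranspose_conjTranspose]
      have : S * Xᴴ * (X * Sᴴ) = S * (Xᴴ * X * Sᴴ) := by simp only [Matrix.mul_assoc]
      rw [this, rt_mul_comm S]
      simp only [Matrix.mul_assoc]
    rw [e1, rt_add, rt_add, rt_add, rt_add, rt_smul, a1, a2, a3, a4] at h0
    apply eq_zero_of_sq
    have b1 := sq_nonneg' (Sᴴ * X)
    have b2 := sq_nonneg' (S * X)
    have b3 := sq_nonneg' (X * S)
    have b4 := sq_nonneg' (X * Sᴴ)
    have h5 : 2 * ε * sq X ≤ 0 := by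
      have : rt (Xᴴ * X) = sq X := rfl
      rw [this] at h0
      linarith
    by_contra h6
    push Not at h6
    have : 0 < 2 * ε * sq X := by positivity
    linarith
  have hsurj : Function.Surjective Φ := LinearMap.injective_iff_surjective.1 hinj
  obtain ⟨X, hX⟩ := hsurj (G2 A B)
  rw [hΦ] at hX
  have hX2 : Xᴴ * W + W * Xᴴ = - G2 A B := by
    rw [← G2_anti, ← hX, conjTranspose_add, conjTranspose_mul, conjTranspose_mul, hWh]
  refine ⟨(1 / 2 : ℝ) • (X - Xᴴ), ?_, ?_⟩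
  · rw [conjTranspose_smul, conjTranspose_sub, conjTranspose_conjTranspose, star_trivial,
      ← smul_neg, neg_sub]
  · have e : W * ((1 / 2 : ℝ) • (X - Xᴴ)) + ((1 / 2 : ℝ) • (X - Xᴴ)) * W =
        (1 / 2 : ℝ) • ((W * X + X * W) - (Xᴴ * W + W * Xᴴ)) := by
      simp only [Matrix.mul_smul, Matrix.smul_mul, Matrix.mul_sub, Matrix.sub_mul, smul_sub,
        smul_add]
      abel
    rw [e, hX, hX2, sub_neg_eq_add, ← two_smul ℝ, smul_smul]
    norm_num

/-- `rt` as a linear map -/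
noncomputable def rtL (n : ℕ) : Matrix (Fin n) (Fin n) ℂ →ₗ[ℝ] ℝ :=
  { toFun := rt
    map_add' := rt_add
    map_smul' := fun r X => by simpa using rt_smul r X }

lemma rtL_apply (X : Matrix (Fin n) (Fin n) ℂ) : rtL n X = rt X := rfl

section abs

variable {R : Type*} [NormedRing R] [NormedAlgebra ℝ R] [FiniteDimensional ℝ R]

lemma deriv_conj (y b : R) :
    HasDerivAt (fun t : ℝ => exp (t • y) * b * exp (t • (-y))) (y * b - b * y) 0 := by
  have : CompleteSpace R := FiniteDimensional.complete ℝ R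
  have dE : HasDerivAt (fun t : ℝ => exp (t • y)) y 0 := by
    have := hasDerivAt_exp_smul_const (𝕂 := ℝ) y (0 : ℝ)
    simpa using this
  have dE' : HasDerivAt (fun t : ℝ => exp (t • (-y))) (-y) 0 := by
    have := hasDerivAt_exp_smul_const (𝕂 := ℝ) (-y) (0 : ℝ)
    simpa using this
  have h := (dE.mul_const b).mul dE'
  simp only [zero_smul, exp_zero, one_mul, mul_one, mul_neg] at h
  rw [sub_eq_add_neg]
  exact h

lemma deriv_main (φ : R →ₗ[ℝ] ℝ) (c : ℝ) (a a' b b' y : R) :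
    HasDerivAt (fun t : ℝ =>
      φ (((a' - exp (t • y) * b' * exp (t • (-y))) * (a - exp (t • y) * b * exp (t • (-y)))) *
        ((a' - exp (t • y) * b' * exp (t • (-y))) * (a - exp (t • y) * b * exp (t • (-y))))) +
      c * φ ((a' - exp (t • y) * b' * exp (t • (-y))) * (a - exp (t • y) * b * exp (t • (-y)))))
      (φ ((-(y * b' - b' * y) * (a - b) + (a' - b') * -(y * b - b * y)) * ((a' - b') * (a - b)) +
        ((a' - b') * (a - b)) * (-(y * b' - b' * y) * (a - b) + (a' - b') * -(y * b - b * y))) +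
        c * φ (-(y * b' - b' * y) * (a - b) + (a' - b') * -(y * b - b * y))) 0 := by
  have : CompleteSpace R := FiniteDimensional.complete ℝ R
  have dS := (deriv_conj y b).const_sub a
  have dT := (deriv_conj y b').const_sub a'
  have dTS := dT.mul dS
  have dQ := dTS.mul dTS
  simp only [zero_smul, exp_zero, one_mul, mul_one] at dTS dQ
  have d1 := (LinearMap.toContinuousLinearMap φ).hasFDerivAt.comp_hasDerivAt (0 : ℝ) dQ
  have d2 := ((LinearMap.toContinuousLinearMap φ).hasFDerivAt.comp_hasDerivAt (0 : ℝ)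
    dTS).const_mul c
  have h := d1.add d2
  simp only [Pi.mul_apply, zero_smul, exp_zero, one_mul, mul_one] at h
  exact h

end abs

lemma crit_cond (A B Y : Matrix (Fin n) (Fin n) ℂ) (ε : ℝ) (hY : Yᴴ = -Y)
    (hmin : ∀ t : ℝ, Fn ε (A - B) ≤ Fn ε (A - exp (t • Y) * B * exp (t • (-Y)))) :
    rt (Y * (B * ((A - B)ᴴ * (A - B) * (A - B)ᴴ + ε • (A - B)ᴴ) -
      ((A - B)ᴴ * (A - B) * (A - B)ᴴ + ε • (A - B)ᴴ) * B)) = 0 := by
  set S := A - B with hS
  have hT : Aᴴ - Bᴴ = Sᴴ := by rw [hS, conjTranspose_sub]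
  set D := Y * B - B * Y with hD
  set D' := Y * Bᴴ - Bᴴ * Y with hD'
  have hDD : Dᴴ = D' := by
    rw [hD, hD', conjTranspose_sub, conjTranspose_mul, conjTranspose_mul, hY]
    simp only [Matrix.mul_neg, Matrix.neg_mul]
    abel
  have hd : HasDerivAt (fun t : ℝ => Fn ε (A - exp (t • Y) * B * exp (t • (-Y))))
      (rt ((-D' * S + Sᴴ * -D) * (Sᴴ * S) + (Sᴴ * S) * (-D' * S + Sᴴ * -D)) +
        2 * ε * rt (-D' * S + Sᴴ * -D)) 0 := by
    have key := open scoped Matrix.Norms.Operator in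
      deriv_main (R := Matrix (Fin n) (Fin n) ℂ) (rtL n) (2 * ε) A Aᴴ B Bᴴ Y
    rw [hT] at key
    refine key.congr_of_eventuallyEq (Filter.Eventually.of_forall fun t => ?_)
    have hEs : (exp (t • Y))ᴴ = exp (t • (-Y)) := by
      rw [← exp_conjTranspose, conjTranspose_smul, hY, star_trivial]
    have hEs' : (exp (t • (-Y)))ᴴ = exp (t • Y) := by
      rw [← hEs, conjTranspose_conjTranspose]
    have hST : (A - exp (t • Y) * B * exp (t • (-Y)))ᴴ =
        Aᴴ - exp (t • Y) * Bᴴ * exp (t • (-Y)) := by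
      rw [conjTranspose_sub, conjTranspose_mul, conjTranspose_mul, hEs, hEs', Matrix.mul_assoc]
    show Fn ε _ = _
    rw [Fn, sq, sq, conjTranspose_mul, conjTranspose_conjTranspose, hST]
    rfl
  have hloc : IsLocalMin (fun t : ℝ => Fn ε (A - exp (t • Y) * B * exp (t • (-Y)))) 0 := by
    refine Filter.Eventually.of_forall fun t => ?_
    have := hmin t
    simpa using this
  have h0 := hloc.hasDerivAt_eq_zero hd
  have k1 : rt (-D' * S + Sᴴ * -D) = - (2 * rt (Sᴴ * D)) := by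
    have : rt (D' * S) = rt (Sᴴ * D) := by
      rw [← rt_conj, conjTranspose_mul, ← hDD, conjTranspose_conjTranspose]
    rw [rt_add, Matrix.neg_mul, Matrix.mul_neg, rt_neg, rt_neg, this]
    ring
  have k2 : rt ((-D' * S + Sᴴ * -D) * (Sᴴ * S) + (Sᴴ * S) * (-D' * S + Sᴴ * -D)) =
      - (4 * rt (Sᴴ * S * Sᴴ * D)) := by
    have c1 : rt (D' * S * (Sᴴ * S)) = rt (Sᴴ * S * Sᴴ * D) := by
      rw [← rt_conj]
      simp only [conjTranspose_mul, conjTranspose_conjTranspose, ← hDD, Matrix.mul_assoc]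
    have c2 : rt (Sᴴ * D * (Sᴴ * S)) = rt (Sᴴ * S * Sᴴ * D) := by
      rw [rt_mul_comm]
      simp only [Matrix.mul_assoc]
    have c3 : rt (Sᴴ * S * (D' * S)) = rt (Sᴴ * S * Sᴴ * D) := by
      rw [rt_mul_comm, c1]
    have c4 : rt (Sᴴ * S * (Sᴴ * D)) = rt (Sᴴ * S * Sᴴ * D) := by
      simp only [Matrix.mul_assoc]
    simp only [Matrix.neg_mul, Matrix.mul_neg, Matrix.add_mul, Matrix.mul_add, rt_add, rt_neg, c1,
      c2, c3, c4]
    ring
  rw [k2, k1] at h0
  have h1 : rt ((Sᴴ * S * Sᴴ + ε • Sᴴ) * D) = 0 := by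
    rw [Matrix.add_mul, rt_add, Matrix.smul_mul, rt_smul]
    linarith
  have h2 : rt ((Sᴴ * S * Sᴴ + ε • Sᴴ) * D) = rt (Y * (B * (Sᴴ * S * Sᴴ + ε • Sᴴ) -
      (Sᴴ * S * Sᴴ + ε • Sᴴ) * B)) := by
    generalize Sᴴ * S * Sᴴ + ε • Sᴴ = W
    rw [hD, Matrix.mul_sub, Matrix.mul_sub, rt_sub, rt_sub]
    congr 1
    · rw [rt_mul_comm, Matrix.mul_assoc]
    · rw [← Matrix.mul_assoc, rt_mul_comm]
  rw [← h2, h1]

end Pool.Agent.H173R2.HW
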