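import Pool.Agent.H173R2.HWB

set_option autoImplicit false

namespace Pool.Agent.H173R2.HW

open Matrix NormedSpace

variable {n : ℕ}

/-- the unitary matrices -/
def Us (n : ℕ) : Set (Matrix (Fin n) (Fin n) ℂ) := {U | Uᴴ * U = 1}

lemma Us_right {U : Matrix (Fin n) (Fin n) ℂ} (hU : U ∈ Us n) : U * Uᴴ = 1 :=
  mul_eq_one_comm.1 hU

lemma Us_col {U : Matrix (Fin n) (Fin n) ℂ} (hU : U ∈ Us n) (j : Fin n) :
    ∑ i, ‖U i j‖ ^ 2 = 1 := by
  have h : (Uᴴ * U) j j = 1 := by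
    rw [show Uᴴ * U = 1 from hU, one_apply_eq]
  rw [mul_apply] at h
  have h2 := congrArg Complex.re h
  rw [Complex.re_sum, Complex.one_re] at h2
  rw [← h2]
  refine Finset.sum_congr rfl fun i _ => ?_
  rw [conjTranspose_apply, RCLike.star_def, ← Complex.normSq_eq_conj_mul_self,
    Complex.ofReal_re, Complex.normSq_eq_norm_sq]

lemma Us_star {U : Matrix (Fin n) (Fin n) ℂ} (hU : U ∈ Us n) : Uᴴ ∈ Us n := by
  show Uᴴᴴ * Uᴴ = 1
  rw [conjTranspose_conjTranspose]
  exact Us_right hU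

lemma Us_row {U : Matrix (Fin n) (Fin n) ℂ} (hU : U ∈ Us n) (i : Fin n) :
    ∑ j, ‖U i j‖ ^ 2 = 1 := by
  have h := Us_col (Us_star hU) i
  simpa [conjTranspose_apply] using h

lemma isCompact_Us : IsCompact (Us n) := by
  have hK : IsCompact (Set.pi Set.univ fun _ : Fin n => Set.pi Set.univ fun _ : Fin n =>
      Metric.closedBall (0 : ℂ) 1) :=
    isCompact_univ_pi fun _ => isCompact_univ_pi fun _ => isCompact_closedBall 0 1
  refine IsCompact.of_isClosed_subset (X := Fin n → Fin n → ℂ) hK ?_ ?_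
  · have : IsClosed {U : Matrix (Fin n) (Fin n) ℂ | Uᴴ * U = 1} :=
      isClosed_eq (by fun_prop) continuous_const
    exact this
  · intro U hU
    rw [Set.mem_univ_pi]
    intro i
    rw [Set.mem_univ_pi]
    intro j
    rw [mem_closedBall_zero_iff]
    have h1 := Us_col (U := U) hU j
    have h2 : ‖U i j‖ ^ 2 ≤ 1 := by
      rw [← h1]
      exact Finset.single_le_sum (f := fun i => ‖U i j‖ ^ 2) (fun i _ => sq_nonneg _)
        (Finset.mem_univ i)
    have h3 := norm_nonneg (U i j)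
    nlinarith

lemma sq_mul_unitary (X : Matrix (Fin n) (Fin n) ℂ) {U : Matrix (Fin n) (Fin n) ℂ}
    (hU : U ∈ Us n) : sq (X * U) = sq X := by
  rw [sq, conjTranspose_mul, Matrix.mul_assoc, rt_mul_comm]
  have : Xᴴ * (X * U) * Uᴴ = Xᴴ * X * (U * Uᴴ) := by simp only [Matrix.mul_assoc]
  rw [this, Us_right hU, Matrix.mul_one, sq]

lemma sq_unitary_mul (X : Matrix (Fin n) (Fin n) ℂ) {U : Matrix (Fin n) (Fin n) ℂ}
    (hU : U ∈ Us n) : sq (U * X) = sq X := by
  rw [sq, conjTranspose_mul]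
  have : Xᴴ * Uᴴ * (U * X) = Xᴴ * (Uᴴ * U) * X := by simp only [Matrix.mul_assoc]
  rw [this, show Uᴴ * U = 1 from hU, Matrix.mul_one, sq]

lemma sq_Ll (α β : Fin n → ℂ) {U : Matrix (Fin n) (Fin n) ℂ} (hU : U ∈ Us n) :
    sq (Ll (diagonal α) (U * diagonal β * Uᴴ)) =
      ∑ i, ∑ j, ‖U i j‖ ^ 2 * ‖α i - β j‖ ^ 4 := by
  rw [← sq_mul_unitary _ hU, sq_eq]
  refine Finset.sum_congr rfl fun i _ => Finset.sum_congr rfl fun j _ => ?_
  have hU' : Uᴴ * U = 1 := hU
  have h1 : U * diagonal β * Uᴴ * U = U * diagonal β := by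
    rw [Matrix.mul_assoc, hU', Matrix.mul_one]
  have h2 : (U * diagonal β * Uᴴ)ᴴ * U = U * (diagonal β)ᴴ := by
    rw [conjTranspose_mul, conjTranspose_mul, conjTranspose_conjTranspose, Matrix.mul_assoc,
      Matrix.mul_assoc, hU', Matrix.mul_one]
  have h3 : Ll (diagonal α) (U * diagonal β * Uᴴ) * U =
      (diagonal α)ᴴ * (diagonal α * U - U * diagonal β) -
        (diagonal α * U - U * diagonal β) * (diagonal β)ᴴ := by
    rw [Ll, Matrix.sub_mul, Matrix.mul_assoc, Matrix.sub_mul, h1, Matrix.mul_assoc, h2,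
      ← Matrix.mul_assoc, Matrix.sub_mul, h1]
  have h4 : (Ll (diagonal α) (U * diagonal β * Uᴴ) * U) i j =
      ((starRingEnd ℂ) (α i - β j) * (α i - β j)) * U i j := by
    rw [h3]
    simp only [Matrix.sub_apply, diagonal_conjTranspose, diagonal_mul, mul_diagonal, Pi.star_apply,
      RCLike.star_def, map_sub]
    ring
  rw [h4, norm_mul, norm_mul, RCLike.norm_conj]
  ring

lemma birkhoff_le (w c : Fin n → Fin n → ℝ) (hw0 : ∀ i j, 0 ≤ w i j)
    (hwr : ∀ i, ∑ j, w i j = 1) (hwc : ∀ j, ∑ i, w i j = 1) :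
    ∃ σ : Equiv.Perm (Fin n), ∑ i, c i (σ i) ≤ ∑ i, ∑ j, w i j * c i j := by
  have hM : (Matrix.of w) ∈ doublyStochastic ℝ (Fin n) := by
    rw [mem_doublyStochastic_iff_sum]
    exact ⟨hw0, hwr, hwc⟩
  obtain ⟨v, hv0, hv1, hv⟩ := exists_eq_sum_perm_of_mem_doublyStochastic hM
  by_contra hcon
  push Not at hcon
  have h1 : ∑ i, ∑ j, w i j * c i j = ∑ σ : Equiv.Perm (Fin n), v σ * ∑ i, c i (σ i) := by
    have h2 : ∀ i j, w i j = ∑ σ : Equiv.Perm (Fin n), v σ * (if σ i = j then 1 else 0) := by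
      intro i j
      have h3 := congrFun (congrFun hv i) j
      rw [Matrix.sum_apply] at h3
      rw [show w i j = Matrix.of w i j from rfl, ← h3]
      refine Finset.sum_congr rfl fun σ _ => ?_
      simp [Matrix.smul_apply, Equiv.Perm.permMatrix, PEquiv.toMatrix_apply, Equiv.toPEquiv_apply,
        eq_comm]
    calc ∑ i, ∑ j, w i j * c i j
        = ∑ i, ∑ j, ∑ σ : Equiv.Perm (Fin n), v σ * ((if σ i = j then 1 else 0) * c i j) := by
          refine Finset.sum_congr rfl fun i _ => Finset.sum_congr rfl fun j _ => ?_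
          rw [h2 i j, Finset.sum_mul]
          exact Finset.sum_congr rfl fun σ _ => by ring
      _ = ∑ σ : Equiv.Perm (Fin n), ∑ i, ∑ j, v σ * ((if σ i = j then 1 else 0) * c i j) := by
          exact (Finset.sum_congr rfl fun i _ => Finset.sum_comm).trans Finset.sum_comm
      _ = ∑ σ : Equiv.Perm (Fin n), v σ * ∑ i, c i (σ i) := by
          refine Finset.sum_congr rfl fun σ _ => ?_
          rw [Finset.mul_sum]
          refine Finset.sum_congr rfl fun i _ => ?_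
          rw [← Finset.mul_sum]
          congr 1
          simp
  rw [h1] at hcon
  set m := ∑ σ : Equiv.Perm (Fin n), v σ * ∑ i, c i (σ i) with hm
  have h4 : ∑ σ : Equiv.Perm (Fin n), v σ * m < ∑ σ : Equiv.Perm (Fin n), v σ * ∑ i, c i (σ i) := by
    obtain ⟨σ0, hσ0⟩ : ∃ σ, 0 < v σ := by
      by_contra h
      push Not at h
      have : ∑ σ, v σ ≤ 0 := Finset.sum_nonpos fun σ _ => h σ
      linarith
    refine Finset.sum_lt_sum (fun σ _ => mul_le_mul_of_nonneg_left (hcon σ).le (hv0 σ)) ?_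
    exact ⟨σ0, Finset.mem_univ _, mul_lt_mul_of_pos_left (hcon σ0) hσ0⟩
  rw [← Finset.sum_mul, hv1, one_mul, ← hm] at h4
  exact lt_irrefl _ h4

lemma exp_unitary {Y : Matrix (Fin n) (Fin n) ℂ} (hY : Yᴴ = -Y) (t : ℝ) :
    (exp (t • Y))ᴴ = exp (t • (-Y)) := by
  rw [← exp_conjTranspose, conjTranspose_smul, hY, star_trivial]

lemma exp_mul_neg (Y : Matrix (Fin n) (Fin n) ℂ) (t : ℝ) :
    exp (t • (-Y)) * exp (t • Y) = 1 := by
  have hc : Commute (t • (-Y)) (t • Y) := by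
    rw [smul_neg]
    exact (Commute.refl (t • Y)).neg_left
  rw [← Matrix.exp_add_of_commute _ _ hc, smul_neg, neg_add_cancel, exp_zero]

/-- the inequality for a diagonal matrix and a unitary conjugate of another one, regularised -/
lemma main_eps (α β : Fin n → ℂ) {ε : ℝ} (hε : 0 < ε) :
    ∃ σ : Equiv.Perm (Fin n), ∀ U ∈ Us n, ∑ i, ‖α i - β (σ i)‖ ^ 4 ≤
      Fn ε (diagonal α - U * diagonal β * Uᴴ) := by
  have hcont : Continuous fun U : Matrix (Fin n) (Fin n) ℂ =>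
      Fn ε (diagonal α - U * diagonal β * Uᴴ) := by
    unfold Fn sq rt
    fun_prop
  obtain ⟨U, hU, hmin⟩ := isCompact_Us.exists_isMinOn
    ⟨(1 : Matrix (Fin n) (Fin n) ℂ), by show (1 : Matrix (Fin n) (Fin n) ℂ)ᴴ * 1 = 1; simp⟩
    hcont.continuousOn
  set A : Matrix (Fin n) (Fin n) ℂ := diagonal α with hA
  set B := U * diagonal β * Uᴴ with hB
  have hU' : Uᴴ * U = 1 := hU
  have hAn : Aᴴ * A = A * Aᴴ := by
    rw [hA, diagonal_conjTranspose, diagonal_mul_diagonal, diagonal_mul_diagonal]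
    congr 1
    funext i
    exact mul_comm _ _
  have hBh : Bᴴ = U * (diagonal β)ᴴ * Uᴴ := by
    rw [hB, conjTranspose_mul, conjTranspose_mul, conjTranspose_conjTranspose, Matrix.mul_assoc]
  have hBn : Bᴴ * B = B * Bᴴ := by
    have e1 : Bᴴ * B = U * ((diagonal β)ᴴ * diagonal β) * Uᴴ := by
      rw [hBh, hB]
      have : U * (diagonal β)ᴴ * Uᴴ * (U * diagonal β * Uᴴ) =
          U * (diagonal β)ᴴ * (Uᴴ * U) * (diagonal β * Uᴴ) := by simp only [Matrix.mul_assoc]
      rw [this, hU']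
      simp only [Matrix.mul_one, Matrix.mul_assoc]
    have e2 : B * Bᴴ = U * (diagonal β * (diagonal β)ᴴ) * Uᴴ := by
      rw [hBh, hB]
      have : U * diagonal β * Uᴴ * (U * (diagonal β)ᴴ * Uᴴ) =
          U * diagonal β * (Uᴴ * U) * ((diagonal β)ᴴ * Uᴴ) := by simp only [Matrix.mul_assoc]
      rw [this, hU']
      simp only [Matrix.mul_one, Matrix.mul_assoc]
    rw [e1, e2, diagonal_conjTranspose, diagonal_mul_diagonal, diagonal_mul_diagonal]
    congr 3
    funext i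
    exact mul_comm _ _
  obtain ⟨Y, hY, hYG⟩ := lyap A B hε
  have hcrit := crit_cond A B Y ε hY (by
    intro t
    have hmem : exp (t • Y) * U ∈ Us n := by
      show (exp (t • Y) * U)ᴴ * (exp (t • Y) * U) = 1
      rw [conjTranspose_mul, exp_unitary hY]
      have : Uᴴ * exp (t • (-Y)) * (exp (t • Y) * U) =
          Uᴴ * (exp (t • (-Y)) * exp (t • Y)) * U := by simp only [Matrix.mul_assoc]
      rw [this, exp_mul_neg, Matrix.mul_one, hU']
    have h := hmin hmem
    simp only [Set.mem_ofPred_eq] at h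
    have e : exp (t • Y) * U * diagonal β * (exp (t • Y) * U)ᴴ =
        exp (t • Y) * B * exp (t • (-Y)) := by
      rw [conjTranspose_mul, exp_unitary hY, hB]
      simp only [Matrix.mul_assoc]
    rw [e] at h
    exact h)
  have hkey := crit_le hAn hBn hε.le Y hY hYG hcrit
  rw [hA, hB, sq_Ll α β hU] at hkey
  obtain ⟨σ, hσ⟩ := birkhoff_le (fun i j => ‖U i j‖ ^ 2) (fun i j => ‖α i - β j‖ ^ 4)
    (fun i j => sq_nonneg _) (Us_row hU) (Us_col hU)
  refine ⟨σ, fun V hV => ?_⟩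
  have h1 := hmin hV
  simp only [Set.mem_ofPred_eq] at h1
  refine le_trans ?_ h1
  have h2 : sq ((A - B)ᴴ * (A - B)) ≤ Fn ε (A - B) := by
    unfold Fn
    have := sq_nonneg' (A - B)
    have : 0 ≤ 2 * ε * sq (A - B) := by positivity
    linarith
  exact (hσ.trans hkey).trans h2

theorem main_diag (α β : Fin n → ℂ) :
    ∃ σ : Equiv.Perm (Fin n), ∀ U ∈ Us n, ∑ i, ‖α i - β (σ i)‖ ^ 4 ≤
      sq ((diagonal α - U * diagonal β * Uᴴ)ᴴ * (diagonal α - U * diagonal β * Uᴴ)) := by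
  obtain ⟨σ, -, hσ⟩ := Finset.exists_min_image (Finset.univ : Finset (Equiv.Perm (Fin n)))
    (fun σ => ∑ i, ‖α i - β (σ i)‖ ^ 4) ⟨1, Finset.mem_univ _⟩
  refine ⟨σ, fun U hU => ?_⟩
  set S := diagonal α - U * diagonal β * Uᴴ with hS
  have h : ∀ ε : ℝ, 0 < ε → ∑ i, ‖α i - β (σ i)‖ ^ 4 ≤ sq (Sᴴ * S) + 2 * ε * sq S := by
    intro ε hε
    obtain ⟨τ, hτ⟩ := main_eps α β hε
    exact (hσ τ (Finset.mem_univ _)).trans (hτ U hU)
  refine le_of_forall_pos_le_add fun δ hδ => ?_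
  have hs := sq_nonneg' S
  have h1 := h (δ / (2 * (sq S + 1))) (by positivity)
  refine h1.trans ?_
  have : 2 * (δ / (2 * (sq S + 1))) * sq S ≤ δ := by
    have e : 2 * (δ / (2 * (sq S + 1))) * sq S = δ * (sq S / (sq S + 1)) := by
      field_simp
    rw [e]
    have : sq S / (sq S + 1) ≤ 1 := by
      rw [div_le_one (by positivity)]
      linarith
    nlinarith
  linarith

end Pool.Agent.H173R2.HW
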