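import Pool.Agent.H173R2.HWC

set_option autoImplicit false

namespace Pool.Agent.H173R2.HW

open Matrix

variable {n : ℕ}

section joint

variable {E : Type*} [NormedAddCommGroup E] [InnerProductSpace ℂ E] [FiniteDimensional ℂ E]

/-- commuting symmetric operators have an orthonormal basis of joint eigenvectors -/
lemma joint_basis (hn : Module.finrank ℂ E = n) (S T : E →ₗ[ℂ] E) (hS : S.IsSymmetric)
    (hT : T.IsSymmetric) (hST : Commute S T) :
    ∃ b : OrthonormalBasis (Fin n) ℂ E, ∃ x y : Fin n → ℂ, ∀ i, S (b i) = x i • b i ∧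
      T (b i) = y i • b i := by
  classical
  let V : Module.End.Eigenvalues S × Module.End.Eigenvalues T → Submodule ℂ E := fun p =>
    Module.End.eigenspace S (p.1 : ℂ) ⊓ Module.End.eigenspace T (p.2 : ℂ)
  have hV' : OrthogonalFamily ℂ (fun p => V p) fun p => (V p).subtypeₗᵢ :=
    OrthogonalFamily.of_pairwise fun i j hij v hv => by
      obtain (h₁ | h₂) : i.1 ≠ j.1 ∨ i.2 ≠ j.2 := by
        rwa [Ne.eq_def, Prod.ext_iff, not_and_or] at hij
      · intro w hw
        exact hS.orthogonalFamily_eigenspaces.pairwise (fun h => h₁ (Subtype.ext h)) hv.1 w hw.1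
      · intro w hw
        exact hT.orthogonalFamily_eigenspaces.pairwise (fun h => h₂ (Subtype.ext h)) hv.2 w hw.2
  have htop : (⨆ p, V p) = ⊤ := by
    rw [eq_top_iff, ← hS.iSup_iSup_eigenspace_inf_eigenspace_eq_top_of_commute hT hST]
    refine iSup_le fun α => iSup_le fun γ => ?_
    by_cases h1 : Module.End.HasEigenvalue S α
    · by_cases h2 : Module.End.HasEigenvalue T γ
      · exact le_iSup V (⟨α, h1⟩, ⟨γ, h2⟩)
      · have : Module.End.eigenspace T γ = ⊥ := by
          by_contra h
          exact h2 h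
        rw [this, inf_bot_eq]
        exact bot_le
    · have : Module.End.eigenspace S α = ⊥ := by
        by_contra h
        exact h1 h
      rw [this, bot_inf_eq]
      exact bot_le
  have hV : DirectSum.IsInternal V := by
    rw [OrthogonalFamily.isInternal_iff hV', htop, Submodule.top_orthogonal_eq_bot]
  refine ⟨hV.subordinateOrthonormalBasis hn hV',
    fun i => ((hV.subordinateOrthonormalBasisIndex hn i hV').1 : ℂ),
    fun i => ((hV.subordinateOrthonormalBasisIndex hn i hV').2 : ℂ), fun i => ?_⟩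
  have h := hV.subordinateOrthonormalBasis_subordinate hn i hV'
  exact ⟨Module.End.mem_eigenspace_iff.1 h.1, Module.End.mem_eigenspace_iff.1 h.2⟩

end joint

/-- the spectral theorem for normal matrices -/
theorem normal_diag (A : Matrix (Fin n) (Fin n) ℂ) (hA : Aᴴ * A = A * Aᴴ) :
    ∃ V ∈ Us n, ∃ α : Fin n → ℂ, A = V * diagonal α * Vᴴ := by
  set X := A + Aᴴ with hX
  set Y := Complex.I • (A - Aᴴ) with hY
  have hXh : X.IsHermitian := by
    show Xᴴ = X
    rw [hX, conjTranspose_add, conjTranspose_conjTranspose, add_comm]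
  have hYh : Y.IsHermitian := by
    show Yᴴ = Y
    rw [hY, conjTranspose_smul, conjTranspose_sub, conjTranspose_conjTranspose, RCLike.star_def,
      Complex.conj_I, neg_smul, ← smul_neg, neg_sub]
  have hXY : X * Y = Y * X := by
    have h : (A + Aᴴ) * (A - Aᴴ) = (A - Aᴴ) * (A + Aᴴ) := by
      simp only [Matrix.add_mul, Matrix.mul_add, Matrix.mul_sub, Matrix.sub_mul, hA]
      abel
    rw [hX, hY, Matrix.mul_smul, Matrix.smul_mul, h]
  have hS := isSymmetric_toEuclideanLin_iff.2 hXh
  have hT := isSymmetric_toEuclideanLin_iff.2 hYh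
  have hST : Commute X.toEuclideanLin Y.toEuclideanLin := by
    show X.toEuclideanLin * Y.toEuclideanLin = Y.toEuclideanLin * X.toEuclideanLin
    ext v
    simp only [Module.End.mul_apply, toLpLin_apply, mulVec_mulVec, hXY]
  obtain ⟨b, x, y, hb⟩ := joint_basis (n := n) (by simp) _ _ hS hT hST
  have hAv : ∀ i, A *ᵥ (b i) = ((1 / 2 : ℂ) * (x i - Complex.I * y i)) • (b i : Fin n → ℂ) := by
    intro i
    have h1 : X *ᵥ (b i) = x i • (b i : Fin n → ℂ) := by
      have := congrArg (fun v : EuclideanSpace ℂ (Fin n) => (v : Fin n → ℂ)) (hb i).1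
      simpa [toLpLin_apply] using this
    have h2 : Y *ᵥ (b i) = y i • (b i : Fin n → ℂ) := by
      have := congrArg (fun v : EuclideanSpace ℂ (Fin n) => (v : Fin n → ℂ)) (hb i).2
      simpa [toLpLin_apply] using this
    have hAX : A = (1 / 2 : ℂ) • (X - Complex.I • Y) := by
      rw [hX, hY, smul_smul, Complex.I_mul_I, neg_smul, one_smul, sub_neg_eq_add]
      have : A + Aᴴ + (A - Aᴴ) = (2 : ℂ) • A := by
        rw [two_smul]
        abel
      rw [this, smul_smul]
      norm_num
    conv_lhs => rw [hAX]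
    rw [smul_mulVec, sub_mulVec, smul_mulVec, h1, h2, smul_smul, ← sub_smul, smul_smul]
  set V : Matrix (Fin n) (Fin n) ℂ := Matrix.of fun i j => (b j : Fin n → ℂ) i with hV
  have hVu : V ∈ Us n := by
    show Vᴴ * V = 1
    ext i j
    have h := orthonormal_iff_ite.1 b.orthonormal i j
    rw [Matrix.mul_apply, Matrix.one_apply, ← h]
    simp only [hV, conjTranspose_apply, of_apply, EuclideanSpace.inner_eq_star_dotProduct,
      dotProduct, Pi.star_apply]
    exact Finset.sum_congr rfl fun k _ => mul_comm _ _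
  refine ⟨V, hVu, fun i => (1 / 2 : ℂ) * (x i - Complex.I * y i), ?_⟩
  have hAV : A * V = V * diagonal (fun i => (1 / 2 : ℂ) * (x i - Complex.I * y i)) := by
    ext i j
    have h := congrFun (hAv j) i
    rw [mul_diagonal, Matrix.mul_apply]
    simp only [hV, of_apply]
    simp only [mulVec, dotProduct, Pi.smul_apply, smul_eq_mul] at h
    rw [h]
    ring
  rw [← hAV, Matrix.mul_assoc, Us_right hVu, Matrix.mul_one]

end Pool.Agent.H173R2.HW
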