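import Pool.Agent.H173R2.HWD

set_option autoImplicit false

namespace Pool.Agent.H173R2.HW

open Matrix
open scoped ComplexOrder

variable {n : ℕ}

lemma perm_of_map_eq (f g : Fin n → ℂ)
    (h : (Finset.univ : Finset (Fin n)).val.map f = (Finset.univ : Finset (Fin n)).val.map g) :
    ∃ σ : Equiv.Perm (Fin n), ∀ i, g (σ i) = f i := by
  classical
  have hc : ∀ c : ℂ, Fintype.card {i // f i = c} = Fintype.card {i // g i = c} := by
    intro c
    have h1 := congrArg (Multiset.count c) h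
    rw [Multiset.count_map, Multiset.count_map] at h1
    rw [Fintype.card_subtype, Fintype.card_subtype]
    simpa [Finset.card, eq_comm] using h1
  exact ⟨Equiv.ofFiberEquiv fun c => Fintype.equivOfCardEq (hc c), fun i =>
    Equiv.ofFiberEquiv_map _ i⟩

lemma perm_of_charpoly {V : Matrix (Fin n) (Fin n) ℂ} (hV : V ∈ Us n) (α α' : Fin n → ℂ)
    (h : (V * diagonal α' * Vᴴ).charpoly = ∏ i, (Polynomial.X - Polynomial.C (α i))) :
    ∃ σ : Equiv.Perm (Fin n), ∀ i, α (σ i) = α' i := by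
  have h1 : (V * diagonal α' * Vᴴ).charpoly = ∏ i, (Polynomial.X - Polynomial.C (α' i)) := by
    rw [charpoly_mul_comm, ← Matrix.mul_assoc, show Vᴴ * V = 1 from hV, Matrix.one_mul,
      charpoly_diagonal]
  rw [h1] at h
  apply perm_of_map_eq
  have h2 : ∀ f : Fin n → ℂ, (∏ i, (Polynomial.X - Polynomial.C (f i))).roots =
      (Finset.univ : Finset (Fin n)).val.map f := by
    intro f
    rw [← Polynomial.roots_multiset_prod_X_sub_C ((Finset.univ : Finset (Fin n)).val.map f),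
      Multiset.map_map]
    rfl
  rw [← h2, ← h2, h]

/-- the inequality for normal matrices, in terms of traces -/
theorem main_normal (A B : Matrix (Fin n) (Fin n) ℂ) (hA : Aᴴ * A = A * Aᴴ)
    (hB : Bᴴ * B = B * Bᴴ) (α β : Fin n → ℂ)
    (hα : A.charpoly = ∏ i, (Polynomial.X - Polynomial.C (α i)))
    (hβ : B.charpoly = ∏ i, (Polynomial.X - Polynomial.C (β i))) :
    ∃ σ : Equiv.Perm (Fin n), ∑ i, ‖α i - β (σ i)‖ ^ 4 ≤ sq ((A - B)ᴴ * (A - B)) := by
  obtain ⟨V, hV, α', hAV⟩ := normal_diag A hA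
  obtain ⟨W, hW, β', hBW⟩ := normal_diag B hB
  rw [hAV] at hα
  rw [hBW] at hβ
  obtain ⟨π, hπ⟩ := perm_of_charpoly hV α α' hα
  obtain ⟨ρ, hρ⟩ := perm_of_charpoly hW β β' hβ
  obtain ⟨σ, hσ⟩ := main_diag α' β'
  have hU : Vᴴ * W ∈ Us n := by
    show (Vᴴ * W)ᴴ * (Vᴴ * W) = 1
    rw [conjTranspose_mul, conjTranspose_conjTranspose]
    have : Wᴴ * V * (Vᴴ * W) = Wᴴ * (V * Vᴴ) * W := by simp only [Matrix.mul_assoc]
    rw [this, Us_right hV, Matrix.mul_one]
    exact hW
  have h := hσ _ hU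
  set S := diagonal α' - Vᴴ * W * diagonal β' * (Vᴴ * W)ᴴ with hS
  have hVV : V * Vᴴ = 1 := Us_right hV
  have hAB : A - B = V * S * Vᴴ := by
    rw [hS, hAV, hBW, Matrix.mul_sub, Matrix.sub_mul, conjTranspose_mul,
      conjTranspose_conjTranspose]
    congr 1
    have : V * (Vᴴ * W * diagonal β' * (Wᴴ * V)) * Vᴴ =
        (V * Vᴴ) * (W * diagonal β' * Wᴴ) * (V * Vᴴ) := by simp only [Matrix.mul_assoc]
    rw [this, hVV, Matrix.one_mul, Matrix.mul_one]
  have hsq : sq ((A - B)ᴴ * (A - B)) = sq (Sᴴ * S) := by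
    have e : (A - B)ᴴ * (A - B) = V * (Sᴴ * S) * Vᴴ := by
      rw [hAB, conjTranspose_mul, conjTranspose_mul, conjTranspose_conjTranspose]
      have : V * (Sᴴ * Vᴴ) * (V * S * Vᴴ) = V * (Sᴴ * (Vᴴ * V) * S) * Vᴴ := by
        simp only [Matrix.mul_assoc]
      rw [this, show Vᴴ * V = 1 from hV, Matrix.mul_one]
    rw [e, sq_mul_unitary _ (Us_star hV), sq_unitary_mul _ hV]
  rw [hsq]
  refine ⟨(π.symm.trans σ).trans ρ, ?_⟩
  refine le_trans (le_of_eq ?_) h
  rw [← Equiv.sum_comp π]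
  refine Finset.sum_congr rfl fun i _ => ?_
  rw [hπ i]
  simp only [Equiv.trans_apply, Equiv.symm_apply_apply]
  rw [hρ]

/-- the singular values of `X` (the square roots of the eigenvalues of `Xᴴ X`) -/
noncomputable def singularValue (X : Matrix (Fin n) (Fin n) ℂ) (i : Fin n) : ℝ :=
  Real.sqrt ((isHermitian_conjTranspose_mul_self X).eigenvalues i)

lemma sum_singular (X : Matrix (Fin n) (Fin n) ℂ) :
    ∑ i, singularValue X i ^ (4 : ℝ) = sq (Xᴴ * X) := by
  set hH := isHermitian_conjTranspose_mul_self X with hHdef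
  have h1 : sq (Xᴴ * X) = ∑ i, (hH.eigenvalues i) ^ 2 := by
    have hU : (hH.eigenvectorUnitary : Matrix (Fin n) (Fin n) ℂ) ∈ Us n := by
      have := Unitary.coe_star_mul_self hH.eigenvectorUnitary
      exact this
    have h2 : Xᴴ * X = (hH.eigenvectorUnitary : Matrix (Fin n) (Fin n) ℂ) *
        diagonal (RCLike.ofReal ∘ hH.eigenvalues) *
          (hH.eigenvectorUnitary : Matrix (Fin n) (Fin n) ℂ)ᴴ := by
      conv_lhs => rw [hH.spectral_theorem]
      rw [Unitary.conjStarAlgAut_apply]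
      rfl
    rw [congrArg sq h2, sq_mul_unitary _ (Us_star hU), sq_unitary_mul _ hU, sq_eq]
    refine Finset.sum_congr rfl fun i _ => ?_
    rw [Finset.sum_eq_single i]
    · simp
    · intro j _ hj
      rw [diagonal_apply_ne _ (Ne.symm hj)]
      simp
    · simp
  rw [h1]
  refine Finset.sum_congr rfl fun i _ => ?_
  have h0 : 0 ≤ hH.eigenvalues i := (posSemidef_conjTranspose_mul_self X).eigenvalues_nonneg i
  show (Real.sqrt (hH.eigenvalues i)) ^ (4 : ℝ) = _
  rw [show (4 : ℝ) = ((4 : ℕ) : ℝ) by norm_num, Real.rpow_natCast,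
    show 4 = 2 * 2 from rfl, pow_mul, Real.sq_sqrt h0]

end Pool.Agent.H173R2.HW
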