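import Mathlib

/-!
# Spreads and complete partial packings of `PG(3,q)`: definitions

Points of the projective space of a `K`-vector space `V` are represented by nonzero vectors,
lines by 2-dimensional subspaces.
-/

namespace Pool.Agent.H173R2.Packing

/-- A *spread* of the projective space of the `K`-vector space `V`: a set of lines
(2-dimensional subspaces) such that every point (every nonzero vector) lies on exactly one of
them. -/
def IsSpread {K V : Type*} [Field K] [AddCommGroup V] [Module K V]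
    (S : Set (Submodule K V)) : Prop :=
  (∀ ℓ ∈ S, Module.finrank K ℓ = 2) ∧ ∀ v : V, v ≠ 0 → ∃! ℓ, ℓ ∈ S ∧ v ∈ ℓ

/-- A *complete partial packing of deficiency `d`* of the projective space of `V` (used with
`V = K^4`, that is for `PG(3,q)` where `q` is the order of the finite field `K`): a set `P` of
`q^2 + q + 1 - d` pairwise disjoint spreads such that no spread is disjoint from all the members
of `P`. -/
def IsCompletePartialPacking {K V : Type*} [Field K] [Fintype K] [AddCommGroup V] [Module K V]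
    (d : ℕ) (P : Set (Set (Submodule K V))) : Prop :=
  (∀ S ∈ P, IsSpread S) ∧
  (∀ S ∈ P, ∀ T ∈ P, S ≠ T → Disjoint S T) ∧
  P.ncard + d = Fintype.card K ^ 2 + Fintype.card K + 1 ∧
  ∀ S : Set (Submodule K V), IsSpread S → ∃ T ∈ P, ¬ Disjoint S T

/-- `PG(3,q)` has a complete partial packing of deficiency `d`. -/
def HasDeficiency (q d : ℕ) : Prop :=
  ∃ (K : Type) (_ : Field K) (_ : Fintype K), Fintype.card K = q ∧
    ∃ P : Set (Set (Submodule K (Fin 4 → K))), IsCompletePartialPacking d P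

/-- The minimum positive deficiency `m(q)` of a complete partial packing of `PG(3,q)`
(with value `0` if there is none). -/
noncomputable def minDeficiency (q : ℕ) : ℕ := sInf {d | 0 < d ∧ HasDeficiency q d}

/-! ### transport along linear equivalences -/

section transport
variable {K V W : Type*} [Field K] [AddCommGroup V] [Module K V] [AddCommGroup W] [Module K W]

lemma map_injective (e : V ≃ₗ[K] W) :
    Function.Injective (Submodule.map (e : V →ₗ[K] W)) :=
  Submodule.map_injective_of_injective e.injective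

lemma IsSpread.map (e : V ≃ₗ[K] W) {S : Set (Submodule K V)} (hS : IsSpread S) :
    IsSpread (Submodule.map (e : V →ₗ[K] W) '' S) := by
  refine ⟨?_, ?_⟩
  · rintro _ ⟨ℓ, hℓ, rfl⟩
    rw [LinearEquiv.finrank_map_eq]
    exact hS.1 ℓ hℓ
  · intro w hw
    have hv : e.symm w ≠ 0 := by simpa using hw
    obtain ⟨ℓ, ⟨h1, h2⟩, hu⟩ := hS.2 (e.symm w) hv
    refine ⟨Submodule.map (e : V →ₗ[K] W) ℓ, ⟨⟨ℓ, h1, rfl⟩, ?_⟩, ?_⟩
    · exact ⟨e.symm w, h2, by simp⟩
    · rintro _ ⟨⟨ℓ', h3, rfl⟩, h4⟩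
      obtain ⟨v, hv1, hv2⟩ := h4
      have : e.symm w = v := by rw [← hv2]; simp
      rw [hu ℓ' ⟨h3, by rw [this]; exact hv1⟩]

lemma map_symm_map (e : V ≃ₗ[K] W) (S : Set (Submodule K W)) :
    Submodule.map (e : V →ₗ[K] W) '' (Submodule.map (e.symm : W →ₗ[K] V) '' S) = S := by
  rw [← Set.image_comp]
  have : (Submodule.map (e : V →ₗ[K] W)) ∘ (Submodule.map (e.symm : W →ₗ[K] V)) = id := by
    funext ℓ
    simp only [Function.comp_apply, id_eq]
    rw [← Submodule.map_comp]
    simp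
  rw [this, Set.image_id]

lemma IsCompletePartialPacking.map [Fintype K] (e : V ≃ₗ[K] W) {d : ℕ}
    {P : Set (Set (Submodule K V))} (hP : IsCompletePartialPacking d P) :
    IsCompletePartialPacking d
      ((fun S : Set (Submodule K V) => Submodule.map (e : V →ₗ[K] W) '' S) '' P) := by
  obtain ⟨h1, h2, h3, h4⟩ := hP
  have hinj : Function.Injective
      (fun S : Set (Submodule K V) => Submodule.map (e : V →ₗ[K] W) '' S) :=
    Set.image_injective.mpr (map_injective e)
  refine ⟨?_, ?_, ?_, ?_⟩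
  · rintro _ ⟨S, hS, rfl⟩
    exact (h1 S hS).map e
  · rintro _ ⟨S, hS, rfl⟩ _ ⟨T, hT, rfl⟩ hne
    rw [Set.disjoint_image_iff (map_injective e)]
    apply h2 S hS T hT
    rintro rfl
    exact hne rfl
  · rw [Set.ncard_image_of_injective _ hinj]
    exact h3
  · intro S hS
    obtain ⟨T, hT, hd⟩ := h4 _ (hS.map e.symm)
    refine ⟨_, ⟨T, hT, rfl⟩, ?_⟩
    intro hcon
    apply hd
    rw [← map_symm_map e S] at hcon
    exact (Set.disjoint_image_iff (map_injective e)).mp hcon

/-- If the projective space has a packing, then deficiency `1` is impossible. -/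
lemma no_deficiency_one [Fintype K] [Finite V] {Q : Set (Set (Submodule K V))}
    (hQ1 : ∀ S ∈ Q, IsSpread S) (hQ2 : ∀ S ∈ Q, ∀ T ∈ Q, S ≠ T → Disjoint S T)
    (hQ3 : Q.ncard = Fintype.card K ^ 2 + Fintype.card K + 1)
    (hQ4 : ∀ ℓ : Submodule K V, Module.finrank K ℓ = 2 → ∃ S ∈ Q, ℓ ∈ S)
    {P : Set (Set (Submodule K V))} (hP : IsCompletePartialPacking 1 P) : False := by
  classical
  obtain ⟨h1, h2, h3, h4⟩ := hP
  have hfin : Finite (Submodule K V) := inferInstance
  -- the lines through a point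
  have key : ∀ v : V, v ≠ 0 → ∃! ℓ : Submodule K V,
      ℓ ∈ {ℓ : Submodule K V | Module.finrank K ℓ = 2 ∧ ∀ T ∈ P, ℓ ∉ T} ∧ v ∈ ℓ := by
    intro v hv
    let A : Set (Submodule K V) := {ℓ | Module.finrank K ℓ = 2 ∧ v ∈ ℓ}
    -- choose the line of a spread through v
    have hch : ∀ S : Set (Submodule K V), ∃ ℓ : Submodule K V, IsSpread S → (ℓ ∈ S ∧ v ∈ ℓ) := by
      intro S
      by_cases hS : IsSpread S
      · obtain ⟨ℓ, hℓ, _⟩ := hS.2 v hv
        exact ⟨ℓ, fun _ => hℓ⟩
      · exact ⟨⊥, fun h => absurd h hS⟩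
    choose f hf using hch
    have hAcard : A.ncard = Fintype.card K ^ 2 + Fintype.card K + 1 := by
      have hAQ : A = f '' Q := by
        ext ℓ
        constructor
        · rintro ⟨hℓ, hvℓ⟩
          obtain ⟨S, hS, hℓS⟩ := hQ4 ℓ hℓ
          refine ⟨S, hS, ?_⟩
          exact ((hQ1 S hS).2 v hv).unique (hf S (hQ1 S hS)) ⟨hℓS, hvℓ⟩
        · rintro ⟨S, hS, rfl⟩
          have := hf S (hQ1 S hS)
          exact ⟨(hQ1 S hS).1 _ this.1, this.2⟩
      rw [hAQ, Set.ncard_image_of_injOn, hQ3]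
      intro S hS T hT hST
      by_contra hne
      have := hQ2 S hS T hT hne
      have hfS := (hf S (hQ1 S hS)).1
      have hfT := (hf T (hQ1 T hT)).1
      rw [← hST] at hfT
      exact (Set.disjoint_left.mp this) hfS hfT
    have hBsub : f '' P ⊆ A := by
      rintro _ ⟨S, hS, rfl⟩
      have := hf S (h1 S hS)
      exact ⟨(h1 S hS).1 _ this.1, this.2⟩
    have hBcard : (f '' P).ncard = Fintype.card K ^ 2 + Fintype.card K := by
      rw [Set.ncard_image_of_injOn]
      · omega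
      intro S hS T hT hST
      by_contra hne
      have := h2 S hS T hT hne
      have hfS := (hf S (h1 S hS)).1
      have hfT := (hf T (h1 T hT)).1
      rw [← hST] at hfT
      exact (Set.disjoint_left.mp this) hfS hfT
    have hdiff : (A \ f '' P).ncard = 1 := by
      rw [Set.ncard_sdiff hBsub, hAcard, hBcard]
      omega
    obtain ⟨ℓ0, hℓ0⟩ := Set.ncard_eq_one.mp hdiff
    have hiff : ∀ ℓ : Submodule K V,
        (ℓ ∈ {ℓ : Submodule K V | Module.finrank K ℓ = 2 ∧ ∀ T ∈ P, ℓ ∉ T} ∧ v ∈ ℓ) ↔ ℓ = ℓ0 := by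
      intro ℓ
      have : ℓ = ℓ0 ↔ ℓ ∈ A \ f '' P := by rw [hℓ0]; rfl
      rw [this]
      constructor
      · rintro ⟨⟨ha, hb⟩, hc⟩
        refine ⟨⟨ha, hc⟩, ?_⟩
        rintro ⟨S, hS, rfl⟩
        exact hb S hS (hf S (h1 S hS)).1
      · rintro ⟨⟨ha, hc⟩, hb⟩
        refine ⟨⟨ha, ?_⟩, hc⟩
        intro T hT hℓT
        apply hb
        refine ⟨T, hT, ?_⟩
        exact ((h1 T hT).2 v hv).unique (hf T (h1 T hT)) ⟨hℓT, hc⟩
    exact ⟨ℓ0, (hiff ℓ0).mpr rfl, fun ℓ hℓ => (hiff ℓ).mp hℓ⟩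
  have hspread : IsSpread {ℓ : Submodule K V | Module.finrank K ℓ = 2 ∧ ∀ T ∈ P, ℓ ∉ T} :=
    ⟨fun ℓ hℓ => hℓ.1, key⟩
  obtain ⟨T, hT, hd⟩ := h4 _ hspread
  apply hd
  rw [Set.disjoint_left]
  intro ℓ hℓ hℓT
  exact hℓ.2 T hT hℓT

end transport

end Pool.Agent.H173R2.Packing
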