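import Mathlib
import Pool.Agent.H173R2.PackDefs

set_option linter.unusedSectionVars false

namespace Pool.Agent.H173R2.Odd

open QuadraticAlgebra Pool.Agent.H173R2.Packing

variable {K : Type*} [Field K] {n : K}

/-- the quadratic extension -/
abbrev F (n : K) : Type _ := QuadraticAlgebra K n 0

variable [hn : Fact (∀ r : K, r ^ 2 ≠ n + 0 * r)]

/-- the graph line -/
noncomputable def gmap (α β : F n) : F n →ₗ[K] F n where
  toFun z := α * z + β * star z
  map_add' x y := by simp only [star_add]; ring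
  map_smul' k x := by
    ext <;> simp <;> ring

noncomputable def G (α β : F n) : Submodule K (F n × F n) := (gmap α β).graph

lemma mem_G {α β : F n} {p : F n × F n} : p ∈ G α β ↔ p.2 = α * p.1 + β * star p.1 := by
  simp [G, LinearMap.mem_graph_iff, gmap]

noncomputable def Linf (n : K) : Submodule K (F n × F n) := Submodule.prod ⊥ ⊤

lemma mem_Linf {p : F n × F n} : p ∈ Linf n ↔ p.1 = 0 := by
  simp [Linf, Submodule.mem_prod]

noncomputable def omap (δ b z : F n) : K × K →ₗ[K] F n × F n where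
  toFun p := (p.1 • z, p.2 • (δ * z) + p.1 • (b * z))
  map_add' x y := by
    ext <;> simp <;> ring
  map_smul' k x := by
    ext <;> simp <;> ring

noncomputable def O (δ b z : F n) : Submodule K (F n × F n) := (omap δ b z).range

lemma mem_O {δ b z : F n} {p : F n × F n} :
    p ∈ O δ b z ↔ ∃ s t : K, p = (s • z, t • (δ * z) + s • (b * z)) := by
  simp [O, LinearMap.mem_range, omap, eq_comm]

lemma finrank_G (α β : F n) : Module.finrank K (G α β) = 2 := by
  have h : G α β = (LinearMap.prod LinearMap.id (gmap α β)).range := by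
    ext p
    simp only [G, LinearMap.mem_graph_iff, LinearMap.mem_range]
    constructor
    · intro h; exact ⟨p.1, Prod.ext rfl (by simpa using h.symm)⟩
    · rintro ⟨y, rfl⟩; rfl
  rw [h, LinearMap.finrank_range_of_inj, finrank_eq_two]
  intro x y hxy
  simpa using congrArg Prod.fst hxy

lemma finrank_Linf : Module.finrank K (Linf n) = 2 := by
  have h : Linf n = (LinearMap.inr K (F n) (F n)).range := by
    ext p
    simp only [mem_Linf, LinearMap.mem_range, LinearMap.inr_apply]
    constructor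
    · intro h; exact ⟨p.2, by rw [← h]⟩
    · rintro ⟨y, rfl⟩; rfl
  rw [h, LinearMap.finrank_range_of_inj LinearMap.inr_injective, finrank_eq_two]

lemma finrank_O {δ b z : F n} (hδ : δ ≠ 0) (hz : z ≠ 0) : Module.finrank K (O δ b z) = 2 := by
  rw [O, LinearMap.finrank_range_of_inj]
  · simp
  · rw [← LinearMap.ker_eq_bot, LinearMap.ker_eq_bot']
    rintro ⟨s, t⟩ h
    simp only [omap, LinearMap.coe_mk, AddHom.coe_mk, Prod.mk_eq_zero, smul_eq_zero] at h
    obtain ⟨h1, h2⟩ := h
    have hs : s = 0 := by tauto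
    subst hs
    simp [hδ, hz] at h2
    simp [h2]

lemma O_smul {δ b z : F n} {k : K} (hk : k ≠ 0) : O δ b (k • z) = O δ b z := by
  ext p
  simp only [mem_O]
  constructor
  · rintro ⟨s, t, rfl⟩
    refine ⟨s * k, t * k, ?_⟩
    ext <;> simp <;> ring
  · rintro ⟨s, t, rfl⟩
    refine ⟨s / k, t / k, ?_⟩
    ext <;> simp <;> field_simp

/-! ### coordinates with respect to `z`, `β₀ z̄` -/

variable {β : F n}

lemma norm_ne {z : F n} (hz : z ≠ 0) : norm z ≠ 0 := by
  rwa [Ne, norm_eq_zero_iff_eq_zero]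

/-- the determinant of `z`, `β z̄` -/
noncomputable def det (β z : F n) : K := (star z * (β * star z)).im

lemma det_ne (hβ : ¬ IsSquare (norm β)) {z : F n} (hz : z ≠ 0) : det β z ≠ 0 := by
  intro h
  apply hβ
  have h1 : norm (star z * (β * star z)) = norm β * norm z ^ 2 := by
    simp only [map_mul, QuadraticAlgebra.norm_star]; ring
  have h2 : norm (star z * (β * star z)) = (star z * (β * star z)).re ^ 2 := by
    rw [norm_def]
    have : (star z * (β * star z)).im = 0 := h
    rw [this]; ring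
  have h3 := norm_ne hz
  refine ⟨(star z * (β * star z)).re / norm z, ?_⟩
  rw [div_mul_div_comm, eq_div_iff (mul_ne_zero h3 h3), ← sq, ← sq, ← h2, h1]

lemma exists_coord (hβ : ¬ IsSquare (norm β)) {z : F n} (hz : z ≠ 0) (y : F n) :
    ∃ d c : K, y = d • z + c • (β * star z) := by
  have hD := det_ne hβ hz
  refine ⟨- (star (β * star z) * y).im / det β z, (star z * y).im / det β z, ?_⟩
  have h1 : (star (β * star z) * z).im = - det β z := by
    simp [det]; ring
  ext
  · simp only [re_add, re_smul, smul_eq_mul]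
    field_simp
    simp [det]
    ring
  · simp only [im_add, im_smul, smul_eq_mul]
    field_simp
    simp [det]
    ring

lemma coord_unique (hβ : ¬ IsSquare (norm β)) {z : F n} (hz : z ≠ 0) {d c d' c' : K}
    (h : d • z + c • (β * star z) = d' • z + c' • (β * star z)) : d = d' ∧ c = c' := by
  have hD := det_ne hβ hz
  have e1 : (star z * (d • z + c • (β * star z))).im = c * det β z := by
    simp [det]; ring
  have e2 : (star z * (d' • z + c' • (β * star z))).im = c' * det β z := by
    simp [det]; ring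
  have hc : c = c' := by
    rw [h, e2] at e1
    exact (mul_right_cancel₀ hD e1).symm
  subst hc
  have h4 : d • z = d' • z := add_right_cancel h
  exact ⟨smul_left_injective K hz h4, rfl⟩

/-- the norm identity -/
lemma norm_identity {z : F n} (hz : z ≠ 0) {d c d' c' : K}
    (h : (omega : F n) * (d • z + c • (β * star z)) = d' • z + c' • (β * star z)) :
    d' ^ 2 - norm β * c' ^ 2 = n * (d ^ 2 - norm β * c ^ 2) := by
  have hz0 := norm_ne hz
  have hr := congrArg re h
  have hi := congrArg im h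
  simp at hr hi
  have key : (d' ^ 2 - norm β * c' ^ 2 - n * (d ^ 2 - norm β * c ^ 2)) * norm z = 0 := by
    simp only [norm_def]
    linear_combination
      (-((z.re * d' - n * z.im * d) + ((-z.re * c' - n * z.im * c) * β.re
        + n * (z.re * c + z.im * c') * β.im))) * hr
      + (-n * ((z.re * d - z.im * d') - ((-z.re * c' - n * z.im * c) * β.im
        + (z.re * c + z.im * c') * β.re))) * hi
  have := (mul_eq_zero.mp key).resolve_right hz0
  linear_combination this

/-! ### the spreads -/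


/-- the regular spread -/
def Sig (n : K) : Set (Submodule K (F n × F n)) := {ℓ | (∃ α, ℓ = G α 0) ∨ ℓ = Linf n}

/-- the Hall spreads -/
def Sp (β δ b : F n) : Set (Submodule K (F n × F n)) :=
  {ℓ | (∃ d c : K, c ≠ 0 ∧ ℓ = G (b + d • δ) (c • (β * star δ))) ∨ (∃ z, z ≠ 0 ∧ ℓ = O δ b z)}

lemma sig_spread : IsSpread (Sig n) := by
  refine ⟨?_, ?_⟩
  · rintro ℓ (⟨α, rfl⟩ | rfl)
    · exact finrank_G _ _
    · exact finrank_Linf
  · rintro ⟨x, y⟩ hv
    by_cases hx : x = 0
    · subst hx
      have hy : y ≠ 0 := by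
        rintro rfl; exact hv rfl
      refine ⟨Linf n, ⟨Or.inr rfl, by simp [mem_Linf]⟩, ?_⟩
      rintro ℓ ⟨⟨α, rfl⟩ | rfl, h⟩
      · rw [mem_G] at h; simp at h; exact absurd h hy
      · rfl
    · refine ⟨G (y / x) 0, ⟨Or.inl ⟨_, rfl⟩, by rw [mem_G]; field_simp; simp⟩, ?_⟩
      rintro ℓ ⟨⟨α, rfl⟩ | rfl, h⟩
      · rw [mem_G] at h; simp at h
        have : α = y / x := by rw [h]; field_simp
        rw [this]
      · rw [mem_Linf] at h; exact absurd h hx

lemma mem_G_iff {δ b : F n} {d c : K} {x y : F n} :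
    ((x, y) : F n × F n) ∈ G (b + d • δ) (c • (β * star δ)) ↔
      y - b * x = d • (δ * x) + c • (β * star (δ * x)) := by
  rw [mem_G]
  simp only [star_mul']
  constructor
  · intro h
    rw [h]
    ext <;> simp <;> ring
  · intro h
    rw [sub_eq_iff_eq_add] at h
    rw [h]
    ext <;> simp <;> ring

lemma O_eq_of_mem {δ b z x y : F n} (hx : x ≠ 0) (h : ((x, y) : F n × F n) ∈ O δ b z) :
    O δ b z = O δ b x := by
  obtain ⟨s, t, h⟩ := mem_O.mp h
  have hxs : x = s • z := congrArg Prod.fst h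
  have hs : s ≠ 0 := by rintro rfl; simp at hxs; exact hx hxs
  rw [hxs, O_smul hs]

lemma mem_O_self {δ b x y : F n} {d : K} (h : y - b * x = d • (δ * x)) :
    ((x, y) : F n × F n) ∈ O δ b x := by
  rw [mem_O]
  refine ⟨1, d, ?_⟩
  rw [sub_eq_iff_eq_add] at h
  rw [h]; simp

lemma coord_of_mem_O {δ b z x y : F n} (hx : x ≠ 0) (h : ((x, y) : F n × F n) ∈ O δ b z) :
    ∃ d : K, y - b * x = d • (δ * x) := by
  rw [O_eq_of_mem hx h] at h
  obtain ⟨s, t, h⟩ := mem_O.mp h
  have h1 : x = s • x := congrArg Prod.fst h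
  have h2 : y = t • (δ * x) + s • (b * x) := congrArg Prod.snd h
  have hs : s = 1 := by
    have : (1 - s) • x = 0 := by rw [sub_smul, one_smul, ← h1, sub_self]
    rcases smul_eq_zero.mp this with h | h
    · exact (sub_eq_zero.mp h).symm
    · exact absurd h hx
  subst hs
  refine ⟨t, ?_⟩
  rw [h2]; simp

lemma sp_spread (hβ : ¬ IsSquare (norm β)) {δ : F n} (b : F n) (hδ : δ ≠ 0) :
    IsSpread (Sp β δ b) := by
  refine ⟨?_, ?_⟩
  · rintro ℓ (⟨d, c, _, rfl⟩ | ⟨z, hz, rfl⟩)
    · exact finrank_G _ _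
    · exact finrank_O hδ hz
  · rintro ⟨x, y⟩ hv
    by_cases hx : x = 0
    · subst hx
      have hy : y ≠ 0 := by
        rintro rfl; exact hv rfl
      have hyd : y / δ ≠ 0 := div_ne_zero hy hδ
      refine ⟨O δ b (y / δ), ⟨Or.inr ⟨_, hyd, rfl⟩, ?_⟩, ?_⟩
      · rw [mem_O]
        refine ⟨0, 1, ?_⟩
        simp
        field_simp
      · rintro ℓ ⟨⟨d, c, _, rfl⟩ | ⟨z, hz, rfl⟩, h⟩
        · rw [mem_G] at h; simp at h; exact absurd h hy
        · obtain ⟨s, t, h⟩ := mem_O.mp h
          have h1 : 0 = s • z := congrArg Prod.fst h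
          have h2 : y = t • (δ * z) + s • (b * z) := congrArg Prod.snd h
          have hs : s = 0 := by
            rcases smul_eq_zero.mp h1.symm with h | h
            · exact h
            · exact absurd h hz
          subst hs
          have ht : t ≠ 0 := by rintro rfl; simp at h2; exact hy h2
          have : y / δ = t • z := by rw [h2]; field_simp; simp [mul_comm]
          rw [this, O_smul ht]
    · have hdx : δ * x ≠ 0 := mul_ne_zero hδ hx
      obtain ⟨d, c, hdc⟩ := exists_coord hβ hdx (y - b * x)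
      by_cases hc : c = 0
      · subst hc
        have hdc' : y - b * x = d • (δ * x) := by rw [hdc]; simp
        refine ⟨O δ b x, ⟨Or.inr ⟨x, hx, rfl⟩, mem_O_self hdc'⟩, ?_⟩
        rintro ℓ ⟨⟨d', c', hc', rfl⟩ | ⟨z, hz, rfl⟩, h⟩
        · rw [mem_G_iff, hdc] at h
          exact absurd (coord_unique hβ hdx h).2.symm hc'
        · exact O_eq_of_mem hx h
      · refine ⟨G (b + d • δ) (c • (β * star δ)), ⟨Or.inl ⟨d, c, hc, rfl⟩, mem_G_iff.mpr hdc⟩, ?_⟩
        rintro ℓ ⟨⟨d', c', hc', rfl⟩ | ⟨z, hz, rfl⟩, h⟩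
        · rw [mem_G_iff, hdc] at h
          obtain ⟨rfl, rfl⟩ := coord_unique hβ hdx h
          rfl
        · obtain ⟨d', hd'⟩ := coord_of_mem_O hx h
          have h3 : d • (δ * x) + c • (β * star (δ * x)) =
              d' • (δ * x) + (0 : K) • (β * star (δ * x)) := by
            rw [← hdc, hd']; simp
          exact absurd (coord_unique hβ hdx h3).2 hc

/-! ### the index set -/

/-- direction -/
def dir (n : K) : Option K → F n
  | none => ⟨1, 0⟩
  | some k => ⟨k, 1⟩

/-- offset -/
def off (n : K) : Option K → K → F n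
  | none, t => ⟨0, t⟩
  | some _, t => ⟨t, 0⟩

lemma dir_ne (o : Option K) : dir n o ≠ 0 := by
  cases o with
  | none => intro h; have := congrArg re h; simp [dir] at this
  | some k => intro h; have := congrArg im h; simp [dir] at this

lemma exists_dir {η : F n} (hη : η ≠ 0) : ∃ (o : Option K) (c : K), c ≠ 0 ∧ η = c • dir n o := by
  by_cases h : η.im = 0
  · refine ⟨none, η.re, ?_, ?_⟩
    · intro h2; exact hη (QuadraticAlgebra.ext h2 h)
    · ext <;> simp [dir, h]
  · refine ⟨some (η.re / η.im), η.im, h, ?_⟩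
    ext <;> simp [dir]
    field_simp

lemma exists_off (o : Option K) (α : F n) : ∃ t d : K, α = off n o t + d • dir n o := by
  cases o with
  | none => exact ⟨α.im, α.re, by ext <;> simp [off, dir]⟩
  | some k => exact ⟨α.re - α.im * k, α.im, by ext <;> simp [off, dir]⟩

lemma dir_inj {o o' : Option K} {c c' : K} (hc : c ≠ 0) (hc' : c' ≠ 0)
    (h : c • dir n o = c' • dir n o') : o = o' := by
  have hr := congrArg re h
  have hi := congrArg im h
  cases o <;> cases o' <;> simp [dir] at hr hi ⊢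
  · exact absurd hi.symm hc'
  · exact absurd hi hc
  · subst hi; exact mul_left_cancel₀ hc hr

lemma off_inj {o : Option K} {t t' d : K}
    (h : off n o t = off n o t' + d • dir n o) : t = t' := by
  have hr := congrArg re h
  have hi := congrArg im h
  cases o
  · simp [dir, off] at hi; exact hi
  · simp [dir, off] at hr hi; rw [← hi] at hr; simpa using hr

/-- the indexed spreads -/
def SpI (β : F n) (i : Option K × K) : Set (Submodule K (F n × F n)) :=
  Sp β (dir n i.1) (off n i.1 i.2)

lemma omega_sq : (omega : F n) * omega = algebraMap K (F n) n := by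
  ext <;> simp

lemma omega_ne : (omega : F n) ≠ 0 := by
  intro h; have := congrArg im h; simp at this

lemma G_inj (h2 : (2 : K) ≠ 0) {α α' β β' : F n} (h : G α β = G α' β') : α = α' ∧ β = β' := by
  have h1 : ((1, α + β) : F n × F n) ∈ G α' β' := by
    rw [← h, mem_G]; simp
  have h3 : ((omega, α * omega - β * omega) : F n × F n) ∈ G α' β' := by
    rw [← h, mem_G]
    have : star (omega : F n) = - omega := by ext <;> simp
    rw [this]; ring
  rw [mem_G] at h1 h3
  have hs : star (omega : F n) = - omega := by ext <;> simp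
  simp only [star_one, mul_one, hs] at h1 h3
  have h4 : α - β = α' - β' := by
    apply mul_right_cancel₀ (omega_ne (n := n))
    linear_combination h3
  have h20 : (2 : F n) ≠ 0 := by
    intro h
    apply h2
    have := congrArg re h
    simpa using this
  constructor
  · apply mul_left_cancel₀ h20
    linear_combination h1 + h4
  · apply mul_left_cancel₀ h20
    linear_combination h1 - h4

lemma G_ne_O {α β δ b z : F n} (hδ : δ ≠ 0) (hz : z ≠ 0) : G α β ≠ O δ b z := by
  intro h
  have : ((0, δ * z) : F n × F n) ∈ G α β := by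
    rw [h, mem_O]; exact ⟨0, 1, by simp⟩
  rw [mem_G] at this
  simp [hδ, hz] at this

lemma G_ne_Linf {α β : F n} : G α β ≠ Linf n := by
  intro h
  have : ((0, 1) : F n × F n) ∈ G α β := by
    rw [h, mem_Linf]
  rw [mem_G] at this
  simp at this

lemma O_ne_Linf {δ b z : F n} (hz : z ≠ 0) : O δ b z ≠ Linf n := by
  intro h
  have : ((z, b * z) : F n × F n) ∈ Linf n := by
    rw [← h, mem_O]; exact ⟨1, 0, by simp⟩
  rw [mem_Linf] at this
  exact hz this

lemma spI_disj (h2 : (2 : K) ≠ 0) (hβ0 : β ≠ 0) {i j : Option K × K} {ℓ : Submodule K (F n × F n)}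
    (hi : ℓ ∈ SpI β i) (hj : ℓ ∈ SpI β j) : i = j := by
  obtain ⟨o, t⟩ := i
  obtain ⟨o', t'⟩ := j
  rcases hi with ⟨d, c, hc, rfl⟩ | ⟨z, hz, rfl⟩
  · rcases hj with ⟨d', c', hc', h⟩ | ⟨z', hz', h⟩
    · obtain ⟨h3, h4⟩ := G_inj h2 h
      have h5 : c • dir n o = c' • dir n o' := by
        apply star_injective
        apply mul_left_cancel₀ hβ0
        have e1 : β * star (c • dir n o) = c • (β * star (dir n o)) := by
          ext <;> simp <;> ring
        have e2 : β * star (c' • dir n o') = c' • (β * star (dir n o')) := by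
          ext <;> simp <;> ring
        rw [e1, e2, h4]
      have ho := dir_inj hc hc' h5
      subst ho
      have h6 : off n o t = off n o t' + (d' - d) • dir n o := by
        rw [sub_smul]; simp only at h3; linear_combination h3
      rw [off_inj h6]
    · exact absurd h (G_ne_O (dir_ne _) hz')
  · rcases hj with ⟨d', c', hc', h⟩ | ⟨z', hz', h⟩
    · exact absurd h.symm (G_ne_O (dir_ne _) hz)
    · simp only at h
      have m1 : ((0, dir n o * z) : F n × F n) ∈ O (dir n o') (off n o' t') z' := by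
        rw [← h, mem_O]; exact ⟨0, 1, by simp⟩
      have m2 : ((z, off n o t * z) : F n × F n) ∈ O (dir n o') (off n o' t') z' := by
        rw [← h, mem_O]; exact ⟨1, 0, by simp⟩
      obtain ⟨s1, t1, e1⟩ := mem_O.mp m1
      obtain ⟨s2, t2, e2⟩ := mem_O.mp m2
      have a1 : 0 = s1 • z' := congrArg Prod.fst e1
      have a2 : dir n o * z = t1 • (dir n o' * z') + s1 • (off n o' t' * z') :=
        congrArg Prod.snd e1
      have b1 : z = s2 • z' := congrArg Prod.fst e2
      have b2 : off n o t * z = t2 • (dir n o' * z') + s2 • (off n o' t' * z') :=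
        congrArg Prod.snd e2
      have hs1 : s1 = 0 := by
        rcases smul_eq_zero.mp a1.symm with h | h
        · exact h
        · exact absurd h hz'
      subst hs1
      have hs2 : s2 ≠ 0 := by rintro rfl; simp at b1; exact hz b1
      subst b1
      have c1 : s2 • dir n o = t1 • dir n o' := by
        apply mul_right_cancel₀ hz'
        rw [smul_mul_assoc, smul_mul_assoc]
        rw [mul_smul_comm] at a2
        simpa using a2
      have ht1 : t1 ≠ 0 := by
        rintro rfl
        simp [hs2, dir_ne] at c1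
      have ho := dir_inj hs2 ht1 c1
      subst ho
      have c2 : s2 • off n o t = t2 • dir n o + s2 • off n o t' := by
        apply mul_right_cancel₀ hz'
        rw [add_mul, smul_mul_assoc, smul_mul_assoc, smul_mul_assoc]
        rw [mul_smul_comm] at b2
        exact b2
      have c3 : off n o t = off n o t' + (t2 / s2) • dir n o := by
        apply smul_right_injective _ hs2
        simp only [smul_add, smul_smul]
        rw [c2, mul_div_cancel₀ _ hs2, add_comm]
      rw [off_inj c3]

lemma sig_disj (h2 : (2 : K) ≠ 0) (hβ0 : β ≠ 0) {i : Option K × K} {ℓ : Submodule K (F n × F n)}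
    (hi : ℓ ∈ SpI β i) (hj : ℓ ∈ Sig n) : False := by
  rcases hi with ⟨d, c, hc, rfl⟩ | ⟨z, hz, rfl⟩
  · rcases hj with ⟨α, h⟩ | h
    · obtain ⟨_, h4⟩ := G_inj h2 h
      rcases smul_eq_zero.mp h4 with h | h
      · exact hc h
      · rcases mul_eq_zero.mp h with h | h
        · exact hβ0 h
        · exact dir_ne _ (star_eq_zero.mp h)
    · exact G_ne_Linf h
  · rcases hj with ⟨α, h⟩ | h
    · exact G_ne_O (dir_ne _) hz h.symm
    · exact O_ne_Linf hz h

/-! ### every line is covered -/

instance : Module.Finite K (F n) := inferInstance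

lemma finrank_prod : Module.finrank K (F n × F n) = 4 := by
  rw [Module.finrank_prod, finrank_eq_two]

lemma cover (h2 : (2 : K) ≠ 0) (hβ0 : β ≠ 0) {ℓ : Submodule K (F n × F n)}
    (hℓ : Module.finrank K ℓ = 2) : ℓ ∈ Sig n ∨ ∃ i, ℓ ∈ SpI β i := by
  by_cases hA : ∃ y : F n, y ≠ 0 ∧ ((0, y) : F n × F n) ∈ ℓ
  · obtain ⟨y, hy, hyℓ⟩ := hA
    by_cases hB : ∃ x w : F n, x ≠ 0 ∧ ((x, w) : F n × F n) ∈ ℓ
    · obtain ⟨x, w, hx, hxℓ⟩ := hB
      right
      obtain ⟨o, c, hc, hη⟩ := exists_dir (div_ne_zero hy hx)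
      obtain ⟨t, d, htd⟩ := exists_off o (w / x)
      refine ⟨(o, t), Or.inr ⟨x, hx, ?_⟩⟩
      symm
      apply Submodule.eq_of_le_of_finrank_eq
      · intro p hp
        obtain ⟨s, r, rfl⟩ := mem_O.mp hp
        have e1 : y = c • (dir n o * x) := by
          rw [← smul_mul_assoc, ← hη]; field_simp
        have e2 : w = off n o t * x + d • (dir n o * x) := by
          rw [← smul_mul_assoc, ← add_mul, ← htd]; field_simp
        have : ((s • x, r • (dir n o * x) + s • (off n o t * x)) : F n × F n)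
            = s • ((x, w) : F n × F n) + (r / c - s * d / c) • ((0, y) : F n × F n) := by
          rw [Prod.smul_mk, Prod.smul_mk, Prod.mk_add_mk]
          refine Prod.ext (by simp) ?_
          rw [e1, e2]
          simp only [smul_add, smul_smul, sub_smul]
          rw [show (r / c - s * d / c) * c = r - s * d by field_simp, sub_smul]
          abel
        simp only
        rw [this]
        exact ℓ.add_mem (ℓ.smul_mem _ hxℓ) (ℓ.smul_mem _ hyℓ)
      · rw [hℓ, finrank_O (dir_ne _) hx]
    · left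
      right
      push Not at hB
      apply Submodule.eq_of_le_of_finrank_eq
      · rintro ⟨x, w⟩ hp
        rw [mem_Linf]
        by_contra hx
        exact hB x w hx hp
      · rw [hℓ, finrank_Linf]
  · push Not at hA
    have hinj : Function.Injective ((LinearMap.fst K (F n) (F n)).domRestrict ℓ) := by
      rw [← LinearMap.ker_eq_bot, LinearMap.ker_eq_bot']
      rintro ⟨⟨x, y⟩, hp⟩ h
      simp at h
      subst h
      by_cases hy : y = 0
      · subst hy; rfl
      · exact absurd hp (hA y hy)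
    have hsurj : Function.Surjective ((LinearMap.fst K (F n) (F n)).domRestrict ℓ) := by
      rwa [← LinearMap.injective_iff_surjective_of_finrank_eq_finrank]
      rw [hℓ, finrank_eq_two]
    obtain ⟨⟨⟨x1, g1⟩, hp1⟩, hx1⟩ := hsurj 1
    obtain ⟨⟨⟨x2, g2⟩, hp2⟩, hx2⟩ := hsurj omega
    simp at hx1 hx2
    subst hx1 hx2
    have h20 : (2 : F n) ≠ 0 := by
      intro h
      apply h2
      have := congrArg re h
      simpa using this
    have how := omega_ne (n := n)
    obtain ⟨α, hα⟩ : ∃ α : F n, α = (g1 + g2 / omega) / 2 := ⟨_, rfl⟩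
    obtain ⟨β', hβ'⟩ : ∃ β' : F n, β' = (g1 - g2 / omega) / 2 := ⟨_, rfl⟩
    have hs : star (omega : F n) = - omega := by ext <;> simp
    have e1 : g1 = α + β' := by rw [hα, hβ']; field_simp; ring
    have e2 : g2 = α * omega - β' * omega := by rw [hα, hβ']; field_simp; ring
    have hG : ℓ = G α β' := by
      symm
      apply Submodule.eq_of_le_of_finrank_eq
      · rintro ⟨x, y⟩ hp
        rw [mem_G] at hp
        simp only at hp
        have : ((x, y) : F n × F n)
            = x.re • ((1, g1) : F n × F n) + x.im • ((omega, g2) : F n × F n) := by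
          rw [Prod.smul_mk, Prod.smul_mk, Prod.mk_add_mk]
          refine Prod.ext ?_ ?_
          · ext <;> simp
          · simp only
            rw [hp, e1, e2]
            ext <;> simp <;> ring
        rw [this]
        exact ℓ.add_mem (ℓ.smul_mem _ hp1) (ℓ.smul_mem _ hp2)
      · rw [hℓ, finrank_G]
    by_cases hb : β' = 0
    · left; left
      exact ⟨α, by rw [hG, hb]⟩
    · right
      have hη : star (β' / β) ≠ 0 := by
        rw [Ne, star_eq_zero]; exact div_ne_zero hb hβ0
      obtain ⟨o, c, hc, hηc⟩ := exists_dir hη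
      obtain ⟨t, d, htd⟩ := exists_off o α
      refine ⟨(o, t), Or.inl ⟨d, c, hc, ?_⟩⟩
      have : β' = c • (β * star (dir n o)) := by
        have h3 : β' / β = star (c • dir n o) := by
          rw [← hηc, star_star]
        rw [div_eq_iff hβ0] at h3
        rw [h3]
        ext <;> simp <;> ring
      rw [hG, this, htd]

/-! ### the trade -/

/-- norm of `d + c J` -/
def Nm (β : F n) (d c : K) : K := d ^ 2 - norm β * c ^ 2

/-- the new spread -/
def Snew (β : F n) : Set (Submodule K (F n × F n)) :=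
  {ℓ | (∃ d c : K, n * Nm β d c ≠ 1 ∧ ℓ = G (d • omega) (c • (omega * β))) ∨
    (∃ d c : K, Nm β d c = 1 ∧ ℓ = G (d • 1) (c • β)) ∨ ℓ = Linf n}

lemma mem_GA {d c : K} {x y : F n} :
    ((x, y) : F n × F n) ∈ G (d • 1) (c • β) ↔ y = d • x + c • (β * star x) := by
  rw [mem_G]
  simp only [Algebra.smul_def]
  constructor
  · intro h; rw [h]; ring
  · intro h; rw [h]; ring

lemma mem_GB {d c : K} {x y : F n} :
    ((x, y) : F n × F n) ∈ G (d • omega) (c • (omega * β)) ↔
      y = omega * (d • x + c • (β * star x)) := by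
  rw [mem_G]
  simp only [Algebra.smul_def]
  constructor
  · intro h; rw [h]; ring
  · intro h; rw [h]; ring

lemma exists_coordB (hβ : ¬ IsSquare (norm β)) {z : F n} (hz : z ≠ 0) (y : F n) :
    ∃ d c : K, y = omega * (d • z + c • (β * star z)) := by
  obtain ⟨d, c, h⟩ := exists_coord hβ hz (y / omega)
  refine ⟨d, c, ?_⟩
  rw [← h]
  field_simp [omega_ne]

lemma coordB_unique (hβ : ¬ IsSquare (norm β)) {z : F n} (hz : z ≠ 0) {d c d' c' : K}
    (h : omega * (d • z + c • (β * star z)) = omega * (d' • z + c' • (β * star z))) :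
    d = d' ∧ c = c' :=
  coord_unique hβ hz (mul_left_cancel₀ omega_ne h)

lemma snew_spread (hβ : ¬ IsSquare (norm β)) : IsSpread (Snew β) := by
  refine ⟨?_, ?_⟩
  · rintro ℓ (⟨d, c, _, rfl⟩ | ⟨d, c, _, rfl⟩ | rfl)
    · exact finrank_G _ _
    · exact finrank_G _ _
    · exact finrank_Linf
  · rintro ⟨x, y⟩ hv
    by_cases hx : x = 0
    · subst hx
      have hy : y ≠ 0 := by
        rintro rfl; exact hv rfl
      refine ⟨Linf n, ⟨Or.inr (Or.inr rfl), by simp [mem_Linf]⟩, ?_⟩
      rintro ℓ ⟨⟨d, c, _, rfl⟩ | ⟨d, c, _, rfl⟩ | rfl, h⟩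
      · rw [mem_G] at h; simp at h; exact absurd h hy
      · rw [mem_G] at h; simp at h; exact absurd h hy
      · rfl
    · obtain ⟨d', c', hA⟩ := exists_coord hβ hx y
      obtain ⟨d, c, hB⟩ := exists_coordB hβ hx y
      have key : Nm β d' c' = n * Nm β d c := norm_identity hx (by rw [← hA, ← hB])
      by_cases h1 : Nm β d' c' = 1
      · refine ⟨G (d' • 1) (c' • β), ⟨Or.inr (Or.inl ⟨d', c', h1, rfl⟩), mem_GA.mpr hA⟩, ?_⟩
        rintro ℓ ⟨⟨d2, c2, h2, rfl⟩ | ⟨d2, c2, h2, rfl⟩ | rfl, h⟩
        · rw [mem_GB, hB] at h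
          obtain ⟨rfl, rfl⟩ := coordB_unique hβ hx h
          exact absurd (by rw [← key, h1]) h2
        · rw [mem_GA, hA] at h
          obtain ⟨rfl, rfl⟩ := coord_unique hβ hx h
          rfl
        · rw [mem_Linf] at h; exact absurd h hx
      · refine ⟨G (d • omega) (c • (omega * β)),
          ⟨Or.inl ⟨d, c, by rwa [← key], rfl⟩, mem_GB.mpr hB⟩, ?_⟩
        rintro ℓ ⟨⟨d2, c2, h2, rfl⟩ | ⟨d2, c2, h2, rfl⟩ | rfl, h⟩
        · rw [mem_GB, hB] at h
          obtain ⟨rfl, rfl⟩ := coordB_unique hβ hx h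
          rfl
        · rw [mem_GA, hA] at h
          obtain ⟨rfl, rfl⟩ := coord_unique hβ hx h
          exact absurd h2 h1
        · rw [mem_Linf] at h; exact absurd h hx

/-- the two removed indices -/
def iA : Option K × K := (none, 0)
/-- the two removed indices -/
def iB : Option K × K := (some 0, 0)

lemma star_omega : star (omega : F n) = - omega := by ext <;> simp

lemma memA_iff {ℓ : Submodule K (F n × F n)} : ℓ ∈ SpI β iA ↔
    (∃ d c : K, c ≠ 0 ∧ ℓ = G (d • 1) (c • β)) ∨ (∃ z, z ≠ 0 ∧ ℓ = O 1 0 z) := by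
  have h1 : dir n (none : Option K) = 1 := rfl
  have h2 : off n (none : Option K) 0 = 0 := rfl
  simp [SpI, Sp, iA, h1, h2]

lemma memB_iff {ℓ : Submodule K (F n × F n)} : ℓ ∈ SpI β iB ↔
    (∃ d c : K, c ≠ 0 ∧ ℓ = G (d • omega) (c • (omega * β))) ∨
      (∃ z, z ≠ 0 ∧ ℓ = O omega 0 z) := by
  have h1 : dir n (some (0 : K)) = omega := rfl
  have h2 : off n (some (0 : K)) 0 = 0 := rfl
  simp only [SpI, Sp, iB, h1, h2, zero_add, Set.mem_ofPred_eq]
  constructor
  · rintro (⟨d, c, hc, rfl⟩ | h)
    · left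
      refine ⟨d, -c, neg_ne_zero.mpr hc, ?_⟩
      congr 1
      rw [star_omega]; ext <;> simp
    · right; exact h
  · rintro (⟨d, c, hc, rfl⟩ | h)
    · left
      refine ⟨d, -c, neg_ne_zero.mpr hc, ?_⟩
      congr 1
      rw [star_omega]; ext <;> simp
    · right; exact h

lemma snew_sub {ℓ : Submodule K (F n × F n)} (h : ℓ ∈ Snew β) :
    ℓ ∈ Sig n ∨ ℓ ∈ SpI β iA ∨ ℓ ∈ SpI β iB := by
  rcases h with ⟨d, c, _, rfl⟩ | ⟨d, c, _, rfl⟩ | rfl
  · by_cases hc : c = 0
    · subst hc; left; left; exact ⟨d • omega, by simp⟩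
    · right; right; rw [memB_iff]; left; exact ⟨d, c, hc, rfl⟩
  · by_cases hc : c = 0
    · subst hc; left; left; exact ⟨d • 1, by simp⟩
    · right; left; rw [memA_iff]; left; exact ⟨d, c, hc, rfl⟩
  · left; right; rfl

/-- the lines of the leave -/
def Leave (β : F n) (ℓ : Submodule K (F n × F n)) : Prop :=
  (∃ w : F n, w.re ≠ 0 ∧ ¬ (w.im = 0 ∧ w.re ^ 2 = 1) ∧ ℓ = G w 0) ∨
  (∃ z : F n, z ≠ 0 ∧ ℓ = O 1 0 z) ∨
  (∃ d c : K, c ≠ 0 ∧ Nm β d c ≠ 1 ∧ ℓ = G (d • 1) (c • β)) ∨
  (∃ z : F n, z ≠ 0 ∧ ℓ = O omega 0 z) ∨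
  (∃ d c : K, n * Nm β d c = 1 ∧ ℓ = G (d • omega) (c • (omega * β)))

lemma leave_of {ℓ : Submodule K (F n × F n)}
    (h : ℓ ∈ Sig n ∨ ℓ ∈ SpI β iA ∨ ℓ ∈ SpI β iB) (h' : ℓ ∉ Snew β) : Leave β ℓ := by
  rcases h with (⟨w, rfl⟩ | rfl) | h | h
  · left
    refine ⟨w, ?_, ?_, rfl⟩
    · intro h0
      apply h'
      left
      by_cases hw : n * Nm β w.im 0 = 1
      · exfalso
        simp only [Nm] at hw
        have := hn.out (1 / w.im)
        apply this
        have hw0 : w.im ≠ 0 := by rintro h; rw [h] at hw; simp at hw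
        field_simp
        linear_combination -hw
      · refine ⟨w.im, 0, hw, ?_⟩
        have : w = w.im • omega := by ext <;> simp [h0]
        rw [zero_smul, ← this]
    · rintro ⟨h0, h1⟩
      apply h'
      right; left
      refine ⟨w.re, 0, by simp [Nm, h1], ?_⟩
      have : w = w.re • 1 := by ext <;> simp [h0]
      rw [zero_smul, ← this]
  · exact absurd (Or.inr (Or.inr rfl)) h'
  · rw [memA_iff] at h
    rcases h with ⟨d, c, hc, rfl⟩ | ⟨z, hz, rfl⟩
    · right; right; left
      refine ⟨d, c, hc, ?_, rfl⟩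
      intro h1
      exact h' (Or.inr (Or.inl ⟨d, c, h1, rfl⟩))
    · right; left; exact ⟨z, hz, rfl⟩
  · rw [memB_iff] at h
    rcases h with ⟨d, c, hc, rfl⟩ | ⟨z, hz, rfl⟩
    · right; right; right; right
      refine ⟨d, c, ?_, rfl⟩
      by_contra h1
      exact h' (Or.inl ⟨d, c, h1, rfl⟩)
    · right; right; right; left; exact ⟨z, hz, rfl⟩

/-- the flip lemma -/
lemma flip {X : Set (Submodule K (F n × F n))} (hX : IsSpread X) (hL : ∀ ℓ ∈ X, Leave β ℓ)
    {p : F n × F n} (hp : p ≠ 0) {ℓ₁ ℓ₂ : Submodule K (F n × F n)} (hne : ℓ₁ ≠ ℓ₂)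
    (h1 : p ∈ ℓ₁) (h2 : p ∈ ℓ₂) (h : ∀ ℓ, Leave β ℓ → p ∈ ℓ → ℓ = ℓ₁ ∨ ℓ = ℓ₂) :
    (ℓ₁ ∈ X ↔ ¬ ℓ₂ ∈ X) := by
  obtain ⟨ℓ, ⟨hℓX, hpℓ⟩, hu⟩ := hX.2 p hp
  constructor
  · intro ha hb
    exact hne ((hu _ ⟨ha, h1⟩).trans (hu _ ⟨hb, h2⟩).symm)
  · intro hb
    rcases h ℓ (hL _ hℓX) hpℓ with rfl | rfl
    · exact hℓX
    · exact absurd hℓX hb

/-- the leave lines through a point off `Linf` -/
lemma leave_through (hβ : ¬ IsSquare (norm β)) {x y : F n} (hx : x ≠ 0)
    {ℓ : Submodule K (F n × F n)} (hL : Leave β ℓ) (hp : ((x, y) : F n × F n) ∈ ℓ)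
    {d c : K} (hA : y = d • x + c • (β * star x)) :
    (∃ w : F n, w.re ≠ 0 ∧ ¬ (w.im = 0 ∧ w.re ^ 2 = 1) ∧ y = w * x ∧ ℓ = G w 0) ∨
    (c = 0 ∧ ℓ = O 1 0 x) ∨
    (c ≠ 0 ∧ Nm β d c ≠ 1 ∧ ℓ = G (d • 1) (c • β)) ∨
    ((∃ t : K, y = (t • omega) * x) ∧ ℓ = O omega 0 x) ∨
    (Nm β d c = 1 ∧ ∃ d' c' : K, y = omega * (d' • x + c' • (β * star x)) ∧
      ℓ = G (d' • omega) (c' • (omega * β))) := by
  rcases hL with ⟨w, hw1, hw2, rfl⟩ | ⟨z, hz, rfl⟩ | ⟨d2, c2, hc, hN, rfl⟩ | ⟨z, hz, rfl⟩ |
    ⟨d2, c2, hN, rfl⟩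
  · left
    rw [mem_G] at hp
    exact ⟨w, hw1, hw2, by simpa using hp, rfl⟩
  · right; left
    obtain ⟨d', hd'⟩ := coord_of_mem_O hx hp
    have h3 : d • x + c • (β * star x) = d' • x + (0 : K) • (β * star x) := by
      rw [← hA]; simpa using hd'
    exact ⟨(coord_unique hβ hx h3).2, O_eq_of_mem hx hp⟩
  · right; right; left
    rw [mem_GA, hA] at hp
    obtain ⟨rfl, rfl⟩ := coord_unique hβ hx hp
    exact ⟨hc, hN, rfl⟩
  · right; right; right; left
    obtain ⟨d', hd'⟩ := coord_of_mem_O hx hp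
    refine ⟨⟨d', ?_⟩, O_eq_of_mem hx hp⟩
    rw [smul_mul_assoc]; simpa using hd'
  · right; right; right; right
    rw [mem_GB] at hp
    refine ⟨?_, d2, c2, hp, rfl⟩
    have key : Nm β d c = n * Nm β d2 c2 := norm_identity hx (by rw [← hA, ← hp])
    rw [key, hN]

/-! ### existence lemmas -/

lemma n_nonsq : ¬ IsSquare n := by
  rintro ⟨r, hr⟩
  exact hn.out r (by rw [hr]; ring)

lemma beta_ne (hβ : ¬ IsSquare (norm β)) : β ≠ 0 := by
  rintro rfl
  exact hβ ⟨0, by simp⟩

lemma hilbert (hβ0 : β ≠ 0) (γ : F n) (h : norm γ = norm β) :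
    ∃ z : F n, z ≠ 0 ∧ γ * z = β * star z := by
  obtain ⟨η, hη⟩ : ∃ η : F n, η * β = γ := ⟨γ / β, by field_simp⟩
  have h1 : norm η = 1 := by
    have : norm η * norm β = norm β := by rw [← map_mul, hη, h]
    exact mul_right_cancel₀ (norm_ne hβ0) (by rw [this, one_mul])
  have h2 : η * star η = 1 := by
    rw [← algebraMap_norm_eq_mul_star, h1, map_one]
  by_cases hz : 1 + star η = 0
  · refine ⟨omega, omega_ne, ?_⟩
    have h3 : star η = -1 := by linear_combination hz
    have h4 : η = -1 := by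
      rw [h3] at h2; linear_combination -h2
    rw [← hη, h4, star_omega]; ring
  · refine ⟨1 + star η, hz, ?_⟩
    rw [← hη, star_add, star_one, star_star]
    linear_combination β * h2

lemma mul_nonsq [Fintype K] {a b : K} (ha : ¬ IsSquare a)
    (hb : ¬ IsSquare b) : IsSquare (a * b) := by
  classical
  have ha' := (quadraticChar_neg_one_iff_not_isSquare (F := K)).mpr ha
  have hb' := (quadraticChar_neg_one_iff_not_isSquare (F := K)).mpr hb
  have ha0 : a ≠ 0 := by rintro rfl; exact ha ⟨0, by simp⟩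
  have hb0 : b ≠ 0 := by rintro rfl; exact hb ⟨0, by simp⟩
  rw [← quadraticChar_one_iff_isSquare (mul_ne_zero ha0 hb0), map_mul, ha', hb']
  norm_num

lemma exists_norm [Fintype K] (h2 : Fintype.card K % 2 = 1) (ν s : K) (hν : ν ≠ 0) :
    ∃ d c : K, d ^ 2 - ν * c ^ 2 = s := by
  obtain ⟨a, b, hab⟩ := FiniteField.exists_root_sum_quadratic
    (f := Polynomial.X ^ 2 - Polynomial.C s) (g := Polynomial.C (-ν) * Polynomial.X ^ 2)
    (Polynomial.degree_X_pow_sub_C (by norm_num) _)
    (by rw [Polynomial.degree_C_mul_X_pow 2 (neg_ne_zero.mpr hν)]; rfl) h2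
  refine ⟨a, b, ?_⟩
  simp at hab
  linear_combination hab

lemma exists_w [Fintype K] (h5 : 5 ≤ Fintype.card K) : ∃ w : K, w ≠ 0 ∧ w ^ 2 ≠ 1 := by
  classical
  by_contra hcon
  push Not at hcon
  have : (Finset.univ : Finset K) ⊆ {0, 1, -1} := by
    intro w _
    by_cases hw : w = 0
    · simp [hw]
    · have h1 := hcon w hw
      have h2 : (w - 1) * (w + 1) = 0 := by linear_combination h1
      rcases mul_eq_zero.mp h2 with h | h
      · have : w = 1 := by linear_combination h
        simp [this]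
      · have : w = -1 := by linear_combination h
        simp [this]
  have h3 := Finset.card_le_card this
  have h4 : ({0, 1, -1} : Finset K).card ≤ 3 := Finset.card_le_three
  rw [Finset.card_univ] at h3
  omega

/-- distinct directions give distinct slopes -/
lemma slope_inj (h2 : (2 : K) ≠ 0) (hβ0 : β ≠ 0) {o o' : Option K} {γ : F n}
    (h : γ * dir n o = β * star (dir n o)) (h' : γ * dir n o' = β * star (dir n o')) : o = o' := by
  have h1 : β * (star (dir n o) * dir n o') = β * (star (dir n o') * dir n o) := by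
    linear_combination (-dir n o') * h + dir n o * h'
  have h3 := congrArg im (mul_left_cancel₀ hβ0 h1)
  cases o <;> cases o' <;> simp [dir] at h3 ⊢
  · exact h2 (by linear_combination h3)
  · exact h2 (by linear_combination -h3)
  · apply mul_left_cancel₀ h2
    linear_combination h3

lemma exists_nonsq_line [Fintype K] (h2 : (2 : K) ≠ 0) (hβ : ¬ IsSquare (norm β)) {w : F n}
    (hw0 : w.re ≠ 0) (hw1 : w.im ≠ 0) :
    ∃ (z : F n) (d c : K), z ≠ 0 ∧ w * z = d • z + c • (β * star z) ∧ ¬ IsSquare (Nm β d c) := by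
  classical
  by_contra hcon
  push Not at hcon
  have hβ0 := beta_ne hβ
  choose D C hDC using fun o : Option K => exists_coord hβ (dir_ne (n := n) o) (w * dir n o)
  have hC : ∀ o, C o ≠ 0 := by
    intro o h
    have h1 := hDC o
    rw [h, zero_smul, add_zero, ← smul_one_mul (D o) (dir n o)] at h1
    have h3 := congrArg im (mul_right_cancel₀ (dir_ne o) h1)
    simp at h3
    exact hw1 h3
  have hrel : ∀ o, (w.re - D o) ^ 2 - n * w.im ^ 2 = norm β * C o ^ 2 := by
    intro o
    have h1 : (w - D o • 1) * dir n o = C o • (β * star (dir n o)) := by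
      have := hDC o
      rw [sub_mul, smul_one_mul, this]; abel
    have h3 := congrArg QuadraticAlgebra.norm h1
    rw [map_mul, ← smul_one_mul (C o), map_mul, map_mul, QuadraticAlgebra.norm_star] at h3
    have h4 : norm (w - D o • 1 : F n) = (w.re - D o) ^ 2 - n * w.im ^ 2 := by
      simp [norm_def]; ring
    have h5 : norm (C o • 1 : F n) = C o ^ 2 := by
      simp [norm_def]; ring
    rw [h4, h5] at h3
    apply mul_right_cancel₀ (norm_ne (dir_ne (n := n) o))
    rw [h3]; ring
  have hf : ∀ o, Nm β (D o) (C o) = 2 * w.re * D o - w.re ^ 2 + n * w.im ^ 2 := by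
    intro o
    simp only [Nm]
    linear_combination hrel o
  have hsq : ∀ o, IsSquare (Nm β (D o) (C o)) := fun o => hcon _ _ _ (dir_ne o) (hDC o)
  have hne : ∀ o, Nm β (D o) (C o) ≠ 0 := by
    intro o h
    apply hβ
    refine ⟨D o / C o, ?_⟩
    have := hC o
    simp only [Nm] at h
    field_simp
    linear_combination -h
  have hfD : ∀ o o', Nm β (D o) (C o) = Nm β (D o') (C o') → D o = D o' ∧ (C o = C o' ∨ C o = - C o') := by
    intro o o' h
    rw [hf, hf] at h
    have h1 : D o = D o' := by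
      apply mul_left_cancel₀ (mul_ne_zero h2 hw0)
      linear_combination h
    refine ⟨h1, ?_⟩
    have h3 := hrel o
    have h4 := hrel o'
    rw [h1, h4] at h3
    have h5 : norm β ≠ 0 := norm_ne hβ0
    have h6 : C o ^ 2 = C o' ^ 2 := mul_left_cancel₀ h5 h3.symm
    exact sq_eq_sq_iff_eq_or_eq_neg.mp h6
  have hinj : ∀ o o', D o = D o' → C o = C o' → o = o' := by
    intro o o' h h'
    obtain ⟨γ, hγ⟩ : ∃ γ : F n, C o • γ = w - D o • 1 := by
      refine ⟨(C o)⁻¹ • (w - D o • 1), ?_⟩
      rw [smul_smul, mul_inv_cancel₀ (hC o), one_smul]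
    have hh : ∀ o'', D o'' = D o → C o'' = C o → γ * dir n o'' = β * star (dir n o'') := by
      intro o'' h3 h4
      apply smul_right_injective _ (hC o)
      simp only
      rw [← smul_mul_assoc, hγ, sub_mul, smul_one_mul, hDC o'', h3, h4]
      abel
    exact slope_inj h2 hβ0 (hh o rfl rfl) (hh o' h.symm h'.symm)
  choose ρ hρ using hsq
  -- choose roots depending only on the value
  obtain ⟨g, hg⟩ : ∃ g : K → Option K, ∀ o, Nm β (D (g (Nm β (D o) (C o)))) (C (g (Nm β (D o) (C o))))
      = Nm β (D o) (C o) := by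
    refine ⟨fun y => if h : ∃ o, Nm β (D o) (C o) = y then h.choose else none, ?_⟩
    intro o
    have h : ∃ o', Nm β (D o') (C o') = Nm β (D o) (C o) := ⟨o, rfl⟩
    simp only [h, dif_pos]
    exact h.choose_spec
  let R : Option K → K := fun o => ρ (g (Nm β (D o) (C o)))
  have hR : ∀ o, R o * R o = Nm β (D o) (C o) := by
    intro o
    rw [← hg o]
    exact (hρ _).symm
  have hR0 : ∀ o, R o ≠ 0 := by
    intro o h
    apply hne o
    rw [← hR o, h]; ring
  let ψ : Option K → {x : K // x ≠ 0} := fun o =>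
    ⟨if C o = C (g (Nm β (D o) (C o))) then R o else - R o, by
      split_ifs
      · exact hR0 o
      · exact neg_ne_zero.mpr (hR0 o)⟩
  have hψsq : ∀ o, (ψ o : K) * ψ o = Nm β (D o) (C o) := by
    intro o
    simp only [ψ]
    split_ifs
    · exact hR o
    · rw [neg_mul_neg, hR o]
  have hψ : Function.Injective ψ := by
    intro o o' h
    have h1 : Nm β (D o) (C o) = Nm β (D o') (C o') := by
      rw [← hψsq o, ← hψsq o', h]
    obtain ⟨h3, h4⟩ := hfD o o' h1
    apply hinj o o' h3
    rcases h4 with h4 | h4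
    · exact h4
    · exfalso
      have hRR : R o = R o' := by simp only [R]; rw [h1]
      have h5 := congrArg Subtype.val h
      simp only [ψ] at h5
      have hself : C o ≠ - C o := by
        intro h6
        apply mul_ne_zero h2 (hC o)
        linear_combination h6
      have hRself : R o ≠ - R o := by
        intro h6
        apply mul_ne_zero h2 (hR0 o)
        linear_combination h6
      have h7 := (hfD _ _ (hg o)).2
      rw [← h1] at h5
      have h4' : C o' = - C o := by rw [h4]; ring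
      rw [h4', ← hRR] at h5
      rcases h7 with h7 | h7
      · rw [h7] at h5
        rw [if_pos rfl, if_neg (Ne.symm hself)] at h5
        exact hRself h5
      · rw [h7] at h5
        rw [if_neg hself, if_pos rfl] at h5
        exact hRself h5.symm
  have hcard := Fintype.card_le_of_injective ψ hψ
  rw [Fintype.card_option] at hcard
  have h8 : Fintype.card {x : K // x ≠ 0} < Fintype.card K := by
    apply Fintype.card_subtype_lt (x := 0)
    simp
  omega

/-! ### no spread inside the leave -/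

lemma ne_of_mem {p : F n × F n} {ℓ ℓ' : Submodule K (F n × F n)} (h : p ∈ ℓ) (h' : p ∉ ℓ') :
    ℓ ≠ ℓ' := by
  rintro rfl; exact h' h

theorem no_spread [Fintype K] (h2 : (2 : K) ≠ 0) (hcard : Fintype.card K % 2 = 1)
    (h5 : 5 ≤ Fintype.card K)
    (hβ : ¬ IsSquare (norm β)) {X : Set (Submodule K (F n × F n))} (hX : IsSpread X)
    (hL : ∀ ℓ ∈ X, Leave β ℓ) : False := by
  have hβ0 := beta_ne hβ
  obtain ⟨w', hw0, hw1⟩ := exists_w h5
  -- flip 1
  have flip1 : ∀ z : F n, z ≠ 0 → (O 1 0 z ∈ X ↔ ¬ G (w' • 1) (0 : F n) ∈ X) := by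
    intro z hz
    have hA : w' • z = w' • z + (0 : K) • (β * star z) := by simp
    apply flip hX hL (p := (z, w' • z)) (by intro h; exact hz (congrArg Prod.fst h))
      (G_ne_O one_ne_zero hz).symm
    · rw [mem_O]; exact ⟨1, w', by simp⟩
    · rw [mem_G]; simp
    · intro ℓ hℓ hp
      rcases leave_through hβ hz hℓ hp hA with ⟨w, h3, h4, h6, rfl⟩ | ⟨_, rfl⟩ | ⟨h3, _⟩ |
        ⟨⟨t, ht⟩, _⟩ | ⟨h3, _⟩
      · right
        have : w = w' • 1 := by
          apply mul_right_cancel₀ hz
          rw [← h6, smul_one_mul]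
        rw [this]
      · left; rfl
      · exact absurd rfl h3
      · exfalso
        have h7 : (w' • 1 : F n) = t • omega := by
          apply mul_right_cancel₀ hz
          rw [← ht, smul_one_mul]
        have := congrArg re h7
        simp at this
        exact hw0 this
      · exfalso
        simp only [Nm] at h3
        exact hw1 (by linear_combination h3)
  -- flip 2
  have flip2 : ∀ z : F n, z ≠ 0 → (O 1 0 z ∈ X ↔ ¬ O omega 0 z ∈ X) := by
    intro z hz
    have hA : (0 : F n) = (0 : K) • z + (0 : K) • (β * star z) := by simp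
    apply flip hX hL (p := (z, 0)) (by intro h; exact hz (congrArg Prod.fst h)) 
    · intro h1
      have : ((0, z) : F n × F n) ∈ O omega 0 z := by
        rw [← h1, mem_O]; exact ⟨0, 1, by simp⟩
      obtain ⟨s, t, e⟩ := mem_O.mp this
      have a1 : 0 = s • z := congrArg Prod.fst e
      have a2 : z = t • (omega * z) + s • (0 * z) := congrArg Prod.snd e
      have h3 : (1 : F n) = t • omega := by
        apply mul_right_cancel₀ hz
        rw [smul_mul_assoc, one_mul]; simpa using a2
      have := congrArg re h3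
      simp at this
    · rw [mem_O]; exact ⟨1, 0, by simp⟩
    · rw [mem_O]; exact ⟨1, 0, by simp⟩
    · intro ℓ hℓ hp
      rcases leave_through hβ hz hℓ hp hA with ⟨w, h3, h4, h6, rfl⟩ | ⟨_, rfl⟩ | ⟨h3, _⟩ |
        ⟨_, rfl⟩ | ⟨h3, _⟩
      · exfalso
        have : w = 0 := by
          rcases mul_eq_zero.mp h6.symm with h | h
          · exact h
          · exact absurd h hz
        rw [this] at h3
        exact h3 rfl
      · left; rfl
      · exact absurd rfl h3
      · right; rfl
      · simp [Nm] at h3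
  -- flip 3
  have flip3 : ∀ d c : K, ¬ IsSquare (Nm β d c) →
      ∃ z : F n, z ≠ 0 ∧ (O omega 0 z ∈ X ↔ ¬ G (d • 1) (c • β) ∈ X) := by
    intro d c hdc
    have hc : c ≠ 0 := by
      rintro rfl
      exact hdc ⟨d, by simp only [Nm]; ring⟩
    obtain ⟨r, hr⟩ : IsSquare (n * Nm β d c) := mul_nonsq n_nonsq hdc
    have hn0 : n ≠ 0 := by
      rintro rfl
      exact n_nonsq (n := (0 : K)) ⟨0, by simp⟩
    -- t = r / n
    obtain ⟨t, ht⟩ : ∃ t : K, t = r / n := ⟨_, rfl⟩
    have ht2 : Nm β d c = n * t ^ 2 := by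
      rw [ht]; field_simp; linear_combination hr
    have ht0 : t ≠ 0 := by
      rintro h
      rw [h] at ht2
      exact hdc ⟨0, by rw [ht2]; ring⟩
    obtain ⟨z, hz, hγ⟩ := hilbert hβ0 (c⁻¹ • (t • omega - d • 1) : F n) (by
      simp only [Nm] at ht2
      simp only [norm_def]
      simp [norm_def] at ht2 ⊢
      field_simp
      linear_combination ht2)
    have hA : (t • omega) * z = d • z + c • (β * star z) := by
      rw [← hγ, smul_mul_assoc c⁻¹, smul_smul, mul_inv_cancel₀ hc, one_smul, sub_mul, smul_one_mul]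
      abel
    refine ⟨z, hz, ?_⟩
    apply flip hX hL (p := (z, (t • omega) * z)) (by intro h; exact hz (congrArg Prod.fst h))
      (G_ne_O omega_ne hz).symm
    · rw [mem_O]; exact ⟨1, t, by simp⟩
    · rw [mem_GA]; exact hA
    · intro ℓ hℓ hp
      rcases leave_through hβ hz hℓ hp hA with ⟨w, h3, h4, h6, rfl⟩ | ⟨h3, _⟩ | ⟨_, _, rfl⟩ |
        ⟨_, rfl⟩ | ⟨h3, _⟩
      · exfalso
        have : w = t • omega := mul_right_cancel₀ hz h6.symm
        rw [this] at h3
        simp at h3
      · exact absurd h3 hc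
      · right; rfl
      · left; rfl
      · exfalso; apply hdc; rw [h3]; exact ⟨1, by simp⟩
  -- all `O 1 0 z` have the same colour
  have same : ∀ z z' : F n, z ≠ 0 → z' ≠ 0 → (O 1 0 z ∈ X ↔ O 1 0 z' ∈ X) := by
    intro z z' hz hz'
    rw [flip1 z hz, flip1 z' hz']
  -- the line r
  have hn0 : n ≠ 0 := by
    rintro rfl
    exact n_nonsq (n := (0 : K)) ⟨0, by simp⟩
  obtain ⟨d0, c0, hdc0⟩ := exists_norm hcard (norm β) (1 / n) (norm_ne hβ0)
  have hN0 : n * Nm β d0 c0 = 1 := by
    simp only [Nm]; rw [hdc0]; field_simp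
  have hc0 : c0 ≠ 0 := by
    rintro rfl
    simp only [Nm] at hN0
    apply n_nonsq (n := n)
    have hd : d0 ≠ 0 := by rintro rfl; simp at hN0
    refine ⟨1 / d0, ?_⟩
    field_simp
    linear_combination hN0
  obtain ⟨r, hr⟩ : ∃ r : Submodule K (F n × F n), r = G (d0 • omega) (c0 • (omega * β)) := ⟨_, rfl⟩
  -- A-coordinates on the line r
  have hrA : ∀ {x y : F n} {d c : K}, x ≠ 0 → y = omega * (d0 • x + c0 • (β * star x)) →
      y = d • x + c • (β * star x) → Nm β d c = 1 := by
    intro x y d c hx h h'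
    have : Nm β d c = n * Nm β d0 c0 := norm_identity hx (by rw [← h', ← h])
    rw [this, hN0]
  -- flip 5
  have flip5 : ∃ z : F n, z ≠ 0 ∧ (O 1 0 z ∈ X ↔ ¬ r ∈ X) := by
    obtain ⟨z, hz, hγ⟩ := hilbert hβ0 (c0⁻¹ • ((1 / n) • omega - d0 • 1) : F n) (by
      simp only [Nm] at hN0
      simp only [norm_def]
      simp [norm_def] at hN0 ⊢
      field_simp
      linear_combination hN0)
    have hB : z = omega * (d0 • z + c0 • (β * star z)) := by
      rw [← hγ, smul_mul_assoc c0⁻¹, smul_smul, mul_inv_cancel₀ hc0, one_smul, sub_mul,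
        smul_one_mul]
      have : omega * ((1 / n : K) • (omega : F n)) = 1 := by
        ext <;> simp
        field_simp
      linear_combination (-z) * this
    have hA : z = (1 : K) • z + (0 : K) • (β * star z) := by simp
    refine ⟨z, hz, ?_⟩
    apply flip hX hL (p := (z, z)) (by intro h; exact hz (congrArg Prod.fst h))
    · rw [hr]; exact (G_ne_O one_ne_zero hz).symm
    · rw [mem_O]; exact ⟨1, 1, by simp⟩
    · rw [hr, mem_GB]; exact hB
    · intro ℓ hℓ hp
      rcases leave_through hβ hz hℓ hp hA with ⟨w, h3, h4, h6, rfl⟩ | ⟨_, rfl⟩ | ⟨h3, _⟩ |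
        ⟨⟨t, ht⟩, _⟩ | ⟨h3, d', c', hd', rfl⟩
      · exfalso
        have : w = 1 := by
          apply mul_right_cancel₀ hz
          rw [← h6, one_mul]
        apply h4
        rw [this]; simp
      · left; rfl
      · exact absurd rfl h3
      · exfalso
        have h7 : (1 : F n) = t • omega := by
          apply mul_right_cancel₀ hz
          rw [← ht, one_mul]
        have := congrArg re h7
        simp at this
      · right
        have h8 := coordB_unique hβ hz (hd'.symm.trans hB)
        rw [hr, h8.1, h8.2]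
  -- the slope of r at z
  have slope : ∀ o : Option K, ∃ w : F n, w * dir n o =
      omega * (d0 • dir n o + c0 • (β * star (dir n o))) := by
    intro o
    refine ⟨omega * (d0 • dir n o + c0 • (β * star (dir n o))) / dir n o, ?_⟩
    rw [div_mul_cancel₀ _ (dir_ne o)]
  choose W hW using slope
  have hWinj : ∀ o o', W o = W o' → o = o' := by
    intro o o' h
    obtain ⟨γ, hγ⟩ : ∃ γ : F n, γ = (c0 • omega)⁻¹ * (W o - omega * d0 • 1) := ⟨_, rfl⟩
    have hco : (c0 • omega : F n) ≠ 0 := smul_ne_zero hc0 omega_ne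
    have hγ' : (c0 • omega) * γ = W o - omega * d0 • 1 := by
      rw [hγ, ← mul_assoc, mul_inv_cancel₀ hco, one_mul]
    have hh : ∀ o'', W o'' = W o → γ * dir n o'' = β * star (dir n o'') := by
      intro o'' h'
      apply mul_left_cancel₀ hco
      rw [← mul_assoc, hγ', ← h', sub_mul, hW o'']
      simp only [Algebra.smul_def]
      ring
    exact slope_inj h2 hβ0 (hh o rfl) (hh o' h.symm)
  have hWre : ∀ o, (W o).re ≠ 0 := by
    intro o h
    have h1 : (d0 • dir n o + c0 • (β * star (dir n o))) =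
        (W o).im • dir n o + (0 : K) • (β * star (dir n o)) := by
      apply mul_left_cancel₀ omega_ne
      rw [← hW o]
      have : W o = (W o).im • omega := by ext <;> simp [h]
      rw [zero_smul, add_zero]
      conv_lhs => rw [this]
      rw [smul_mul_assoc, mul_smul_comm]
    exact hc0 (coord_unique hβ (dir_ne o) h1).2
  have hWim : ∀ o, (W o).im = 0 → W o = 1 ∨ W o = -1 := by
    intro o h
    have h1 : (W o).re • dir n o + (0 : K) • (β * star (dir n o)) = W o * dir n o := by
      have : W o = (W o).re • 1 := by ext <;> simp [h]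
      conv_rhs => rw [this]
      rw [smul_one_mul, zero_smul, add_zero]
    have h3 := hrA (dir_ne o) (hW o) h1.symm
    have h4 : ((W o).re - 1) * ((W o).re + 1) = 0 := by
      simp only [Nm] at h3
      linear_combination h3
    rcases mul_eq_zero.mp h4 with h4 | h4
    · left
      have h6 : (W o).re = 1 := by linear_combination h4
      ext <;> simp [h, h6]
    · right
      have h6 : (W o).re = -1 := by linear_combination h4
      ext <;> simp [h, h6]
  have hex : ∃ o, (W o).im ≠ 0 := by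
    by_contra hcon
    push Not at hcon
    have a1 := hWim none (hcon _)
    have a2 := hWim (some 0) (hcon _)
    have a3 := hWim (some 1) (hcon _)
    have n12 : (none : Option K) ≠ some 0 := by simp
    have n13 : (none : Option K) ≠ some 1 := by simp
    have n23 : (some 0 : Option K) ≠ some 1 := by simp
    rcases a1 with a1 | a1 <;> rcases a2 with a2 | a2 <;> rcases a3 with a3 | a3
    · exact n12 (hWinj _ _ (a1.trans a2.symm))
    · exact n12 (hWinj _ _ (a1.trans a2.symm))
    · exact n13 (hWinj _ _ (a1.trans a3.symm))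
    · exact n23 (hWinj _ _ (a2.trans a3.symm))
    · exact n23 (hWinj _ _ (a2.trans a3.symm))
    · exact n13 (hWinj _ _ (a1.trans a3.symm))
    · exact n12 (hWinj _ _ (a1.trans a2.symm))
    · exact n12 (hWinj _ _ (a1.trans a2.symm))
  obtain ⟨o, ho⟩ := hex
  obtain ⟨w, hw⟩ : ∃ w, w = W o := ⟨_, rfl⟩
  have hwre : w.re ≠ 0 := hw ▸ hWre o
  have hwim : w.im ≠ 0 := hw ▸ ho
  have hwz := hW o
  rw [← hw] at hwz
  -- flip 6
  have flip6 : G w 0 ∈ X ↔ ¬ r ∈ X := by
    obtain ⟨z, hz⟩ : ∃ z, z = dir n o := ⟨_, rfl⟩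
    have hz0 : z ≠ 0 := hz ▸ dir_ne o
    rw [← hz] at hwz
    obtain ⟨d, c, hA⟩ := exists_coord hβ hz0 (w * z)
    have hN1 := hrA hz0 hwz hA
    apply flip hX hL (p := (z, w * z)) (by intro h; exact hz0 (congrArg Prod.fst h))
    · rw [hr]
      intro h
      have := (G_inj h2 h).2
      rw [eq_comm, smul_eq_zero] at this
      rcases this with h | h
      · exact hc0 h
      · exact mul_ne_zero omega_ne hβ0 h
    · rw [mem_G]; simp
    · rw [hr, mem_GB]; exact hwz
    · intro ℓ hℓ hp
      rcases leave_through hβ hz0 hℓ hp hA with ⟨w2, h3, h4, h6, rfl⟩ | ⟨h3, _⟩ | ⟨_, h3, _⟩ |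
        ⟨⟨t, ht⟩, _⟩ | ⟨h3, d', c', hd', rfl⟩
      · left
        rw [mul_right_cancel₀ hz0 h6]
      · exfalso
        rw [h3, zero_smul, add_zero, ← smul_one_mul d z] at hA
        have := congrArg im (mul_right_cancel₀ hz0 hA)
        simp at this
        exact hwim this
      · exact absurd hN1 h3
      · exfalso
        have := congrArg re (mul_right_cancel₀ hz0 ht)
        simp at this
        exact hwre this
      · right
        have h8 := coordB_unique hβ hz0 (hd'.symm.trans hwz)
        rw [hr, h8.1, h8.2]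
  -- flip 4
  obtain ⟨z, d, c, hz, hA, hns⟩ := exists_nonsq_line h2 hβ hwre hwim
  have flip4 : G w 0 ∈ X ↔ ¬ G (d • 1) (c • β) ∈ X := by
    have hc : c ≠ 0 := by
      rintro rfl
      exact hns ⟨d, by simp only [Nm]; ring⟩
    apply flip hX hL (p := (z, w * z)) (by intro h; exact hz (congrArg Prod.fst h))
    · intro h
      have := (G_inj h2 h).2
      rw [eq_comm, smul_eq_zero] at this
      rcases this with h | h
      · exact hc h
      · exact hβ0 h
    · rw [mem_G]; simp
    · rw [mem_GA]; exact hA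
    · intro ℓ hℓ hp
      rcases leave_through hβ hz hℓ hp hA with ⟨w2, h3, h4, h6, rfl⟩ | ⟨h3, _⟩ | ⟨_, h3, rfl⟩ |
        ⟨⟨t, ht⟩, _⟩ | ⟨h3, _⟩
      · left
        rw [mul_right_cancel₀ hz h6]
      · exact absurd h3 hc
      · right; rfl
      · exfalso
        have := congrArg re (mul_right_cancel₀ hz ht)
        simp at this
        exact hwre this
      · exfalso; apply hns; rw [h3]; exact ⟨1, by simp⟩
  obtain ⟨z3, hz3, f3⟩ := flip3 d c hns
  obtain ⟨z5, hz5, f5⟩ := flip5
  have f2 := flip2 z3 hz3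
  have f35 := same z3 z5 hz3 hz5
  tauto

/-! ### the packings -/

lemma spI_spread (hβ : ¬ IsSquare (norm β)) (i : Option K × K) : IsSpread (SpI β i) :=
  sp_spread hβ _ (dir_ne _)

lemma spI_nonempty (i : Option K × K) : O (dir n i.1) (off n i.1 i.2) 1 ∈ SpI β i :=
  Or.inr ⟨1, one_ne_zero, rfl⟩

lemma spI_injective (h2 : (2 : K) ≠ 0) (hβ0 : β ≠ 0) : Function.Injective (SpI β) := by
  intro i j h
  have h1 := spI_nonempty (β := β) i
  exact spI_disj h2 hβ0 h1 (h ▸ h1)

/-- the packing -/
def Full (β : F n) : Set (Set (Submodule K (F n × F n))) := insert (Sig n) (Set.range (SpI β))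

lemma full_spread (hβ : ¬ IsSquare (norm β)) : ∀ S ∈ Full β, IsSpread S := by
  rintro S (rfl | ⟨i, rfl⟩)
  · exact sig_spread
  · exact spI_spread hβ i

lemma full_disj (h2 : (2 : K) ≠ 0) (hβ0 : β ≠ 0) :
    ∀ S ∈ Full β, ∀ T ∈ Full β, S ≠ T → Disjoint S T := by
  rintro S (rfl | ⟨i, rfl⟩) T (rfl | ⟨j, rfl⟩) hne
  · exact absurd rfl hne
  · rw [Set.disjoint_left]; intro ℓ h h'; exact sig_disj h2 hβ0 h' h
  · rw [Set.disjoint_left]; intro ℓ h h'; exact sig_disj h2 hβ0 h h'
  · rw [Set.disjoint_left]; intro ℓ h h'; exact hne (by rw [spI_disj h2 hβ0 h h'])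

lemma sig_not_mem_range (h2 : (2 : K) ≠ 0) (hβ0 : β ≠ 0) : Sig n ∉ Set.range (SpI β) := by
  rintro ⟨i, hi⟩
  have h1 := spI_nonempty (β := β) i
  exact sig_disj h2 hβ0 h1 (hi ▸ h1)

lemma full_card [Fintype K] (h2 : (2 : K) ≠ 0) (hβ0 : β ≠ 0) :
    (Full β).ncard = Fintype.card K ^ 2 + Fintype.card K + 1 := by
  rw [Full, Set.ncard_insert_of_notMem (sig_not_mem_range h2 hβ0) (Set.toFinite _),
    ← Set.image_univ, Set.ncard_image_of_injective _ (spI_injective h2 hβ0), Set.ncard_univ,
    Nat.card_eq_fintype_card, Fintype.card_prod, Fintype.card_option]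
  ring

lemma full_cover (h2 : (2 : K) ≠ 0) (hβ0 : β ≠ 0) :
    ∀ ℓ : Submodule K (F n × F n), Module.finrank K ℓ = 2 → ∃ S ∈ Full β, ℓ ∈ S := by
  intro ℓ hℓ
  rcases cover h2 hβ0 hℓ with h | ⟨i, h⟩
  · exact ⟨_, Or.inl rfl, h⟩
  · exact ⟨_, Or.inr ⟨i, rfl⟩, h⟩

/-- the partial packing -/
def Part (β : F n) : Set (Set (Submodule K (F n × F n))) :=
  insert (Snew β) (SpI β '' {i | i ≠ iA ∧ i ≠ iB})

lemma iA_ne_iB : (iA : Option K × K) ≠ iB := by
  simp [iA, iB]

theorem part_complete [Fintype K] (h2 : (2 : K) ≠ 0) (hcard : Fintype.card K % 2 = 1)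
    (h5 : 5 ≤ Fintype.card K) (hβ : ¬ IsSquare (norm β)) :
    IsCompletePartialPacking 2 (Part β) := by
  classical
  have hβ0 := beta_ne hβ
  have hdis : ∀ i : Option K × K, i ≠ iA ∧ i ≠ iB → Disjoint (Snew β) (SpI β i) := by
    intro i hi
    rw [Set.disjoint_left]
    intro ℓ h h'
    rcases snew_sub h with h | h | h
    · exact sig_disj h2 hβ0 h' h
    · exact hi.1 (spI_disj h2 hβ0 h' h)
    · exact hi.2 (spI_disj h2 hβ0 h' h)
  refine ⟨?_, ?_, ?_, ?_⟩
  · rintro S (rfl | ⟨i, _, rfl⟩)
    · exact snew_spread hβ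
    · exact spI_spread hβ i
  · rintro S (rfl | ⟨i, hi, rfl⟩) T (rfl | ⟨j, hj, rfl⟩) hne
    · exact absurd rfl hne
    · exact hdis j hj
    · exact (hdis i hi).symm
    · rw [Set.disjoint_left]; intro ℓ h h'; exact hne (by rw [spI_disj h2 hβ0 h h'])
  · have hnot : Snew β ∉ SpI β '' {i | i ≠ iA ∧ i ≠ iB} := by
      rintro ⟨i, hi, h⟩
      have h1 := spI_nonempty (β := β) i
      have h3 := hdis i hi
      exact (Set.disjoint_left.mp h3) (h ▸ h1) h1
    rw [Part, Set.ncard_insert_of_notMem hnot (Set.toFinite _),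
      Set.ncard_image_of_injective _ (spI_injective h2 hβ0)]
    have : ({i | i ≠ iA ∧ i ≠ iB} : Set (Option K × K)) =
        (((Finset.univ : Finset (Option K × K)) \ {iA, iB} : Finset (Option K × K)) :
          Set (Option K × K)) := by
      ext i; simp
    rw [this, Set.ncard_coe_finset, Finset.card_sdiff_of_subset (Finset.subset_univ _),
      Finset.card_univ, Fintype.card_prod, Fintype.card_option, Finset.card_pair iA_ne_iB]
    have h6 : 2 ≤ (Fintype.card K + 1) * Fintype.card K := by nlinarith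
    have h7 : (Fintype.card K + 1) * Fintype.card K = Fintype.card K ^ 2 + Fintype.card K := by
      ring
    omega
  · intro S hS
    by_contra hcon
    push Not at hcon
    apply no_spread h2 hcard h5 hβ hS
    intro ℓ hℓ
    apply leave_of
    · rcases cover h2 hβ0 (hS.1 ℓ hℓ) with h | ⟨i, h⟩
      · exact Or.inl h
      · by_cases hA : i = iA
        · right; left; exact hA ▸ h
        · by_cases hB : i = iB
          · right; right; exact hB ▸ h
          · exfalso
            exact (Set.disjoint_left.mp (hcon _ (Or.inr ⟨i, ⟨hA, hB⟩, rfl⟩))) hℓ h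
    · intro h
      exact (Set.disjoint_left.mp (hcon _ (Or.inl rfl))) hℓ h

end Pool.Agent.H173R2.Odd
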